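import Pool.Agent.L7h99.BI.Stm2

set_option autoImplicit false

/-!
# Project BI3: soft potentials `-d < γ ≤ 0`

Third hand-in on MP_187b32_an. `0 < s < 1`, `-d < γ ≤ 0`, classical solution on `[0,T)`:
(1) no implosion if `∫_0^T sup_{x,v} ∫ f(t,x,w) (|v-w|^γ + (1+|w|²)^((γ+2s)/2)) dw dt < ∞`;
(2) no implosion if the collision frequency `sup_{x,v} ∫ f |v-w|^γ dw` is `≤ C (T-t)^(-a)`, `a < 1`,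
and `E ≤ C (T-t)^(-e)` with any real `e`;
(3) no implosion of a bounded solution with `ρ ≤ C (T-t)^(-a)`, `(1+γ/d) a < 1`, and
`E ≤ C (T-t)^(-e)`, any `e`: this excludes (among bounded solutions; the Euler profiles of a monatomic
gas correspond to bounded `f`) the Euler rates for all soft potentials in `d = 2, 3, 4`.

Parts G, B, C are those of project BI with `0 ≤ γ` removed; the old proofs use `0 ≤ γ` in very few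
lines.
-/

open MeasureTheory Set Filter Topology Real
open scoped ENNReal

namespace Pool.Agent.L7h99.BI

/-! ## The old parts without `0 ≤ γ` -/

/-- [GAIN3] [GAIN] for every real `γ` (`L7h12/BI/Gain.lean` should not use `0 ≤ γ`). -/
def S_GAIN3 : Prop := ∀ d : ℕ, 2 ≤ d → ∀ γ : ℝ, ∀ κ : ℝ → ℝ≥0∞, Measurable κ →
  ∀ H : E d × E d → ℝ≥0∞, Measurable H → ∀ v : E d,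
  (∫⁻ k : E d, ∫⁻ σ : Sd d, ENNReal.ofReal (‖k‖ ^ γ) * κ (ip k σ / ‖k‖) *
      H (v - (1 / 2 : ℝ) • (k + ‖k‖ • (σ : E d)), v - (1 / 2 : ℝ) • (k - ‖k‖ • (σ : E d))) ∂(mS d) =
    ∫⁻ y : E d, ∫⁻ σ : Sd d, (if 0 < ip y σ then ENNReal.ofReal (‖y‖ ^ γ) *
      (ENNReal.ofReal (2 ^ (d - 1) * (ip y σ / ‖y‖) ^ (-(2 + γ))) *
        κ (2 * (ip y σ / ‖y‖) ^ 2 - 1)) * H (v - y, vq v y σ) else 0) ∂(mS d)) ∧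
  (∫⁻ k : E d, ∫⁻ σ : Sd d, ENNReal.ofReal (‖k‖ ^ γ) * κ (ip k σ / ‖k‖) *
      H (v - (1 / 2 : ℝ) • (k + ‖k‖ • (σ : E d)), v - (1 / 2 : ℝ) • (k - ‖k‖ • (σ : E d))) ∂(mS d) =
    ∫⁻ y : E d, ∫⁻ σ : Sd d, (if 0 < ip y σ then ENNReal.ofReal (‖y‖ ^ γ) *
      (ENNReal.ofReal (2 ^ (d - 1) * (ip y σ / ‖y‖) ^ (-(2 + γ))) *
        κ (1 - 2 * (ip y σ / ‖y‖) ^ 2)) * H (vq v y σ, v - y) else 0) ∂(mS d))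

/-- [BB3] [BB] for every real `γ`: `c^(-(2+γ)) ≤ max 1 (2^((2+γ)/2))` for `c ∈ [1/√2, 1]`, and in (2)
`c^(-(2+γ)) ≥ min 1 ((7/8)^(-(2+γ)))`, i.e. apply [SP] (b) with a larger constant. -/
def S_BB3 : Prop := ∀ d : ℕ, 2 ≤ d → ∀ s : ℝ, 0 < s → s < 1 → ∀ γ : ℝ,
  ∀ (b : ℝ → ℝ) (c₁ c₂ : ℝ), Ker d s b c₁ c₂ →
  (∃ C : ℝ, 0 < C ∧ ∀ ε : ℝ, 0 < ε → ε < 1 → ∀ n : E d, ‖n‖ = 1 → ∀ Z : ℝ, 0 < Z →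
    ∫⁻ σ : Sd d, Bt d γ b ε (ip n σ) *
      ENNReal.ofReal (min 1 (Z ^ 2 * ((1 - ip n σ ^ 2) / ip n σ ^ 2))) ∂(mS d) ≤
        ENNReal.ofReal (C * Z ^ (2 * s))) ∧
  (∀ K : ℝ, ∃ q₀ : ℝ, 0 < q₀ ∧ ∀ q : ℝ, q₀ ≤ q → ∃ ε₀ : ℝ, 0 < ε₀ ∧ ε₀ < 1 ∧
    ∀ ε : ℝ, 0 < ε → ε < ε₀ → ∀ n : E d, ‖n‖ = 1 →
      ENNReal.ofReal K ≤ ∫⁻ σ : Sd d, Bt d γ b ε (ip n σ) *
        ENNReal.ofReal (1 - (1 + (1 - ip n σ ^ 2) / (8 * ip n σ ^ 2)) ^ (-(q / 2))) ∂(mS d)) ∧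
  (∀ ε : ℝ, 0 < ε → ε < 1 → ∃ C : ℝ, 0 < C ∧ ∀ n : E d, ‖n‖ = 1 →
    ∫⁻ σ : Sd d, Bt d γ b ε (ip n σ) ∂(mS d) ≤ ENNReal.ofReal C)

/-- [CAN3] [CAN] for every real `γ`: `c^(-2-γ) - c^(d-2) ≤ C (1-c²)` for `c ∈ [1/√2, 1]`. -/
def S_CAN3 : Prop := ∀ d : ℕ, 2 ≤ d → ∀ s : ℝ, 0 < s → s < 1 → ∀ γ : ℝ,
  ∀ (b : ℝ → ℝ) (c₁ c₂ : ℝ), Ker d s b c₁ c₂ →
  ∃ C : ℝ, 0 < C ∧ ∀ ε : ℝ, 0 < ε → ε < 1 → ∀ n : E d, ‖n‖ = 1 →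
    ∫⁻ σ : Sd d, Bt d γ b ε (ip n σ) ∂(mS d) ≤
      (∫⁻ σ : Sd d, ENNReal.ofReal (bt b ε (ip n σ)) ∂(mS d)) + ENNReal.ofReal C

/-- [GB3] [GB] for every real `γ`: `|y| ∈ [19/20 |v|, 21/20 |v|]`, so `|y|^γ ≤ 2^|γ| |v|^γ`. -/
def S_GB3 : Prop := S_GAIN3 → ∀ d : ℕ, 2 ≤ d → ∀ s : ℝ, 0 < s → s < 1 → ∀ γ : ℝ,
  ∀ (b : ℝ → ℝ) (c₁ c₂ : ℝ), Ker d s b c₁ c₂ →
  ∃ C q₀ : ℝ, 0 < C ∧ 0 < q₀ ∧ ∀ q : ℝ, q₀ ≤ q → ∀ ε : ℝ, 0 < ε → ε < 1 →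
  ∀ (F : E d → ℝ) (m : ℝ), Measurable F → (∀ v, 0 ≤ F v) → 0 < m → (∀ v, F v ≤ m * ph q v) →
  ∀ v : E d, 10 ≤ ‖v‖ →
    ∫⁻ y : E d, ENNReal.ofReal (F (v - y) * ‖y‖ ^ γ) *
      (∫⁻ σ : Sd d, Bt d γ b ε (ip y σ / ‖y‖) *
        (if ‖vq v y σ‖ < ‖v‖ / 20 then ENNReal.ofReal (F (vq v y σ)) else 0) ∂(mS d)) ≤
    ENNReal.ofReal (C * m * ph q v * ‖v‖ ^ γ) *
      ∫⁻ u : E d, (if ‖u‖ < ‖v‖ / 20 then ENNReal.ofReal (F u) else 0)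

/-- [IN23] [IN2] for every real `γ` (only [BB] sees `γ`). -/
def S_IN23 : Prop := S_ISO → S_BB3 → ∀ d : ℕ, 2 ≤ d → ∀ s : ℝ, 0 < s → s < 1 → ∀ γ : ℝ,
  ∀ (b : ℝ → ℝ) (c₁ c₂ : ℝ), Ker d s b c₁ c₂ → ∀ q : ℝ, 0 < q →
  ∃ C : ℝ, 0 < C ∧ ∀ ε : ℝ, 0 < ε → ε < 1 →
  ∀ (F : E d → ℝ) (m : ℝ), Measurable F → (∀ v, 0 ≤ F v) → 0 < m → (∀ v, F v ≤ m * ph q v) →
  ∀ v y : E d, y ≠ 0 →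
    ∫⁻ σ : Sd d, Bt d γ b ε (ip y σ / ‖y‖) * ENNReal.ofReal (F (vq v y σ)) ∂(mS d) ≤
      ENNReal.ofReal (m * ph q v) * ((∫⁻ σ : Sd d, Bt d γ b ε (ip y σ / ‖y‖) ∂(mS d)) +
        ENNReal.ofReal (C * (‖y‖ / √(1 + ‖v‖ ^ 2)) ^ (2 * s))) +
      ∫⁻ σ : Sd d, Bt d γ b ε (ip y σ / ‖y‖) *
        (if 10 ≤ ‖v‖ ∧ ‖vq v y σ‖ < ‖v‖ / 20 then ENNReal.ofReal (F (vq v y σ)) else 0) ∂(mS d)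

/-- [IN13] [IN1] for every real `γ` (only [BB] sees `γ`). -/
def S_IN13 : Prop := S_ISO → S_BB3 → ∀ d : ℕ, 2 ≤ d → ∀ s : ℝ, 0 < s → s < 1 → ∀ γ : ℝ,
  ∀ (b : ℝ → ℝ) (c₁ c₂ : ℝ), Ker d s b c₁ c₂ → ∀ K : ℝ, 0 < K → ∃ q₀ : ℝ, 0 < q₀ ∧
  ∀ q : ℝ, q₀ ≤ q → ∃ δ ε₀ : ℝ, 0 < δ ∧ δ ≤ 1 / 20 ∧ 0 < ε₀ ∧ ε₀ < 1 ∧
  ∀ ε : ℝ, 0 < ε → ε < ε₀ →
  ∀ (F : E d → ℝ) (m : ℝ), Measurable F → (∀ v, 0 ≤ F v) → 0 < m → (∀ v, F v ≤ m * ph q v) →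
  ∀ v y : E d, 10 ≤ ‖v‖ → ‖v - y‖ < δ * ‖v‖ →
    (∫⁻ σ : Sd d, Bt d γ b ε (ip y σ / ‖y‖) * ENNReal.ofReal (F (vq v y σ)) ∂(mS d)) +
      ENNReal.ofReal (K * (m * ph q v)) ≤
    ENNReal.ofReal (m * ph q v) * (∫⁻ σ : Sd d, Bt d γ b ε (ip y σ / ‖y‖) ∂(mS d))

/-- [QPN3] [QPN] for `γ > -d`: `|v-w|^γ (1+|v|²+|w|²)^(-Q/2)` is integrable in `w` for `Q > d + |γ|`
(split at `|v-w| = 1`). -/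
def S_QPN3 : Prop := S_ISO → ∀ d : ℕ, 2 ≤ d → ∀ s : ℝ, 0 < s → s < 1 → ∀ γ : ℝ, -(d : ℝ) < γ →
  ∀ (b : ℝ → ℝ) (c₁ c₂ : ℝ), Ker d s b c₁ c₂ → ∀ ε : ℝ, 0 < ε → ε < 1 →
  ∀ (F : E d → ℝ) (C Q : ℝ), Continuous F → (∀ v, 0 ≤ F v) → (d : ℝ) + |γ| < Q →
  (∀ v, F v ≤ C * ph Q v) → ∀ v : E d,
    PP γ b ε F v ≠ ∞ ∧ NN γ b ε F v ≠ ∞ ∧
      Qtr γ b ε F v = (PP γ b ε F v).toReal - (NN γ b ε F v).toReal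

/-! ## Riesz potentials -/

/-- [RZ] Riesz potentials. (2): split at `|v-w| = R`, `R = (∫F / M)^(1/d)`:
`∫_{|v-w|<R} F |v-w|^γ ≤ M c R^(d+γ)`, the rest `≤ R^γ ∫ F` (trivial if `∫ F = 0`). (1) from (2) with
`F = ph Q ≤ 1`. -/
def S_RZ : Prop := ∀ (d : ℕ) (γ : ℝ), 2 ≤ d → -(d : ℝ) < γ → γ ≤ 0 →
  (∀ Q : ℝ, (d : ℝ) < Q → ∃ C : ℝ, 0 < C ∧ ∀ v : E d,
    Integrable (fun w : E d => ph Q w * ‖v - w‖ ^ γ) ∧ ∫ w : E d, ph Q w * ‖v - w‖ ^ γ ≤ C) ∧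
  (∃ C : ℝ, 0 < C ∧ ∀ (F : E d → ℝ) (M : ℝ), 0 < M → (∀ v, 0 ≤ F v) → (∀ v, F v ≤ M) →
    Integrable F → ∀ v : E d, Integrable (fun w : E d => F w * ‖v - w‖ ^ γ) ∧
      ∫ w : E d, F w * ‖v - w‖ ^ γ ≤ C * M ^ (-γ / d) * (∫ w, F w) ^ (1 + γ / d))

/-! ## Estimates at a touching point -/

/-- [EST3] (helper99) The pointwise estimate for `-d < γ ≤ 0`. -/
def S_EST3 : Prop := ∀ d : ℕ, 2 ≤ d → ∀ s : ℝ, 0 < s → s < 1 → ∀ γ : ℝ, -(d : ℝ) < γ → γ ≤ 0 →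
  ∀ (b : ℝ → ℝ) (c₁ c₂ : ℝ), Ker d s b c₁ c₂ → ∃ q₀ : ℝ, (d : ℝ) + |γ| + 3 < q₀ ∧
  ∀ q : ℝ, q₀ ≤ q → ∃ C δ ε₀ : ℝ, 0 < C ∧ 0 < δ ∧ 0 < ε₀ ∧ ∀ ε : ℝ, 0 < ε → ε < ε₀ →
  ∀ (F : E d → ℝ) (m : ℝ), Continuous F → (∀ v, 0 ≤ F v) → 0 < m → (∀ v, F v ≤ m * ph q v) →
  ∀ v : E d, F v = m * ph q v →
    Qtr γ b ε F v ≤ C * (m * ph q v) * ∫ w in {w : E d | ‖v‖ < 10 ∨ δ * ‖v‖ ≤ ‖w‖},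
      F w * (‖v - w‖ ^ γ * (1 + ‖w‖ / √(1 + ‖v‖ ^ 2)) ^ (2 * s))

/-- [ESTS3] (helper99) [EST3] for `F(l ·)`, rescaled by [SCALE]; `C` does not depend on `l`. -/
def S_ESTS3 : Prop := S_EST3 → S_SCALE → S_RZ → ∀ d : ℕ, 2 ≤ d → ∀ s : ℝ, 0 < s → s < 1 →
  ∀ γ : ℝ, -(d : ℝ) < γ → γ ≤ 0 → ∀ (b : ℝ → ℝ) (c₁ c₂ : ℝ), Ker d s b c₁ c₂ → ∃ q₀ : ℝ, (d : ℝ) + |γ| + 3 < q₀ ∧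
  ∀ q : ℝ, q₀ ≤ q → ∃ C ε₀ : ℝ, 0 < C ∧ 0 < ε₀ ∧ ∀ ε : ℝ, 0 < ε → ε < ε₀ →
  ∀ (F : E d → ℝ) (m l : ℝ), Continuous F → (∀ v, 0 ≤ F v) → 0 < m → 0 < l →
  (∀ v, F v ≤ m * (1 + ‖v‖ ^ 2 / l ^ 2) ^ (-(q / 2))) →
  ∀ v : E d, F v = m * (1 + ‖v‖ ^ 2 / l ^ 2) ^ (-(q / 2)) →
    Qtr γ b ε F v ≤ C * F v *
      ∫ w : E d, F w * (‖v - w‖ ^ γ * (1 + ‖w‖ / √(l ^ 2 + ‖v‖ ^ 2)) ^ (2 * s))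

/-! ## Continuity of the collision frequency -/

/-- [MC3] First: `t ↦ f t` is continuous in every weighted sup norm: for every `Q`, `t ∈ [0,T)`,
`η > 0` there is `r > 0` with `|f t' x v - f t x v| ≤ η ph Q v` for `|t'-t| < r`, `t' ∈ [0,T)`, all
`x`, `v` (large `|v|`: decay with `Q + 1`; else uniform continuity on a compact set, periodicity).
Then with `Q = d + |κ| + 1`: the integrals of `η ph Q w (|v-w|^γ + (1+|w|²)^(κ/2))` are `≤ C η` by [RZ]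
(1), and `|sup G - sup G'| ≤ sup |G - G'|` (`x`, `v` together: `p = (x,v)`). -/
def S_MC3 : Prop := S_RZ → ∀ (d : ℕ) (T γ κ : ℝ) (f : ℝ → E d → E d → ℝ), 2 ≤ d → 0 < T →
  -(d : ℝ) < γ → γ ≤ 0 →
  (∀ t ∈ Ico 0 T, ∀ x v, 0 ≤ f t x v) →
  (∀ t ∈ Ico 0 T, ∀ x v, ∀ i : Fin d, f t (x + EuclideanSpace.single i 1) v = f t x v) →
  ContinuousOn (fun p : ℝ × E d × E d => f p.1 p.2.1 p.2.2) (Ico 0 T ×ˢ univ) →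
  (∀ T' : ℝ, 0 ≤ T' → T' < T → ∀ q : ℝ, ∃ C : ℝ, ∀ t ∈ Icc 0 T', ∀ x v, f t x v ≤ C * ph q v) →
  ContinuousOn (fun t => ⨆ p : E d × E d,
    ∫ w : E d, f t p.1 w * (‖p.2 - w‖ ^ γ + (1 + ‖w‖ ^ 2) ^ (κ / 2))) (Ico 0 T) ∧
  ∀ t ∈ Ico 0 T, BddAbove (range fun p : E d × E d =>
      ∫ w : E d, f t p.1 w * (‖p.2 - w‖ ^ γ + (1 + ‖w‖ ^ 2) ^ (κ / 2))) ∧
    ∀ x v, Integrable (fun w : E d => f t x w * ‖v - w‖ ^ γ) ∧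
      Integrable (fun w : E d => f t x w * (1 + ‖w‖ ^ 2) ^ (κ / 2))

/-! ## The two barriers -/

/-- [ST13] (helper99) Step 1, moving scale `λ(t) = ((T-t)/T)^(-l)`. -/
def S_ST13 : Prop := S_EST3 → S_SCALE → S_ESTS3 → S_MAX2 → S_MC → S_RZ → S_MC3 →
  ∀ (d : ℕ) (s γ : ℝ) (b : ℝ → ℝ) (c₁ c₂ T : ℝ) (f : ℝ → E d → E d → ℝ), 2 ≤ d → 0 < s → s < 1 →
  -(d : ℝ) < γ → γ ≤ 0 → Ker d s b c₁ c₂ → 0 < T → Sol d γ b T f →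
  ∀ a e l C : ℝ, 0 ≤ l → 0 ≤ C → a < 1 → e - (2 - γ) * l < 1 →
  (∀ t ∈ Ico 0 T, ∀ x v, (∫ w, f t x w * ‖v - w‖ ^ γ) ≤ C * (T - t) ^ (-a)) →
  (∀ t ∈ Ico 0 T, ∀ x, (∫ v, f t x v * ‖v‖ ^ 2) ≤ C * (T - t) ^ (-e)) →
  ∀ q : ℝ, ∃ A : ℝ, 0 < A ∧ ∀ t ∈ Ico 0 T, ∀ x v,
    f t x v ≤ A * (1 + ‖v‖ ^ 2 * ((T - t) / T) ^ (2 * l)) ^ (-(q / 2))

/-- [ST23] Step 2, as [ST2] (`L7h65/BI/St2.lean`), a little simpler. `l = 0`: nothing to prove. `l > 0`: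
`p ≥ max q₀ q`, `p > d + 3`, `ν = (d+3)/(p-d-3)` (so `(1+ν)(p-d-3) = p`), `p` so large that
`2 ν l < 1 - a`; `A ≥ 1` from the hypothesis for `p`; `Λ = ((T-t₁)/T)^(-l)`, `m₁ = 2 A Λ^p`,
`V₁ = (m₁/A)^(1/p)`; barrier `B = m₁ exp(∫_{t₁}^t H) φ_p(v)` on `[t₁,T)`,
`H = (C₀+1)(4 (2V₁)^(2ν) C (T-t)^(-a) + 4 A C_RZ + 1)` (explicit primitive), `t₁` so close to `T` that
`Λ ≥ 11` and `∫_{t₁}^T H ≤ p log 2` (possible: `V₁^(2ν) (T-t₁)^(1-a) → 0`). At a touching point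
`m ⟨v⟩^(-p) = f ≤ A`, so `⟨v⟩ ≥ V = (m/A)^(1/p) ∈ [V₁, 2V₁]`, `|v| ≥ 10`, and [EST3] with the split at
`|w| = V^(1+ν)`: below, `(1+|w|/⟨v⟩)^(2s) ≤ (1+V^ν)² ≤ 4 V^(2ν)`, integral `≤ 4 V^(2ν) C (T-t)^(-a)`;
above, `F(w) (1+|w|/⟨v⟩)^(2s) ≤ m φ_p(w) (1+|w|)² ≤ 4 m V^(-(1+ν)(p-d-3)) φ_(d+1)(w) = 4 A φ_(d+1)(w)`
(`m = A V^p`), integral `≤ 4 A C_RZ` by [RZ] (1). On `[0,t₁]` use `decay`. -/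
def S_ST23 : Prop := S_EST3 → S_MAX2 → S_MC → S_RZ → S_MC3 →
  ∀ (d : ℕ) (s γ : ℝ) (b : ℝ → ℝ) (c₁ c₂ T : ℝ) (f : ℝ → E d → E d → ℝ), 2 ≤ d → 0 < s → s < 1 →
  -(d : ℝ) < γ → γ ≤ 0 → Ker d s b c₁ c₂ → 0 < T → Sol d γ b T f →
  ∀ a l C : ℝ, 0 ≤ l → 0 ≤ C → a < 1 →
  (∀ t ∈ Ico 0 T, ∀ x v, (∫ w, f t x w * ‖v - w‖ ^ γ) ≤ C * (T - t) ^ (-a)) →
  (∀ q : ℝ, ∃ A : ℝ, 0 < A ∧ ∀ t ∈ Ico 0 T, ∀ x v,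
    f t x v ≤ A * (1 + ‖v‖ ^ 2 * ((T - t) / T) ^ (2 * l)) ^ (-(q / 2))) →
  ∀ q : ℝ, ∃ A : ℝ, 0 < A ∧ ∀ t ∈ Ico 0 T, ∀ x v, f t x v ≤ A * ph q v

end Pool.Agent.L7h99.BI
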