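import Mathlib

set_option autoImplicit false

/-!
# Project BI: an integrated blow-up criterion for implosions of the Boltzmann equation

Target (HARD anchor MP_187b32_an, no result so far): kernel `B = r^γ b(cos θ)`, `γ ≥ 0`,
`b(cos θ) ≈ sin(θ/2)^(-(d-1)-2s)`, `0 < s < 1` (non-cutoff), any dimension `d ≥ 2`, classical
solutions on the torus with rapid decay in `v` on `[0, T)`: if
`∫_0^T sup_x ∫ f(t,x,w) (1+|w|²)^((γ+2s)/2) dw dt < ∞`, then `f` and its moments stay bounded up to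
`T`, so there is no implosion. For `γ + 2s ≤ 2`: no implosion with `ρ ≤ C (T-t)^(-a)`,
`E ≤ C (T-t)^(-e)`, `(1-κ/2) a + (κ/2) e < 1`, `κ = γ + 2s` (this excludes the rates of the smooth
Euler implosions in `d = 3` if `γ + 2s < √3`).

Method: maximum principle with the barrier `m(t) (1+|v|²)^(-q/2)`; at a touching point the
collision operator is at most `C m φ(v) ∫ f ⟨w⟩^(γ+2s)`, because of the exact splitting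
`Q = ∫ f(w) |v-w|^γ {∫ β(n·σ) (f(v+h) - f(v)) dσ + cancellation}` (`h = |v-w| (σ/(n·σ) - n)`,
`n = (v-w)/|v-w|`, change of variables `Ψ_σ`), the angular singularity makes the loss from slow
partners as large as we like when `q` is large, and this beats the cancellation term and the gain
from slow `v'`.

All kernels are truncated (`cos θ < 1 - ε`), every estimate is uniform in `ε`; angular integrals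
are lower integrals over the sphere with `mS d`.
-/

open MeasureTheory Set Filter Topology Real
open scoped ENNReal

namespace Pool.Agent.L7h99.BI

/-- The space of positions and of velocities. -/
abbrev E (d : ℕ) := EuclideanSpace ℝ (Fin d)

/-- The unit sphere. -/
abbrev Sd (d : ℕ) := Metric.sphere (0 : E d) 1

/-- The surface measure of the unit sphere. -/
noncomputable def mS (d : ℕ) : Measure (Sd d) := (volume : Measure (E d)).toSphere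

/-- The scalar product. -/
noncomputable def ip {d : ℕ} (x y : E d) : ℝ := inner ℝ x y

/-- The barrier `(1 + |v|²)^(-q/2)`. -/
noncomputable def ph {d : ℕ} (q : ℝ) (v : E d) : ℝ := (1 + ‖v‖ ^ 2) ^ (-(q / 2))

/-- Two sided bounds for the angular part of a non-cutoff kernel, `z = cos θ`,
`(1 - z)/2 = sin(θ/2)²`. -/
structure Ker (d : ℕ) (s : ℝ) (b : ℝ → ℝ) (c₁ c₂ : ℝ) : Prop where
  meas : Measurable b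
  pos : 0 < c₁
  low : ∀ z, -1 ≤ z → z < 1 → c₁ * ((1 - z) / 2) ^ (-(((d : ℝ) - 1) / 2 + s)) ≤ b z
  upp : ∀ z, -1 ≤ z → z < 1 → b z ≤ c₂ * ((1 - z) / 2) ^ (-(((d : ℝ) - 1) / 2 + s))

/-- `v'`. -/
noncomputable def vp {d : ℕ} (v w σ : E d) : E d := (1 / 2 : ℝ) • (v + w) + (‖v - w‖ / 2) • σ

/-- `v'_*`. -/
noncomputable def vps {d : ℕ} (v w σ : E d) : E d := (1 / 2 : ℝ) • (v + w) - (‖v - w‖ / 2) • σ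

/-- The collision operator with the angles `cos θ ≥ 1 - ε` removed. -/
noncomputable def Qtr {d : ℕ} (γ : ℝ) (b : ℝ → ℝ) (ε : ℝ) (F : E d → ℝ) (v : E d) : ℝ :=
  ∫ w : E d, ∫ σ : Sd d, (if ip (v - w) σ / ‖v - w‖ < 1 - ε then
    (F (vps v w σ) * F (vp v w σ) - F w * F v) *
      (‖v - w‖ ^ γ * b (ip (v - w) σ / ‖v - w‖)) else 0) ∂(mS d)

/-- The symmetrised truncated angular kernel (`σ → -σ` exchanges `v'` and `v'_*`). -/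
noncomputable def bt (b : ℝ → ℝ) (ε z : ℝ) : ℝ :=
  if 0 < z then (if z < 1 - ε then b z else 0) + b (-z) else if z = 0 then b 0 else 0

/-- The angular kernel in the variable `c = cos(θ/2) = n·σ`. -/
noncomputable def Bt (d : ℕ) (γ : ℝ) (b : ℝ → ℝ) (ε c : ℝ) : ℝ≥0∞ :=
  if 0 < c then ENNReal.ofReal (2 ^ (d - 1) * c ^ (-(2 + γ))) * ENNReal.ofReal (bt b ε (2 * c ^ 2 - 1))
  else 0

/-- `v' = v - y + (|y|²/(y·σ)) σ` for `v'_* = v - y`. -/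
noncomputable def vq {d : ℕ} (v y σ : E d) : E d := v - y + (‖y‖ ^ 2 / ip y σ) • σ

/-! ## Part A: geometry of the collisions -/

/-- [CV] Change of variables `k = Ψ(y) = 2y - (|y|²/(y·σ)) σ` from `{y·σ > 0}` onto
`{|k| + k·σ > 0}` (complement in the line `ℝσ`, null as `d ≥ 2`), inverse `y = (k + |k|σ)/2`;
`|k| = |y|²/(y·σ)`; `DΨ(y) = 2 I - σ ⊗ (2y/(y·σ) - |y|²σ/(y·σ)²)`,
`det = 2^d (1 - ½ σ·(2y/(y·σ) - |y|²σ/(y·σ)²)) = 2^(d-1) |y|²/(y·σ)²`. -/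
def S_CV : Prop := ∀ d : ℕ, 2 ≤ d → ∀ σ : E d, ‖σ‖ = 1 → ∀ G : E d → ℝ≥0∞, Measurable G →
  ∫⁻ k, G k = ∫⁻ y, (if 0 < ip y σ then G ((2 : ℝ) • y - (‖y‖ ^ 2 / ip y σ) • σ) *
    ENNReal.ofReal (2 ^ (d - 1) * (‖y‖ ^ 2 / ip y σ ^ 2)) else 0)

/-- [ISO] The surface measure is invariant under linear isometries. -/
def S_ISO : Prop := ∀ (d : ℕ) (L : E d ≃ₗᵢ[ℝ] E d) (G : E d → ℝ≥0∞), Measurable G →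
  ∫⁻ σ : Sd d, G (L (σ : E d)) ∂(mS d) = ∫⁻ σ : Sd d, G (σ : E d) ∂(mS d)

/-- [GAIN] Tonelli, [CV] for fixed `σ` (`k = v - w`; with `c = y·σ/|y|`: `|k| = |y|/c`,
`k·σ/|k| = 2c² - 1`, `(k + |k|σ)/2 = y`, `(k - |k|σ)/2 = y - |k|σ`); for (2) first
replace `σ` by `-σ` ([ISO]), i.e. apply (1) to `κ(-z)` and `H(b, a)`. -/
def S_GAIN : Prop := ∀ d : ℕ, 2 ≤ d → ∀ γ : ℝ, 0 ≤ γ → ∀ κ : ℝ → ℝ≥0∞, Measurable κ →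
  ∀ H : E d × E d → ℝ≥0∞, Measurable H → ∀ v : E d,
  (∫⁻ k : E d, ∫⁻ σ : Sd d, ENNReal.ofReal (‖k‖ ^ γ) * κ (ip k σ / ‖k‖) *
      H (v - (1 / 2 : ℝ) • (k + ‖k‖ • (σ : E d)), v - (1 / 2 : ℝ) • (k - ‖k‖ • (σ : E d))) ∂(mS d) =
    ∫⁻ y : E d, ∫⁻ σ : Sd d, (if 0 < ip y σ then ENNReal.ofReal (‖y‖ ^ γ) *
      (ENNReal.ofReal (2 ^ (d - 1) * (ip y σ / ‖y‖) ^ (-(2 + γ))) *
        κ (2 * (ip y σ / ‖y‖) ^ 2 - 1)) * H (v - y, vq v y σ) else 0) ∂(mS d)) ∧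
  (∫⁻ k : E d, ∫⁻ σ : Sd d, ENNReal.ofReal (‖k‖ ^ γ) * κ (ip k σ / ‖k‖) *
      H (v - (1 / 2 : ℝ) • (k + ‖k‖ • (σ : E d)), v - (1 / 2 : ℝ) • (k - ‖k‖ • (σ : E d))) ∂(mS d) =
    ∫⁻ y : E d, ∫⁻ σ : Sd d, (if 0 < ip y σ then ENNReal.ofReal (‖y‖ ^ γ) *
      (ENNReal.ofReal (2 ^ (d - 1) * (ip y σ / ‖y‖) ^ (-(2 + γ))) *
        κ (1 - 2 * (ip y σ / ‖y‖) ^ 2)) * H (vq v y σ, v - y) else 0) ∂(mS d))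

/-! ## Part B: integrals over the sphere -/

/-- [CAP] `mS s = d vol((0,1)·s)`. Upper: the cone over the cap of radius `r` is contained in the
balls of radius `3r` about `j r n`, `0 ≤ j ≤ 1/r` (`|tσ - jrn| ≤ |t - jr| + t|σ - n|`). Lower: it
contains the disjoint balls of radius `r/8` about `j r n`, `1/2 ≤ jr ≤ 1 - r/8`
(`|z/|z| - n| ≤ 2|z - jrn|/(jr)`), for `r ≤ 1/4`; monotonicity for `r ≥ 1/4`. -/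
def S_CAP : Prop := ∀ d : ℕ, 2 ≤ d → ∃ c C : ℝ, 0 < c ∧ 0 < C ∧ ∀ n : E d, ‖n‖ = 1 →
  ∀ r : ℝ, 0 < r → r ≤ 3 →
    ENNReal.ofReal (c * r ^ (d - 1)) ≤ mS d {σ : Sd d | ‖(σ : E d) - n‖ < r} ∧
    mS d {σ : Sd d | ‖(σ : E d) - n‖ < r} ≤ ENNReal.ofReal (C * r ^ (d - 1))

/-- [SP] From [CAP], dyadic annuli. (a) `∑_j min(1, λ² 4^(1-j)) 4^(js) ≤ C λ^(2s)`; (b) choose
a sequence of disjoint annuli `{M^(-j-1) ≤ |σ-n| < M^(-j)}` with `c M^(-(j)(d-1))/2` mass each. -/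
def S_SP : Prop := ∀ d : ℕ, 2 ≤ d → ∀ s : ℝ, 0 < s → s < 1 →
  (∃ C : ℝ, 0 < C ∧ ∀ n : E d, ‖n‖ = 1 → ∀ l : ℝ, 0 < l →
    ∫⁻ σ : Sd d, ENNReal.ofReal (min 1 (l ^ 2 * ‖(σ : E d) - n‖ ^ 2) *
      ‖(σ : E d) - n‖ ^ (-((d : ℝ) - 1 + 2 * s))) ∂(mS d) ≤ ENNReal.ofReal (C * l ^ (2 * s))) ∧
  (∀ K : ℝ, ∃ t : ℝ, 0 < t ∧ t < 1 / 2 ∧ ∀ n : E d, ‖n‖ = 1 →
    ENNReal.ofReal K ≤ ∫⁻ σ : Sd d, (if t ≤ ‖(σ : E d) - n‖ ∧ ‖(σ : E d) - n‖ ≤ 1 / 2 then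
      ENNReal.ofReal (‖(σ : E d) - n‖ ^ (-((d : ℝ) - 1 + 2 * s))) else 0) ∂(mS d))

/-- [BB] From [SP]. `c = n·σ`, `|σ - n|² = 2(1 - c)`; `Bt(c) ≠ 0` only for `c² ≥ 1/2`, there
`0.85 |σ-n|² ≤ 1 - c² ≤ |σ-n|²`, `bt ≤ 2 c₂ (1-c²)^(-(d-1)/2-s)` (for `c < 1`; for `c = 1` the
factor `1 - c²` is zero). (2): on the annulus of [SP] (b) `c ≥ 7/8`, `2c² - 1 < 1 - ε` if
`ε < t²`, `Bt ≥ 2^(d-1) c₁ |σ-n|^(-(d-1)-2s)` and `1 - (1 + ...)^(-q/2) ≥ 1/2` for `q ≥ q₀(t)`. -/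
def S_BB : Prop := ∀ d : ℕ, 2 ≤ d → ∀ s : ℝ, 0 < s → s < 1 → ∀ γ : ℝ, 0 ≤ γ →
  ∀ (b : ℝ → ℝ) (c₁ c₂ : ℝ), Ker d s b c₁ c₂ →
  (∃ C : ℝ, 0 < C ∧ ∀ ε : ℝ, 0 < ε → ε < 1 → ∀ n : E d, ‖n‖ = 1 → ∀ Z : ℝ, 0 < Z →
    ∫⁻ σ : Sd d, Bt d γ b ε (ip n σ) *
      ENNReal.ofReal (min 1 (Z ^ 2 * ((1 - ip n σ ^ 2) / ip n σ ^ 2))) ∂(mS d) ≤
        ENNReal.ofReal (C * Z ^ (2 * s))) ∧
  (∀ K : ℝ, ∃ q₀ : ℝ, 0 < q₀ ∧ ∀ q : ℝ, q₀ ≤ q → ∃ ε₀ : ℝ, 0 < ε₀ ∧ ε₀ < 1 ∧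
    ∀ ε : ℝ, 0 < ε → ε < ε₀ → ∀ n : E d, ‖n‖ = 1 →
      ENNReal.ofReal K ≤ ∫⁻ σ : Sd d, Bt d γ b ε (ip n σ) *
        ENNReal.ofReal (1 - (1 + (1 - ip n σ ^ 2) / (8 * ip n σ ^ 2)) ^ (-(q / 2))) ∂(mS d)) ∧
  (∀ ε : ℝ, 0 < ε → ε < 1 → ∃ C : ℝ, 0 < C ∧ ∀ n : E d, ‖n‖ = 1 →
    ∫⁻ σ : Sd d, Bt d γ b ε (ip n σ) ∂(mS d) ≤ ENNReal.ofReal C)

/-- [CAN] Cancellation. Identity (`n` fixed): `∫ bt(n·σ) dσ = ∫_{c>0} bt(2c²-1) 2^(d-1) c^(d-2) dσ`: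
[CV] with `G(k) = 1_{|k|<1} bt(k·n/|k|)` and polar coordinates
(`∫_{|k|<1} g(k/|k|) dk = (1/d) ∫ g dσ`, `|Ψ(y)| < 1 ⟺ |y| < c`). Then
`2^(d-1) bt(2c²-1) (c^(-2-γ) - c^(d-2)) ≤ C (1-c²)^(1-(d-1)/2-s)`, and [SP] (a) with `l = 1/2`. -/
def S_CAN : Prop := ∀ d : ℕ, 2 ≤ d → ∀ s : ℝ, 0 < s → s < 1 → ∀ γ : ℝ, 0 ≤ γ →
  ∀ (b : ℝ → ℝ) (c₁ c₂ : ℝ), Ker d s b c₁ c₂ →
  ∃ C : ℝ, 0 < C ∧ ∀ ε : ℝ, 0 < ε → ε < 1 → ∀ n : E d, ‖n‖ = 1 →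
    ∫⁻ σ : Sd d, Bt d γ b ε (ip n σ) ∂(mS d) ≤
      (∫⁻ σ : Sd d, ENNReal.ofReal (bt b ε (ip n σ)) ∂(mS d)) + ENNReal.ofReal C

/-! ## Part C: the collision operator at a touching point -/

/-- [GB] Gain with slow `v'`. [GAIN] (1) then (2) with `κ = ofReal ∘ bt b ε` and
`H(a, u) = F(a) F(u) 1_{|u| < |v|/20}`: with `u = v - y`, `c = y·σ/|y|`, `bt(1-2c²) ≠ 0` only for
`c² ≤ 1/2`, there `bt(1-2c²) ≤ 2 c₂ c^(-(d-1)-2s)`; `a = vq v y σ = v + h'`, `h' ⊥ y`,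
`|h'|² = |y|² (1/c² - 1)`, so `|a|² = |v|² + |h'|² + 2 u·h' ≥ (1-η)³ |v|²/c²` (`η = 1/20`),
`F(a) ≤ m |a|^(-q) ≤ m ((1-η)^(-3) (1.01))^(q/2) c^q φ(v)` (`|v| ≥ 10`), `|y|^γ ≤ (2|v|)^γ`; the rest
`c^(q-2-γ-(d-1)-2s) ≤ 2^(-(q-2-γ-(d-1)-2s)/2)`. -/
def S_GB : Prop := S_GAIN → ∀ d : ℕ, 2 ≤ d → ∀ s : ℝ, 0 < s → s < 1 → ∀ γ : ℝ, 0 ≤ γ →
  ∀ (b : ℝ → ℝ) (c₁ c₂ : ℝ), Ker d s b c₁ c₂ →
  ∃ C q₀ : ℝ, 0 < C ∧ 0 < q₀ ∧ ∀ q : ℝ, q₀ ≤ q → ∀ ε : ℝ, 0 < ε → ε < 1 →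
  ∀ (F : E d → ℝ) (m : ℝ), Measurable F → (∀ v, 0 ≤ F v) → 0 < m → (∀ v, F v ≤ m * ph q v) →
  ∀ v : E d, 10 ≤ ‖v‖ →
    ∫⁻ y : E d, ENNReal.ofReal (F (v - y) * ‖y‖ ^ γ) *
      (∫⁻ σ : Sd d, Bt d γ b ε (ip y σ / ‖y‖) *
        (if ‖vq v y σ‖ < ‖v‖ / 20 then ENNReal.ofReal (F (vq v y σ)) else 0) ∂(mS d)) ≤
    ENNReal.ofReal (C * m * ph q v * ‖v‖ ^ γ) *
      ∫⁻ u : E d, (if ‖u‖ < ‖v‖ / 20 then ENNReal.ofReal (F u) else 0)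

/-- [IN2] General inner estimate. `h = vq v y σ - v = |y| (σ/c - n)`, `n = y/|y|`, `|h|² = |y|²
(1-c²)/c²`, `h ⊥ y`; the reflection `σ → 2(n·σ)n - σ` ([ISO]) replaces `h` by `-h` and keeps `c`.
Taylor: `φ(v+h) + φ(v-h) - 2φ(v) ≤ C φ(v) min(1, |h|²/(1+|v|²))` if `|h| ≤ |v|/2` or `|v| < 10`
(`A = 1+|v|²+|h|²`, `x = 2v·h`, second derivative of `(A+x)^(-q/2)`, `A - |x| ≥ 1 + (|v|-|h|)²`). If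
`|v| ≥ 10`, `|h| > |v|/2`, `|vq| ≥ |v|/20`: `φ(vq) ≤ 20^q φ(v) ≤ 8·20^q φ(v) min(1, |h|²/(1+|v|²))`.
Then [BB] (1) with `Z = |y|/√(1+|v|²)`. (For `|v| < 10` there is no slow part.) -/
def S_IN2 : Prop := S_ISO → S_BB → ∀ d : ℕ, 2 ≤ d → ∀ s : ℝ, 0 < s → s < 1 → ∀ γ : ℝ, 0 ≤ γ →
  ∀ (b : ℝ → ℝ) (c₁ c₂ : ℝ), Ker d s b c₁ c₂ → ∀ q : ℝ, 0 < q →
  ∃ C : ℝ, 0 < C ∧ ∀ ε : ℝ, 0 < ε → ε < 1 →
  ∀ (F : E d → ℝ) (m : ℝ), Measurable F → (∀ v, 0 ≤ F v) → 0 < m → (∀ v, F v ≤ m * ph q v) →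
  ∀ v y : E d, y ≠ 0 →
    ∫⁻ σ : Sd d, Bt d γ b ε (ip y σ / ‖y‖) * ENNReal.ofReal (F (vq v y σ)) ∂(mS d) ≤
      ENNReal.ofReal (m * ph q v) * ((∫⁻ σ : Sd d, Bt d γ b ε (ip y σ / ‖y‖) ∂(mS d)) +
        ENNReal.ofReal (C * (‖y‖ / √(1 + ‖v‖ ^ 2)) ^ (2 * s))) +
      ∫⁻ σ : Sd d, Bt d γ b ε (ip y σ / ‖y‖) *
        (if 10 ≤ ‖v‖ ∧ ‖vq v y σ‖ < ‖v‖ / 20 then ENNReal.ofReal (F (vq v y σ)) else 0) ∂(mS d)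

/-- [IN1] Slow partners `w = v - y`, `|w| < δ|v|`: the loss is as large as we like. With
`A = 1+|v|²+|h|²`, `x = 2v·h = 2w·h`, `|x| ≤ δA`: `½(φ(v+h)+φ(v-h)) ≤ A^(-q/2) (1 + C_q (x/A)²)`,
`(x/A)² ≤ 16 δ² (1-c²)/c²`, `A^(-q/2) ≤ φ(v) (1 + (1-c²)/(8c²))^(-q/2)` (`|h|² = |y|²(1-c²)/c²`,
`|y| ≥ (1-δ)|v|`). Integrate with `Bt` ([ISO] for the symmetrisation), [BB] (2) with `K + 1` gives
`q₀`, `ε₀`, then [BB] (1) with `Z = 1` (`c² ≥ 1/2`, so `(1-c²)/c² ≤ 1`) and `δ` small. -/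
def S_IN1 : Prop := S_ISO → S_BB → ∀ d : ℕ, 2 ≤ d → ∀ s : ℝ, 0 < s → s < 1 → ∀ γ : ℝ, 0 ≤ γ →
  ∀ (b : ℝ → ℝ) (c₁ c₂ : ℝ), Ker d s b c₁ c₂ → ∀ K : ℝ, 0 < K → ∃ q₀ : ℝ, 0 < q₀ ∧
  ∀ q : ℝ, q₀ ≤ q → ∃ δ ε₀ : ℝ, 0 < δ ∧ δ ≤ 1 / 20 ∧ 0 < ε₀ ∧ ε₀ < 1 ∧
  ∀ ε : ℝ, 0 < ε → ε < ε₀ →
  ∀ (F : E d → ℝ) (m : ℝ), Measurable F → (∀ v, 0 ≤ F v) → 0 < m → (∀ v, F v ≤ m * ph q v) →
  ∀ v y : E d, 10 ≤ ‖v‖ → ‖v - y‖ < δ * ‖v‖ →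
    (∫⁻ σ : Sd d, Bt d γ b ε (ip y σ / ‖y‖) * ENNReal.ofReal (F (vq v y σ)) ∂(mS d)) +
      ENNReal.ofReal (K * (m * ph q v)) ≤
    ENNReal.ofReal (m * ph q v) * (∫⁻ σ : Sd d, Bt d γ b ε (ip y σ / ‖y‖) ∂(mS d))

/-- The gain part. -/
noncomputable def PP {d : ℕ} (γ : ℝ) (b : ℝ → ℝ) (ε : ℝ) (F : E d → ℝ) (v : E d) : ℝ≥0∞ :=
  ∫⁻ k : E d, ∫⁻ σ : Sd d, ENNReal.ofReal (‖k‖ ^ γ) * ENNReal.ofReal (bt b ε (ip k σ / ‖k‖)) *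
    (ENNReal.ofReal (F (v - (1 / 2 : ℝ) • (k + ‖k‖ • (σ : E d)))) *
      ENNReal.ofReal (F (v - (1 / 2 : ℝ) • (k - ‖k‖ • (σ : E d))))) ∂(mS d)

/-- The loss part. -/
noncomputable def NN {d : ℕ} (γ : ℝ) (b : ℝ → ℝ) (ε : ℝ) (F : E d → ℝ) (v : E d) : ℝ≥0∞ :=
  ∫⁻ k : E d, ∫⁻ σ : Sd d, ENNReal.ofReal (‖k‖ ^ γ) * ENNReal.ofReal (bt b ε (ip k σ / ‖k‖)) *
    (ENNReal.ofReal (F (v - k)) * ENNReal.ofReal (F v)) ∂(mS d)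

/-- [QPN] `w = v - k`; symmetrisation `σ → -σ` of the inner integral ([ISO]), the bracket is
invariant; `bt b ε` is bounded for fixed `ε`, `F(v'_*) F(v') ≤ C² (1+|v|²+|w|²)^(-Q/2)`
(`(1+|a|²)(1+|b|²) ≥ 1+|a|²+|b|² = 1+|v|²+|w|²`), integrable against `|v-w|^γ` as `Q > d + γ`. -/
def S_QPN : Prop := S_ISO → ∀ d : ℕ, 2 ≤ d → ∀ s : ℝ, 0 < s → s < 1 → ∀ γ : ℝ, 0 ≤ γ →
  ∀ (b : ℝ → ℝ) (c₁ c₂ : ℝ), Ker d s b c₁ c₂ → ∀ ε : ℝ, 0 < ε → ε < 1 →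
  ∀ (F : E d → ℝ) (C Q : ℝ), Continuous F → (∀ v, 0 ≤ F v) → (d : ℝ) + γ < Q →
  (∀ v, F v ≤ C * ph Q v) → ∀ v : E d,
    PP γ b ε F v ≠ ∞ ∧ NN γ b ε F v ≠ ∞ ∧
      Qtr γ b ε F v = (PP γ b ε F v).toReal - (NN γ b ε F v).toReal

/-- [EST] The pointwise estimate at a touching point (helper99): `PP = ∫ F(v-y)|y|^γ ∫ Bt F(vq)`
by [GAIN] (1), `NN = F(v) ∫ F(v-y)|y|^γ ∫ bt`, [CAN], [IN1] for `|v-y| < δ|v|` with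
`K = 4^γ (C_can + C_GB)`, [IN2] and [GB] for the rest (where `|y| ≤ C |v-y|` or `|v| < 10`). -/
def S_EST : Prop := ∀ d : ℕ, 2 ≤ d → ∀ s : ℝ, 0 < s → s < 1 → ∀ γ : ℝ, 0 ≤ γ →
  ∀ (b : ℝ → ℝ) (c₁ c₂ : ℝ), Ker d s b c₁ c₂ → ∃ q₀ : ℝ, (d : ℝ) + γ + 2 < q₀ ∧
  ∀ q : ℝ, q₀ ≤ q → ∃ C ε₀ : ℝ, 0 < C ∧ 0 < ε₀ ∧ ∀ ε : ℝ, 0 < ε → ε < ε₀ →
  ∀ (F : E d → ℝ) (m : ℝ), Continuous F → (∀ v, 0 ≤ F v) → 0 < m → (∀ v, F v ≤ m * ph q v) →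
  ∀ v : E d, F v = m * ph q v →
    Qtr γ b ε F v ≤ C * (m * ph q v) * ∫ w : E d, F w * (1 + ‖w‖ ^ 2) ^ ((γ + 2 * s) / 2)

/-! ## Part D: maximum principle -/

/-- [MAX] First touching point of `f` and the barrier `A exp(C₁ ∫_0^t M) φ_q(v)` (compactness: the
decay with `q + 1` excludes large `v`, periodicity reduces `x` to a cube); there the `x`-derivative
vanishes and the `t`-derivative is at least that of the barrier. -/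
def S_MAX : Prop := ∀ (d : ℕ) (T : ℝ) (f : ℝ → E d → E d → ℝ) (q A C₁ : ℝ) (M : ℝ → ℝ),
  0 < T → 0 < q → 0 < A → 0 ≤ C₁ →
  (∀ t ∈ Ico 0 T, ∀ x v, ∀ i : Fin d, f t (x + EuclideanSpace.single i 1) v = f t x v) →
  ContinuousOn (fun p : ℝ × E d × E d => f p.1 p.2.1 p.2.2) (Ico 0 T ×ˢ univ) →
  (∀ T' : ℝ, 0 ≤ T' → T' < T → ∃ C : ℝ, ∀ t ∈ Icc 0 T', ∀ x v, f t x v ≤ C * ph (q + 1) v) →
  (∀ x v, f 0 x v < A * ph q v) →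
  ContinuousOn M (Ico 0 T) → (∀ t ∈ Ico 0 T, 0 ≤ M t) →
  (∀ t ∈ Ioo 0 T, ∀ x v, ∀ m : ℝ, 0 < m → (∀ x' v', f t x' v' ≤ m * ph q v') →
    f t x v = m * ph q v → ∃ L : ℝ × E d →L[ℝ] ℝ,
      HasFDerivAt (fun p : ℝ × E d => f p.1 p.2 v) L (t, x) ∧
      L (1, v) < C₁ * M t * (m * ph q v)) →
  ∀ t ∈ Ico 0 T, ∀ x v, f t x v < A * Real.exp (C₁ * ∫ r in (0:ℝ)..t, M r) * ph q v

/-- [MC] Dominated convergence and compactness of a cube (`IsCompact.continuous_sSup` or similar). -/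
def S_MC : Prop := ∀ (d : ℕ) (T κ : ℝ) (f : ℝ → E d → E d → ℝ), 0 < T →
  (∀ t ∈ Ico 0 T, ∀ x v, 0 ≤ f t x v) →
  (∀ t ∈ Ico 0 T, ∀ x v, ∀ i : Fin d, f t (x + EuclideanSpace.single i 1) v = f t x v) →
  ContinuousOn (fun p : ℝ × E d × E d => f p.1 p.2.1 p.2.2) (Ico 0 T ×ˢ univ) →
  (∀ T' : ℝ, 0 ≤ T' → T' < T → ∃ C Q : ℝ, (d : ℝ) + κ < Q ∧
    ∀ t ∈ Icc 0 T', ∀ x v, f t x v ≤ C * ph Q v) →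
  ContinuousOn (fun t => ⨆ x, ∫ w : E d, f t x w * (1 + ‖w‖ ^ 2) ^ (κ / 2)) (Ico 0 T) ∧
  ∀ t ∈ Ico 0 T, BddAbove (range fun x => ∫ w : E d, f t x w * (1 + ‖w‖ ^ 2) ^ (κ / 2)) ∧
    ∀ x, Integrable (fun w : E d => f t x w * (1 + ‖w‖ ^ 2) ^ (κ / 2))

end Pool.Agent.L7h99.BI
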