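import Pool.Agent.L7h99.BI.Est3

set_option autoImplicit false

/-!
# Project BI3: the integrated criterion for soft potentials
-/

open MeasureTheory Set Filter Topology Real
open scoped ENNReal

namespace Pool.Agent.L7h99.BI

/-- The quantity in the criterion. -/
noncomputable def M3 {d : ℕ} (γ κ : ℝ) (f : ℝ → E d → E d → ℝ) (t : ℝ) : ℝ :=
  ⨆ p : E d × E d, ∫ w : E d, f t p.1 w * (‖p.2 - w‖ ^ γ + (1 + ‖w‖ ^ 2) ^ (κ / 2))

/-- The pointwise comparison. -/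
theorem pt_crit {d : ℕ} {γ s : ℝ} (hγ : γ ≤ 0) (hs : 0 < s) (hs1 : s < 1) (v w : E d) :
    ‖v - w‖ ^ γ * (1 + ‖w‖ / √(1 + ‖v‖ ^ 2)) ^ (2 * s) ≤
      (9 * 4 ^ (-γ)) * (‖v - w‖ ^ γ + (1 + ‖w‖ ^ 2) ^ ((γ + 2 * s) / 2)) := by
  set R := √(1 + ‖v‖ ^ 2) with hR
  have hR1 : 1 ≤ R := one_le_br v
  have hRv : ‖v‖ ≤ R := norm_le_br v
  have hR0 : 0 < R := by linarith
  have hn : 0 ≤ ‖v - w‖ ^ γ := Real.rpow_nonneg (norm_nonneg _) _
  have hk : 0 ≤ (1 + ‖w‖ ^ 2) ^ ((γ + 2 * s) / 2) := by positivity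
  have h4 : (1:ℝ) ≤ 4 ^ (-γ) := Real.one_le_rpow (by norm_num) (by linarith)
  rcases le_or_gt ‖w‖ (2 * R) with h | h
  · have h1 : 1 + ‖w‖ / R ≤ 3 := by
      have : ‖w‖ / R ≤ 2 := by rwa [div_le_iff₀ hR0]
      linarith
    have h2 : (1 + ‖w‖ / R) ^ (2 * s) ≤ 9 := by
      calc (1 + ‖w‖ / R) ^ (2 * s) ≤ 3 ^ (2 * s) :=
            Real.rpow_le_rpow (by positivity) h1 (by linarith)
        _ ≤ (3:ℝ) ^ (2:ℝ) := Real.rpow_le_rpow_of_exponent_le (by norm_num) (by linarith)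
        _ = 9 := by norm_num
    calc ‖v - w‖ ^ γ * (1 + ‖w‖ / R) ^ (2 * s) ≤ ‖v - w‖ ^ γ * 9 :=
          mul_le_mul_of_nonneg_left h2 hn
      _ ≤ (9 * 4 ^ (-γ)) * ‖v - w‖ ^ γ := by nlinarith
      _ ≤ _ := mul_le_mul_of_nonneg_left (by linarith) (by positivity)
  · have hw1 : 1 ≤ ‖w‖ := by linarith
    have hw0 : 0 < ‖w‖ := by linarith
    have h1 : ‖w‖ / 2 ≤ ‖v - w‖ := by
      have := norm_sub_norm_le w v
      rw [norm_sub_rev] at this
      linarith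
    have h2 : ‖v - w‖ ^ γ ≤ (‖w‖ / 2) ^ γ := Real.rpow_le_rpow_of_nonpos (by positivity) h1 hγ
    have h3 : (1 + ‖w‖ / R) ^ (2 * s) ≤ 4 * ‖w‖ ^ (2 * s) := by
      have h4 : 1 + ‖w‖ / R ≤ 2 * ‖w‖ := by
        have : ‖w‖ / R ≤ ‖w‖ := div_le_self hw0.le hR1
        linarith
      calc (1 + ‖w‖ / R) ^ (2 * s) ≤ (2 * ‖w‖) ^ (2 * s) :=
            Real.rpow_le_rpow (by positivity) h4 (by linarith)
        _ = 2 ^ (2 * s) * ‖w‖ ^ (2 * s) := Real.mul_rpow (by norm_num) hw0.le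
        _ ≤ 4 * ‖w‖ ^ (2 * s) := by
            refine mul_le_mul_of_nonneg_right ?_ (by positivity)
            calc (2:ℝ) ^ (2 * s) ≤ 2 ^ (2:ℝ) :=
                  Real.rpow_le_rpow_of_exponent_le (by norm_num) (by linarith)
              _ = 4 := by norm_num
    have h5 : (‖w‖ / 2) ^ γ = 2 ^ (-γ) * ‖w‖ ^ γ := by
      rw [Real.div_rpow hw0.le (by norm_num), Real.rpow_neg (by norm_num)]
      field_simp
    have h6 : ‖w‖ ^ (γ + 2 * s) ≤ 2 ^ (-γ) * (1 + ‖w‖ ^ 2) ^ ((γ + 2 * s) / 2) := by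
      have hb : (1 + ‖w‖ ^ 2) ^ ((γ + 2 * s) / 2) = (√(1 + ‖w‖ ^ 2)) ^ (γ + 2 * s) := by
        rw [Real.sqrt_eq_rpow, ← Real.rpow_mul (by positivity)]
        congr 1
        ring
      rw [hb]
      have hbw : ‖w‖ ≤ √(1 + ‖w‖ ^ 2) := norm_le_br w
      have h2g : (1:ℝ) ≤ 2 ^ (-γ) := Real.one_le_rpow (by norm_num) (by linarith)
      rcases le_or_gt 0 (γ + 2 * s) with hk0 | hk0
      · calc ‖w‖ ^ (γ + 2 * s) ≤ (√(1 + ‖w‖ ^ 2)) ^ (γ + 2 * s) :=
              Real.rpow_le_rpow hw0.le hbw hk0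
          _ ≤ _ := le_mul_of_one_le_left (by positivity) h2g
      · have hb2 : √(1 + ‖w‖ ^ 2) ≤ 2 * ‖w‖ := by
          rw [Real.sqrt_le_left (by positivity)]
          nlinarith
        have h7 : (2 * ‖w‖) ^ (γ + 2 * s) ≤ (√(1 + ‖w‖ ^ 2)) ^ (γ + 2 * s) :=
          Real.rpow_le_rpow_of_nonpos (by positivity) hb2 hk0.le
        rw [Real.mul_rpow (by norm_num) hw0.le] at h7
        calc ‖w‖ ^ (γ + 2 * s) = 2 ^ (-(γ + 2 * s)) * (2 ^ (γ + 2 * s) * ‖w‖ ^ (γ + 2 * s)) := by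
              rw [← mul_assoc, ← Real.rpow_add (by norm_num)]; simp
          _ ≤ 2 ^ (-γ) * (√(1 + ‖w‖ ^ 2)) ^ (γ + 2 * s) := by
              refine mul_le_mul ?_ h7 (by positivity) (by positivity)
              exact Real.rpow_le_rpow_of_exponent_le (by norm_num) (by linarith)
    have h8 : (4:ℝ) ^ (-γ) = 2 ^ (-γ) * 2 ^ (-γ) := by
      rw [← Real.mul_rpow (by norm_num) (by norm_num)]
      norm_num
    calc ‖v - w‖ ^ γ * (1 + ‖w‖ / R) ^ (2 * s) ≤ (2 ^ (-γ) * ‖w‖ ^ γ) * (4 * ‖w‖ ^ (2 * s)) := by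
          rw [← h5]
          exact mul_le_mul h2 h3 (by positivity) (by positivity)
      _ = 4 * 2 ^ (-γ) * ‖w‖ ^ (γ + 2 * s) := by rw [Real.rpow_add hw0]; ring
      _ ≤ 4 * 2 ^ (-γ) * (2 ^ (-γ) * (1 + ‖w‖ ^ 2) ^ ((γ + 2 * s) / 2)) :=
          mul_le_mul_of_nonneg_left h6 (by positivity)
      _ = 4 * 4 ^ (-γ) * (1 + ‖w‖ ^ 2) ^ ((γ + 2 * s) / 2) := by rw [h8]; ring
      _ ≤ (9 * 4 ^ (-γ)) * (‖v - w‖ ^ γ + (1 + ‖w‖ ^ 2) ^ ((γ + 2 * s) / 2)) := by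
          have := mul_nonneg (by positivity : (0:ℝ) ≤ 4 ^ (-γ)) hk
          have := mul_nonneg (by positivity : (0:ℝ) ≤ 4 ^ (-γ)) hn
          nlinarith

/-- The criterion for soft potentials. -/
theorem criterion3 (hEST : S_EST3) (hMAX : S_MAX) (hRZ : S_RZ) (hMC3 : S_MC3) {d : ℕ}
    {γ s T : ℝ} {b : ℝ → ℝ} {f : ℝ → E d → E d → ℝ} (hd : 2 ≤ d) (hs0 : 0 < s) (hs1 : s < 1)
    (hγd : -(d : ℝ) < γ) (hγ : γ ≤ 0) {c₁ c₂ : ℝ} (hK : Ker d s b c₁ c₂) (hT : 0 < T)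
    (hf : Sol d γ b T f) (hint : IntegrableOn (M3 γ (γ + 2 * s) f) (Ioo 0 T)) (q : ℝ) :
    ∃ C : ℝ, 0 < C ∧ ∀ t ∈ Ico 0 T, ∀ x v, f t x v ≤ C * ph q v := by
  obtain ⟨q₀, hq₀, hest⟩ := hEST d hd s hs0 hs1 γ hγd hγ b c₁ c₂ hK
  set κ := γ + 2 * s with hκ
  set p := max q₀ q with hp
  have hpq0 : q₀ ≤ p := le_max_left _ _
  have hpq : q ≤ p := le_max_right _ _
  have hp0 : 0 < p := by
    have : (0:ℝ) ≤ d := Nat.cast_nonneg d
    have := abs_nonneg γ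
    linarith
  obtain ⟨C₀, δ, ε₀, hC₀, hδ, hε₀, hest'⟩ := hest p hpq0
  obtain ⟨A₀, hA₀⟩ := hf.decay 0 le_rfl hT p
  obtain ⟨hMcont, hMint⟩ := hMC3 hRZ d T γ κ f hd hT hγd hγ hf.nonneg hf.periodic hf.cont hf.decay
  have hMnn : ∀ t ∈ Ico 0 T, 0 ≤ M3 γ κ f t := fun t ht =>
    Real.iSup_nonneg fun p => integral_nonneg fun w =>
      mul_nonneg (hf.nonneg t ht p.1 w) (by positivity)
  have hA : 0 < max A₀ 0 + 1 := by positivity
  set K := C₀ * (9 * 4 ^ (-γ)) with hKd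
  have hK0 : 0 < K := by positivity
  have hmain := hMAX d T f p (max A₀ 0 + 1) (K + 1) (M3 γ κ f) hT hp0 hA (by positivity)
    hf.periodic hf.cont (fun T' h0 hT' => hf.decay T' h0 hT' (p + 1))
    (fun x v => by
      refine lt_of_le_of_lt (hA₀ 0 ⟨le_rfl, le_rfl⟩ x v) ?_
      refine mul_lt_mul_of_pos_right ?_ (ph_pos p v)
      exact lt_of_le_of_lt (le_max_left _ _) (lt_add_one _))
    hMcont hMnn
    (fun t ht x v m hm hle heq => by
      have ht' : t ∈ Ico 0 T := ⟨ht.1.le, ht.2⟩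
      obtain ⟨L, hL, hlim⟩ := hf.eqn t ht x v
      refine ⟨L, hL, ?_⟩
      have hcv := hf.cv ht' x
      obtain ⟨hI1, hI2⟩ := (hMint t ht').2 x v
      have hnnf := hf.nonneg t ht' x
      have hIs : Integrable (fun w : E d => f t x w * (‖v - w‖ ^ γ + (1 + ‖w‖ ^ 2) ^ (κ / 2))) := by
        refine (hI1.add hI2).congr (Eventually.of_forall fun w => ?_)
        simp only [Pi.add_apply]
        ring
      have hIle : ∫ w : E d, f t x w * (‖v - w‖ ^ γ + (1 + ‖w‖ ^ 2) ^ (κ / 2)) ≤ M3 γ κ f t :=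
        le_ciSup (hMint t ht').1 (x, v)
      have hmp : 0 < m * ph p v := mul_pos hm (ph_pos p v)
      have hnn : ∀ w : E d, 0 ≤ f t x w * (1 + ‖w‖ ^ 2) ^ (κ / 2) := fun w =>
        mul_nonneg (hnnf w) (by positivity)
      have hpos : 0 < ∫ w : E d, f t x w * (1 + ‖w‖ ^ 2) ^ (κ / 2) := by
        rw [integral_pos_iff_support_of_nonneg hnn hI2]
        have hcont : Continuous fun w : E d => f t x w * (1 + ‖w‖ ^ 2) ^ (κ / 2) := by
          refine hcv.mul ((continuous_const.add (continuous_norm.pow 2)).rpow_const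
            (fun x => Or.inl ?_))
          have : (0:ℝ) < 1 + ‖x‖ ^ 2 := by positivity
          exact this.ne'
        refine (hcont.isOpen_support).measure_pos volume ⟨v, ?_⟩
        rw [Function.mem_support, heq]
        have : (0:ℝ) < (1 + ‖v‖ ^ 2) ^ (κ / 2) := by positivity
        exact (mul_pos hmp this).ne'
      have hpos2 : ∫ w : E d, f t x w * (1 + ‖w‖ ^ 2) ^ (κ / 2) ≤
          ∫ w : E d, f t x w * (‖v - w‖ ^ γ + (1 + ‖w‖ ^ 2) ^ (κ / 2)) := by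
        refine integral_mono hI2 hIs fun w => mul_le_mul_of_nonneg_left ?_ (hnnf w)
        have : 0 ≤ ‖v - w‖ ^ γ := Real.rpow_nonneg (norm_nonneg _) _
        linarith
      have hfar : ∫ w in {w : E d | ‖v‖ < 10 ∨ δ * ‖v‖ ≤ ‖w‖},
          f t x w * (‖v - w‖ ^ γ * (1 + ‖w‖ / √(1 + ‖v‖ ^ 2)) ^ (2 * s)) ≤
          (9 * 4 ^ (-γ)) * ∫ w : E d, f t x w * (‖v - w‖ ^ γ + (1 + ‖w‖ ^ 2) ^ (κ / 2)) := by
        rw [← integral_const_mul]
        have hg : Integrable (fun w : E d => 9 * 4 ^ (-γ) *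
            (f t x w * (‖v - w‖ ^ γ + (1 + ‖w‖ ^ 2) ^ (κ / 2)))) := hIs.const_mul _
        have hg0 : ∀ w : E d, 0 ≤ 9 * 4 ^ (-γ) *
            (f t x w * (‖v - w‖ ^ γ + (1 + ‖w‖ ^ 2) ^ (κ / 2))) := fun w => by
          have := hnnf w
          positivity
        refine le_trans (integral_mono_of_nonneg (Eventually.of_forall fun w =>
          mul_nonneg (hnnf w) (by positivity)) hg.integrableOn
          (Eventually.of_forall fun w => ?_)) (setIntegral_le_integral hg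
          (Eventually.of_forall hg0))
        have := mul_le_mul_of_nonneg_left (pt_crit hγ hs0 hs1 v w) (hnnf w)
        refine this.trans (le_of_eq ?_)
        ring
      have hLle : L (1, v) ≤ K * (m * ph p v) *
          ∫ w : E d, f t x w * (‖v - w‖ ^ γ + (1 + ‖w‖ ^ 2) ^ (κ / 2)) := by
        refine le_of_tendsto hlim ?_
        filter_upwards [Ioo_mem_nhdsGT hε₀] with ε hε
        refine (hest' ε hε.1 hε.2 (f t x) m hcv hnnf hm (fun w => hle x w) v heq).trans ?_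
        refine (mul_le_mul_of_nonneg_left hfar (by positivity)).trans (le_of_eq ?_)
        rw [hKd]
        ring
      have hMpos : 0 < M3 γ κ f t := lt_of_lt_of_le hpos (hpos2.trans hIle)
      calc L (1, v) ≤ K * (m * ph p v) * M3 γ κ f t :=
            hLle.trans (mul_le_mul_of_nonneg_left hIle (by positivity))
        _ < K * (m * ph p v) * M3 γ κ f t + M3 γ κ f t * (m * ph p v) :=
            lt_add_of_pos_right _ (mul_pos hMpos hmp)
        _ = (K + 1) * M3 γ κ f t * (m * ph p v) := by ring)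
  refine ⟨(max A₀ 0 + 1) * Real.exp ((K + 1) * ∫ r in Ioo 0 T, M3 γ κ f r), by positivity, ?_⟩
  intro t ht x v
  have h1 := (hmain t ht x v).le
  have h2 : ∫ r in (0:ℝ)..t, M3 γ κ f r ≤ ∫ r in Ioo 0 T, M3 γ κ f r := by
    rw [intervalIntegral.integral_of_le ht.1]
    refine setIntegral_mono_set hint ?_ ?_
    · refine (ae_restrict_iff' measurableSet_Ioo).2 (Eventually.of_forall fun r hr => ?_)
      exact hMnn r ⟨hr.1.le, hr.2⟩
    · refine HasSubset.Subset.eventuallyLE ?_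
      intro r hr
      exact ⟨hr.1, lt_of_le_of_lt hr.2 ht.2⟩
  refine h1.trans ?_
  have h3 : ph p v ≤ ph q v := by
    unfold ph
    refine Real.rpow_le_rpow_of_exponent_le ?_ (by linarith)
    nlinarith [sq_nonneg ‖v‖]
  refine mul_le_mul ?_ h3 (ph_pos p v).le (by positivity)
  refine mul_le_mul_of_nonneg_left (Real.exp_le_exp.2 ?_) (by positivity)
  exact mul_le_mul_of_nonneg_left h2 (by positivity)

end Pool.Agent.L7h99.BI
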