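import Pool.Agent.L7h99.BI.Stm2

set_option autoImplicit false

/-!
# Project BI2: the refined pointwise estimate at a touching point with large velocity
-/

open MeasureTheory Set Filter Topology Real
open scoped ENNReal

namespace Pool.Agent.L7h99.BI

/-- The weight of the fast partners. -/
noncomputable def jf {d : ℕ} (γ s : ℝ) (v w : E d) : ℝ := ‖w‖ ^ γ * (‖w‖ / ‖v‖) ^ (2 * s)

/-- Elementary bound for fast partners. -/
theorem far_bound2 {d : ℕ} {γ s Cc C2 δ : ℝ} (hγ : 0 ≤ γ) (hs : 0 < s) (hCc : 0 ≤ Cc)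
    (hC2 : 0 ≤ C2) (hδ : 0 < δ) (hδ' : δ ≤ 1 / 20) (v y : E d) (hv : 10 ≤ ‖v‖)
    (hfar : δ * ‖v‖ ≤ ‖v - y‖) :
    ‖y‖ ^ γ * (Cc + C2 * (‖y‖ / √(1 + ‖v‖ ^ 2)) ^ (2 * s)) ≤
      (Cc + C2) * (2 / δ) ^ (γ + 2 * s) * jf γ s v (v - y) := by
  have hv0 : 0 < ‖v‖ := by linarith
  set r := ‖v - y‖ with hr
  have hr0 : 0 < r := lt_of_lt_of_le (mul_pos hδ hv0) hfar
  have hyw : ‖y‖ ≤ ‖v‖ + r := by
    have h := norm_sub_le v (v - y)
    rwa [sub_sub_cancel] at h
  have h3 : ‖v‖ ≤ 1 / δ * r := by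
    rw [div_mul_eq_mul_div, one_mul, le_div_iff₀ hδ, mul_comm]
    exact hfar
  have h4 : (1:ℝ) ≤ 1 / δ := by
    rw [le_div_iff₀ hδ]; linarith
  have h5 : r ≤ 1 / δ * r := le_mul_of_one_le_left hr0.le h4
  have hy : ‖y‖ ≤ 2 / δ * r := by
    have h6 : 2 / δ * r = 1 / δ * r + 1 / δ * r := by ring
    linarith
  have h1 : ‖y‖ ^ γ ≤ (2 / δ * r) ^ γ := Real.rpow_le_rpow (norm_nonneg _) hy hγ
  have h2 : (‖y‖ / √(1 + ‖v‖ ^ 2)) ^ (2 * s) ≤ (2 / δ * (r / ‖v‖)) ^ (2 * s) := by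
    refine Real.rpow_le_rpow (by positivity) ?_ (by linarith)
    rw [← mul_div_assoc]
    refine div_le_div₀ (by positivity) hy hv0 (norm_le_br v)
  have h7 : 1 ≤ (2 / δ * (r / ‖v‖)) ^ (2 * s) := by
    refine Real.one_le_rpow ?_ (by linarith)
    rw [← mul_div_assoc, le_div_iff₀ hv0, one_mul]
    have h6 : 2 / δ * r = 1 / δ * r + 1 / δ * r := by ring
    linarith
  have h8 : Cc + C2 * (‖y‖ / √(1 + ‖v‖ ^ 2)) ^ (2 * s) ≤
      (Cc + C2) * (2 / δ * (r / ‖v‖)) ^ (2 * s) := by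
    rw [add_mul]
    refine add_le_add (le_mul_of_one_le_right hCc h7) (mul_le_mul_of_nonneg_left h2 hC2)
  calc ‖y‖ ^ γ * (Cc + C2 * (‖y‖ / √(1 + ‖v‖ ^ 2)) ^ (2 * s))
      ≤ (2 / δ * r) ^ γ * ((Cc + C2) * (2 / δ * (r / ‖v‖)) ^ (2 * s)) := by
        refine mul_le_mul h1 h8 (by positivity) (by positivity)
    _ = (Cc + C2) * (2 / δ) ^ (γ + 2 * s) * jf γ s v (v - y) := by
        unfold jf
        rw [Real.rpow_add (by positivity), Real.mul_rpow (by positivity) hr0.le,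
          Real.mul_rpow (by positivity) (by positivity), ← hr]
        ring

/-- Elementary bound for slow `v'`. -/
theorem slow_bound2 {d : ℕ} {γ s δ : ℝ} (hγ : 0 ≤ γ) (hs : 0 < s) (hδ : 0 < δ)
    {F : E d → ℝ} (hF0 : ∀ v, 0 ≤ F v) (v u : E d) (hv : 10 ≤ ‖v‖) :
    ENNReal.ofReal (‖v‖ ^ γ) * (if ‖u‖ < ‖v‖ / 20 then ENNReal.ofReal (F u) else 0) ≤
      ENNReal.ofReal (2 ^ γ) * (if ‖u‖ < δ * ‖v‖ then ENNReal.ofReal (F u * ‖v - u‖ ^ γ) else 0) +
      ENNReal.ofReal ((1 / δ) ^ (γ + 2 * s)) *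
        (if δ * ‖v‖ ≤ ‖u‖ then ENNReal.ofReal (F u * jf γ s v u) else 0) := by
  have hv0 : 0 < ‖v‖ := by linarith
  rcases lt_or_ge ‖u‖ (‖v‖ / 20) with h | h
  · rw [if_pos h, ← ENNReal.ofReal_mul (by positivity)]
    rcases lt_or_ge ‖u‖ (δ * ‖v‖) with h1 | h1
    · rw [if_pos h1, ← ENNReal.ofReal_mul (by positivity)]
      refine le_trans (ENNReal.ofReal_le_ofReal ?_) le_self_add
      have h2 : ‖v‖ ≤ 2 * ‖v - u‖ := by
        have h3 := norm_sub_norm_le v u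
        linarith
      have h4 : ‖v‖ ^ γ ≤ 2 ^ γ * ‖v - u‖ ^ γ := by
        rw [← Real.mul_rpow (by norm_num) (norm_nonneg _)]
        exact Real.rpow_le_rpow (norm_nonneg _) h2 hγ
      calc ‖v‖ ^ γ * F u ≤ 2 ^ γ * ‖v - u‖ ^ γ * F u := mul_le_mul_of_nonneg_right h4 (hF0 u)
        _ = 2 ^ γ * (F u * ‖v - u‖ ^ γ) := by ring
    · rw [if_neg (not_lt.2 h1), mul_zero, zero_add, if_pos h1, ← ENNReal.ofReal_mul (by positivity)]
      refine ENNReal.ofReal_le_ofReal ?_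
      have hu0 : 0 < ‖u‖ := lt_of_lt_of_le (mul_pos hδ hv0) h1
      have h2 : ‖v‖ ≤ 1 / δ * ‖u‖ := by
        rw [div_mul_eq_mul_div, one_mul, le_div_iff₀ hδ, mul_comm]
        exact h1
      have h3 : ‖v‖ ^ γ ≤ (1 / δ) ^ γ * ‖u‖ ^ γ := by
        rw [← Real.mul_rpow (by positivity) (by positivity)]
        exact Real.rpow_le_rpow (norm_nonneg _) h2 hγ
      have h4 : 1 ≤ (1 / δ) ^ (2 * s) * (‖u‖ / ‖v‖) ^ (2 * s) := by
        rw [← Real.mul_rpow (by positivity) (by positivity)]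
        refine Real.one_le_rpow ?_ (by linarith)
        rw [← mul_div_assoc, le_div_iff₀ hv0, one_mul]
        exact h2
      have h5 : ‖v‖ ^ γ ≤ (1 / δ) ^ (γ + 2 * s) * jf γ s v u := by
        calc ‖v‖ ^ γ ≤ (1 / δ) ^ γ * ‖u‖ ^ γ := h3
          _ ≤ (1 / δ) ^ γ * ‖u‖ ^ γ * ((1 / δ) ^ (2 * s) * (‖u‖ / ‖v‖) ^ (2 * s)) :=
              le_mul_of_one_le_right (by positivity) h4
          _ = _ := by
              unfold jf
              rw [Real.rpow_add (by positivity)]; ring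
      calc ‖v‖ ^ γ * F u ≤ ((1 / δ) ^ (γ + 2 * s) * jf γ s v u) * F u :=
            mul_le_mul_of_nonneg_right h5 (hF0 u)
        _ = (1 / δ) ^ (γ + 2 * s) * (F u * jf γ s v u) := by ring
  · rw [if_neg (not_lt.2 h), mul_zero]
    exact bot_le

theorem t_EST2 (hISO : S_ISO) (hGAIN : S_GAIN) (hBB : S_BB) (hCAN : S_CAN) (hGB : S_GB)
    (hIN2 : S_IN2) (hIN1 : S_IN1) (hQPN : S_QPN) : S_EST2 := by
  intro d hd s hs0 hs1 γ hγ b c₁ c₂ hK
  obtain ⟨Cc, hCc, hcan⟩ := hCAN d hd s hs0 hs1 γ hγ b c₁ c₂ hK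
  obtain ⟨CG, qG, hCG, hqG, hgb⟩ := hGB hGAIN d hd s hs0 hs1 γ hγ b c₁ c₂ hK
  obtain ⟨q1, hq1, hin1⟩ := hIN1 hISO hBB d hd s hs0 hs1 γ hγ b c₁ c₂ hK (Cc + CG * 2 ^ γ)
    (by positivity)
  refine ⟨max (max qG q1) ((d : ℝ) + γ + 3), ?_, fun q hq => ?_⟩
  · refine lt_of_lt_of_le ?_ (le_max_right _ _); linarith
  have hqG' : qG ≤ q := ((le_max_left _ _).trans (le_max_left _ _)).trans hq
  have hq1' : q1 ≤ q := ((le_max_right _ _).trans (le_max_left _ _)).trans hq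
  have hqd : (d : ℝ) + γ + 3 ≤ q := (le_max_right _ _).trans hq
  have hq0 : 0 < q := hqG.trans_le hqG'
  obtain ⟨δ, ε₀, hδ, hδ', hε₀, hε₀', hin1'⟩ := hin1 q hq1'
  obtain ⟨C2, hC2, hin2⟩ := hIN2 hISO hBB d hd s hs0 hs1 γ hγ b c₁ c₂ hK q hq0
  set κ := γ + 2 * s with hκ
  set C3 := (Cc + C2) * (2 / δ) ^ κ with hC3
  have hC3p : 0 < C3 := by positivity
  refine ⟨C3 + CG * (1 / δ) ^ κ, δ, ε₀, by positivity, hδ, hε₀, ?_⟩
  intro ε hε hεε F m hF hF0 hm hFm v h10 hFv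
  have hv0 : 0 < ‖v‖ := by linarith
  have hε1 : ε < 1 := hεε.trans hε₀'
  have hFmeas := hF.measurable
  have hmp : 0 < m * ph q v := mul_pos hm (ph_pos q v)
  set W : E d → ℝ≥0∞ := fun y => WW γ F v y with hW
  set a : E d → ℝ≥0∞ := fun y => ∫⁻ σ : Sd d, Bt d γ b ε (ip y σ / ‖y‖) *
    ENNReal.ofReal (F (vq v y σ)) ∂(mS d) with ha
  set lam : E d → ℝ≥0∞ := fun y => ∫⁻ σ : Sd d, Bt d γ b ε (ip y σ / ‖y‖) ∂(mS d) with hlam
  set l : E d → ℝ≥0∞ := fun y => ∫⁻ σ : Sd d, ENNReal.ofReal (bt b ε (ip y σ / ‖y‖)) ∂(mS d)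
    with hl
  set g : E d → ℝ≥0∞ := fun y => ∫⁻ σ : Sd d, Bt d γ b ε (ip y σ / ‖y‖) *
        (if 10 ≤ ‖v‖ ∧ ‖vq v y σ‖ < ‖v‖ / 20 then ENNReal.ofReal (F (vq v y σ)) else 0) ∂(mS d)
    with hg
  set J' : E d → ℝ≥0∞ := fun y => ENNReal.ofReal (F y * jb κ y) with hJ'
  set J : E d → ℝ≥0∞ := fun y => (if δ * ‖v‖ ≤ ‖y‖ then ENNReal.ofReal (F y * jf γ s v y) else 0)
    with hJ
  have hWne : ∀ y, W y ≠ ∞ := fun y => ENNReal.ofReal_ne_top
  have hip : ∀ y : E d, ∀ σ : Sd d, ip y σ / ‖y‖ = ip ((‖y‖)⁻¹ • y) (σ : E d) := by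
    intro y σ
    unfold ip
    rw [real_inner_smul_left]
    ring
  have hlaml : ∀ y, y ≠ 0 → lam y ≤ l y + ENNReal.ofReal Cc := by
    intro y hy
    have h := hcan ε hε hε1 ((‖y‖)⁻¹ • y) (by
      rw [norm_smul, norm_inv, norm_norm, inv_mul_cancel₀ (norm_ne_zero_iff.2 hy)])
    simp only [← hip] at h
    exact h
  -- pointwise inequality
  have hpt : ∀ y, y ≠ 0 → W y * a y + (if 10 ≤ ‖v‖ ∧ ‖v - y‖ < δ * ‖v‖ then
      ENNReal.ofReal ((Cc + CG * 2 ^ γ) * (m * ph q v)) * W y else 0) ≤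
      (((if 10 ≤ ‖v‖ ∧ ‖v - y‖ < δ * ‖v‖ then ENNReal.ofReal (Cc * (m * ph q v)) * W y else 0) +
      ENNReal.ofReal (C3 * (m * ph q v)) * J (v - y)) + W y * g y) +
      ENNReal.ofReal (F v) * (W y * l y) := by
    intro y hy
    by_cases hn : 10 ≤ ‖v‖ ∧ ‖v - y‖ < δ * ‖v‖
    · rw [if_pos hn, if_pos hn]
      have h1 := hin1' ε hε hεε F m hFmeas hF0 hm hFm v y hn.1 hn.2
      have h2 : W y * a y + ENNReal.ofReal ((Cc + CG * 2 ^ γ) * (m * ph q v)) * W y ≤
          W y * (ENNReal.ofReal (m * ph q v) * (l y + ENNReal.ofReal Cc)) := by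
        calc _ = W y * (a y + ENNReal.ofReal ((Cc + CG * 2 ^ γ) * (m * ph q v))) := by ring
          _ ≤ W y * (ENNReal.ofReal (m * ph q v) * lam y) := mul_le_mul_right h1 _
          _ ≤ _ := mul_le_mul_right (mul_le_mul_right (hlaml y hy) _) _
      refine h2.trans ?_
      have h3 : W y * (ENNReal.ofReal (m * ph q v) * (l y + ENNReal.ofReal Cc)) =
          ENNReal.ofReal (Cc * (m * ph q v)) * W y + ENNReal.ofReal (F v) * (W y * l y) := by
        rw [hFv, mul_comm Cc, ENNReal.ofReal_mul hmp.le]; ring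
      rw [h3]
      refine add_le_add ?_ le_rfl
      rw [add_assoc]
      exact le_self_add
    · rw [if_neg hn, if_neg hn, add_zero, zero_add]
      have h1 := hin2 ε hε hε1 F m hFmeas hF0 hm hFm v y hy
      have h2 : W y * a y ≤ W y * (ENNReal.ofReal (m * ph q v) * ((l y + ENNReal.ofReal Cc) +
          ENNReal.ofReal (C2 * (‖y‖ / √(1 + ‖v‖ ^ 2)) ^ (2 * s))) + g y) := by
        refine mul_le_mul_right (h1.trans ?_) _
        exact add_le_add (mul_le_mul_right (add_le_add (hlaml y hy) le_rfl) _) le_rfl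
      refine h2.trans ?_
      have h3 : W y * (ENNReal.ofReal (m * ph q v) * ((l y + ENNReal.ofReal Cc) +
          ENNReal.ofReal (C2 * (‖y‖ / √(1 + ‖v‖ ^ 2)) ^ (2 * s))) + g y) =
          (W y * (ENNReal.ofReal (m * ph q v) * (ENNReal.ofReal Cc +
            ENNReal.ofReal (C2 * (‖y‖ / √(1 + ‖v‖ ^ 2)) ^ (2 * s)))) + W y * g y) +
          ENNReal.ofReal (F v) * (W y * l y) := by
        rw [hFv]; ring
      rw [h3]
      refine add_le_add (add_le_add ?_ le_rfl) le_rfl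
      rw [← ENNReal.ofReal_add hCc.le (by positivity), ← ENNReal.ofReal_mul hmp.le]
      have hfar : δ * ‖v‖ ≤ ‖v - y‖ := by
        by_contra hh
        exact hn ⟨h10, not_le.1 hh⟩
      simp only [hW, WW, hJ]
      rw [if_pos hfar, ← ENNReal.ofReal_mul (mul_nonneg (hF0 _) (by positivity)),
        ← ENNReal.ofReal_mul (mul_nonneg hC3p.le hmp.le)]
      refine ENNReal.ofReal_le_ofReal ?_
      have h4 := far_bound2 (d := d) hγ hs0 hCc.le hC2.le hδ hδ' v y h10 hfar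
      have h5 := mul_le_mul_of_nonneg_left h4 (mul_nonneg (hF0 (v - y)) hmp.le)
      calc F (v - y) * ‖y‖ ^ γ * (m * ph q v * (Cc + C2 * (‖y‖ / √(1 + ‖v‖ ^ 2)) ^ (2 * s)))
          = F (v - y) * (m * ph q v) *
            (‖y‖ ^ γ * (Cc + C2 * (‖y‖ / √(1 + ‖v‖ ^ 2)) ^ (2 * s))) := by ring
        _ ≤ _ := h5
        _ = _ := by rw [hC3]; ring
  have hpt' : ∀ᵐ y : E d, W y * a y + (if 10 ≤ ‖v‖ ∧ ‖v - y‖ < δ * ‖v‖ then
      ENNReal.ofReal ((Cc + CG * 2 ^ γ) * (m * ph q v)) * W y else 0) ≤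
      (((if 10 ≤ ‖v‖ ∧ ‖v - y‖ < δ * ‖v‖ then ENNReal.ofReal (Cc * (m * ph q v)) * W y else 0) +
      ENNReal.ofReal (C3 * (m * ph q v)) * J (v - y)) + W y * g y) +
      ENNReal.ofReal (F v) * (W y * l y) := by
    have : Nontrivial (E d) := by
      have : 0 < d := by omega
      have : Nonempty (Fin d) := ⟨⟨0, this⟩⟩
      infer_instance
    have h0 : ∀ᵐ y : E d, y ≠ 0 := by
      have : (volume : Measure (E d)) {0} = 0 := measure_singleton 0
      exact (measure_eq_zero_iff_ae_notMem.1 this)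
    filter_upwards [h0] with y hy using hpt y hy
  -- measurability
  have hWm : Measurable W := by
    refine ENNReal.measurable_ofReal.comp ?_
    exact (hFmeas.comp (measurable_const.sub measurable_id)).mul (measurable_norm.pow_const _)
  have hnm : MeasurableSet {y : E d | 10 ≤ ‖v‖ ∧ ‖v - y‖ < δ * ‖v‖} := by
    refine MeasurableSet.inter (MeasurableSet.const _) ?_
    exact measurableSet_lt (measurable_const.sub measurable_id).norm measurable_const
  have hlm : Measurable l := by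
    have hm : Measurable (Function.uncurry fun (y : E d) (σ : Sd d) =>
        ENNReal.ofReal (bt b ε (ip y σ / ‖y‖))) := by
      refine ENNReal.measurable_ofReal.comp ((bt_meas hK.meas ε).comp ?_)
      exact ip_meas.div (measurable_norm.comp measurable_fst)
    exact hm.lintegral_prod_right'
  have hJm : Measurable J := by
    refine Measurable.ite (measurableSet_le measurable_const measurable_norm) ?_ measurable_const
    refine ENNReal.measurable_ofReal.comp (hFmeas.mul ?_)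
    unfold jf
    exact (measurable_norm.pow_const _).mul ((measurable_norm.div_const _).pow_const _)
  have hJm' : Measurable J' := by
    refine ENNReal.measurable_ofReal.comp (hFmeas.mul ?_)
    unfold jb
    exact ((measurable_norm.pow_const 2).const_add 1).pow_const _
  have hX2 : Measurable fun y => (if 10 ≤ ‖v‖ ∧ ‖v - y‖ < δ * ‖v‖ then
      ENNReal.ofReal (Cc * (m * ph q v)) * W y else 0) :=
    Measurable.ite hnm (hWm.const_mul _) measurable_const
  have hX3 : Measurable fun y => ENNReal.ofReal (C3 * (m * ph q v)) * J (v - y) :=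
    (hJm.comp (measurable_const.sub measurable_id)).const_mul _
  have hX4 : Measurable fun y => ENNReal.ofReal (F v) * (W y * l y) :=
    (hWm.mul hlm).const_mul _
  -- the integrals
  set A1 : ℝ≥0∞ := ∫⁻ y, (if 10 ≤ ‖v‖ ∧ ‖v - y‖ < δ * ‖v‖ then W y else 0) with hA1
  set I0 : ℝ≥0∞ := ∫⁻ y, J y with hI0
  have hI0' : ∫⁻ y, J (v - y) = I0 := lintegral_sub_left_eq_self J v
  have hJint : Integrable (fun w : E d => F w * jb κ w) :=
    J_fin (by rw [hκ]; linarith) hF hF0 hFm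
  have hJ0 : ∀ w : E d, 0 ≤ F w * jb κ w := fun w => mul_nonneg (hF0 w)
    (by unfold jb; positivity)
  have hI0ne' : ∫⁻ y, J' y ≠ ∞ :=
    (hasFiniteIntegral_iff_ofReal (Eventually.of_forall hJ0)).1 hJint.2 |>.ne
  have hI0'' : ∫⁻ y, J' (v - y) = ∫⁻ y, J' y := lintegral_sub_left_eq_self J' v
  have hjf0 : ∀ w : E d, 0 ≤ jf γ s v w := fun w => by unfold jf; positivity
  have hjle : ∀ w : E d, jf γ s v w ≤ jb κ w := by
    intro w
    unfold jf
    rw [jb_eq, hκ, Real.rpow_add (lt_of_lt_of_le one_pos (one_le_br w))]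
    refine mul_le_mul (Real.rpow_le_rpow (norm_nonneg _) (norm_le_br w) hγ)
      (Real.rpow_le_rpow (by positivity) ?_ (by linarith)) (by positivity) (by positivity)
    exact (div_le_self (norm_nonneg _) (by linarith)).trans (norm_le_br w)
  have hJJ' : ∀ y, J y ≤ J' y := by
    intro y
    simp only [hJ, hJ']
    split_ifs with h
    · exact ENNReal.ofReal_le_ofReal (mul_le_mul_of_nonneg_left (hjle y) (hF0 y))
    · exact bot_le
  have hI0ne : I0 ≠ ∞ := ne_top_of_le_ne_top hI0ne' (lintegral_mono hJJ')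
  have hite : ∀ (r : ℝ) (y : E d), (if 10 ≤ ‖v‖ ∧ ‖v - y‖ < δ * ‖v‖ then
      ENNReal.ofReal r * W y else 0) = ENNReal.ofReal r *
      (if 10 ≤ ‖v‖ ∧ ‖v - y‖ < δ * ‖v‖ then W y else 0) := by
    intro r y
    split_ifs <;> simp
  have hX23 : Measurable fun y => (if 10 ≤ ‖v‖ ∧ ‖v - y‖ < δ * ‖v‖ then
      ENNReal.ofReal (Cc * (m * ph q v)) * W y else 0) +
      ENNReal.ofReal (C3 * (m * ph q v)) * J (v - y) := hX2.add hX3
  have hint := lintegral_mono_ae hpt'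
  rw [lintegral_add_right _ hX4, lintegral_add_left hX23, lintegral_add_left hX2] at hint
  have hPP : PP γ b ε F v = ∫⁻ y, W y * a y := PP_eq hGAIN hd hγ hK.meas ε hFmeas hF0 v
  have hNN : NN γ b ε F v = ∫⁻ y, ENNReal.ofReal (F v) * (W y * l y) := NN_eq γ ε hF0 v
  have hG : ∫⁻ y, W y * g y ≤ ENNReal.ofReal (CG * 2 ^ γ * (m * ph q v)) * A1 +
      ENNReal.ofReal (CG * (1 / δ) ^ κ * (m * ph q v)) * I0 := by
    · have h1 := hgb q hqG' ε hε hε1 F m hFmeas hF0 hm hFm v h10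
      have h2 : ∫⁻ y, W y * g y = ∫⁻ y : E d, ENNReal.ofReal (F (v - y) * ‖y‖ ^ γ) *
          (∫⁻ σ : Sd d, Bt d γ b ε (ip y σ / ‖y‖) *
          (if ‖vq v y σ‖ < ‖v‖ / 20 then ENNReal.ofReal (F (vq v y σ)) else 0) ∂(mS d)) := by
        refine lintegral_congr fun y => ?_
        simp only [hW, WW, hg, h10, true_and]
      rw [h2]
      refine h1.trans ?_
      have h3 : ENNReal.ofReal (CG * m * ph q v * ‖v‖ ^ γ) * (∫⁻ u : E d,
          (if ‖u‖ < ‖v‖ / 20 then ENNReal.ofReal (F u) else 0)) =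
          ENNReal.ofReal (CG * (m * ph q v)) * ∫⁻ u : E d, ENNReal.ofReal (‖v‖ ^ γ) *
          (if ‖u‖ < ‖v‖ / 20 then ENNReal.ofReal (F u) else 0) := by
        rw [lintegral_const_mul' _ _ ENNReal.ofReal_ne_top, ← mul_assoc,
          ← ENNReal.ofReal_mul (mul_nonneg hCG.le hmp.le)]
        congr 2
        ring
      rw [h3]
      have h4 : ∫⁻ u : E d, ENNReal.ofReal (‖v‖ ^ γ) *
          (if ‖u‖ < ‖v‖ / 20 then ENNReal.ofReal (F u) else 0) ≤
          ENNReal.ofReal (2 ^ γ) * A1 + ENNReal.ofReal ((1 / δ) ^ κ) * I0 := by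
        refine (lintegral_mono fun u => slow_bound2 (s := s) hγ hs0 hδ hF0 v u h10).trans ?_
        rw [lintegral_add_right _ (hJm.const_mul _), lintegral_const_mul' _ _ ENNReal.ofReal_ne_top,
          lintegral_const_mul' _ _ ENNReal.ofReal_ne_top]
        refine add_le_add (mul_le_mul_right (le_of_eq ?_) _) le_rfl
        rw [hA1, ← lintegral_sub_left_eq_self (fun u : E d => if ‖u‖ < δ * ‖v‖ then
          ENNReal.ofReal (F u * ‖v - u‖ ^ γ) else 0) v]
        refine lintegral_congr fun y => ?_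
        simp only [hW, WW, h10, true_and, sub_sub_cancel]
      refine (mul_le_mul_right h4 _).trans (le_of_eq ?_)
      have e1 : ENNReal.ofReal (CG * 2 ^ γ * (m * ph q v)) =
          ENNReal.ofReal (CG * (m * ph q v)) * ENNReal.ofReal (2 ^ γ) := by
        rw [← ENNReal.ofReal_mul (mul_nonneg hCG.le hmp.le)]; congr 1; ring
      have e2 : ENNReal.ofReal (CG * (1 / δ) ^ κ * (m * ph q v)) =
          ENNReal.ofReal (CG * (m * ph q v)) * ENNReal.ofReal ((1 / δ) ^ κ) := by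
        rw [← ENNReal.ofReal_mul (mul_nonneg hCG.le hmp.le)]; congr 1; ring
      rw [e1, e2]
      ring
  have hA1ne : A1 ≠ ∞ := by
    have h1 : A1 ≤ ENNReal.ofReal ((2 * ‖v‖) ^ γ) * ∫⁻ y, J' y := by
      rw [← hI0'', ← lintegral_const_mul' _ _ ENNReal.ofReal_ne_top]
      refine lintegral_mono fun y => ?_
      split_ifs with h
      · simp only [hW, WW, hJ']
        rw [← ENNReal.ofReal_mul (by positivity)]
        refine ENNReal.ofReal_le_ofReal ?_
        have h2 : ‖y‖ ≤ 2 * ‖v‖ := by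
          have h3 := norm_sub_norm_le y v
          rw [norm_sub_rev] at h3
          have h4 := norm_nonneg v
          nlinarith [h.2]
        have h5 : ‖y‖ ^ γ ≤ (2 * ‖v‖) ^ γ := Real.rpow_le_rpow (norm_nonneg _) h2 hγ
        have h6 : 1 ≤ jb κ (v - y) := one_le_jb (by rw [hκ]; linarith) _
        calc F (v - y) * ‖y‖ ^ γ ≤ F (v - y) * (2 * ‖v‖) ^ γ :=
              mul_le_mul_of_nonneg_left h5 (hF0 _)
          _ ≤ F (v - y) * (2 * ‖v‖) ^ γ * jb κ (v - y) :=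
              le_mul_of_one_le_right (mul_nonneg (hF0 _) (by positivity)) h6
          _ = _ := by ring
      · exact bot_le
    exact ne_top_of_le_ne_top (ENNReal.mul_ne_top ENNReal.ofReal_ne_top hI0ne') h1
  have hfin : PP γ b ε F v ≤ NN γ b ε F v +
      ENNReal.ofReal ((C3 + CG * (1 / δ) ^ κ) * (m * ph q v)) * I0 := by
    have h1 : PP γ b ε F v + ENNReal.ofReal ((Cc + CG * 2 ^ γ) * (m * ph q v)) * A1 ≤
        (NN γ b ε F v + ENNReal.ofReal ((C3 + CG * (1 / δ) ^ κ) * (m * ph q v)) * I0) +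
        ENNReal.ofReal ((Cc + CG * 2 ^ γ) * (m * ph q v)) * A1 := by
      have e1 : ENNReal.ofReal ((Cc + CG * 2 ^ γ) * (m * ph q v)) * A1 =
          ∫⁻ y, (if 10 ≤ ‖v‖ ∧ ‖v - y‖ < δ * ‖v‖ then
            ENNReal.ofReal ((Cc + CG * 2 ^ γ) * (m * ph q v)) * W y else 0) := by
        rw [hA1, ← lintegral_const_mul' _ _ ENNReal.ofReal_ne_top]
        exact lintegral_congr fun y => (hite _ y).symm
      have e2 : ∫⁻ y, (if 10 ≤ ‖v‖ ∧ ‖v - y‖ < δ * ‖v‖ then
            ENNReal.ofReal (Cc * (m * ph q v)) * W y else 0) =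
            ENNReal.ofReal (Cc * (m * ph q v)) * A1 := by
        rw [hA1, ← lintegral_const_mul' _ _ ENNReal.ofReal_ne_top]
        exact lintegral_congr fun y => hite _ y
      have hA := (le_lintegral_add _ _).trans hint
      rw [← hPP, ← e1, e2, ← hNN, lintegral_const_mul' _ _ ENNReal.ofReal_ne_top, hI0'] at hA
      refine hA.trans ?_
      have hP := hmp.le
      have f1 : ENNReal.ofReal ((Cc + CG * 2 ^ γ) * (m * ph q v)) =
          ENNReal.ofReal (Cc * (m * ph q v)) + ENNReal.ofReal (CG * 2 ^ γ * (m * ph q v)) := by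
        rw [add_mul, ENNReal.ofReal_add (mul_nonneg hCc.le hP)
          (mul_nonneg (by positivity) hP)]
      have f2 : ENNReal.ofReal ((C3 + CG * (1 / δ) ^ κ) * (m * ph q v)) =
          ENNReal.ofReal (C3 * (m * ph q v)) +
            ENNReal.ofReal (CG * (1 / δ) ^ κ * (m * ph q v)) := by
        rw [add_mul, ENNReal.ofReal_add (mul_nonneg hC3p.le hP)
          (mul_nonneg (by positivity) hP)]
      rw [f1, f2]
      calc _ ≤ ENNReal.ofReal (Cc * (m * ph q v)) * A1 + ENNReal.ofReal (C3 * (m * ph q v)) * I0 +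
            (ENNReal.ofReal (CG * 2 ^ γ * (m * ph q v)) * A1 +
            ENNReal.ofReal (CG * (1 / δ) ^ κ * (m * ph q v)) * I0) + NN γ b ε F v :=
            add_le_add (add_le_add le_rfl hG) le_rfl
        _ = _ := by ring
    exact (ENNReal.add_le_add_iff_right (ENNReal.mul_ne_top ENNReal.ofReal_ne_top hA1ne)).1 h1
  obtain ⟨hPne, hNne, hQ⟩ := hQPN hISO d hd s hs0 hs1 γ hγ b c₁ c₂ hK ε hε hε1 F m q hF hF0
    (by linarith) hFm v
  rw [hQ]
  have hms : MeasurableSet {w : E d | δ * ‖v‖ ≤ ‖w‖} :=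
    measurableSet_le measurable_const measurable_norm
  have hI0r : I0.toReal = ∫ w in {w : E d | δ * ‖v‖ ≤ ‖w‖},
      F w * (‖w‖ ^ γ * (‖w‖ / ‖v‖) ^ (2 * s)) := by
    change I0.toReal = ∫ w in {w : E d | δ * ‖v‖ ≤ ‖w‖}, F w * jf γ s v w
    rw [integral_eq_lintegral_of_nonneg_ae (Eventually.of_forall fun w =>
      mul_nonneg (hF0 w) (hjf0 w)) ?_, ← lintegral_indicator hms]
    · congr 1
    · refine Measurable.aestronglyMeasurable (hFmeas.mul ?_)
      unfold jf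
      exact (measurable_norm.pow_const _).mul ((measurable_norm.div_const _).pow_const _)
  rw [← hI0r]
  have h2 := ENNReal.toReal_mono (ENNReal.add_ne_top.2 ⟨hNne,
    ENNReal.mul_ne_top ENNReal.ofReal_ne_top hI0ne⟩) hfin
  rw [ENNReal.toReal_add hNne (ENNReal.mul_ne_top ENNReal.ofReal_ne_top hI0ne),
    ENNReal.toReal_mul, ENNReal.toReal_ofReal (mul_nonneg (by positivity) hmp.le)] at h2
  linarith

end Pool.Agent.L7h99.BI
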