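import Pool.Agent.L7h99.BI.Stm3

set_option autoImplicit false

/-!
# Project BI3: the pointwise estimate at a touching point for soft potentials
-/

open MeasureTheory Set Filter Topology Real
open scoped ENNReal

namespace Pool.Agent.L7h99.BI

namespace E3

/-- The far weight. -/
noncomputable def fw {d : ℕ} (γ s : ℝ) (v w : E d) : ℝ :=
  ‖v - w‖ ^ γ * (1 + ‖w‖ / √(1 + ‖v‖ ^ 2)) ^ (2 * s)

theorem fw_nonneg {d : ℕ} (γ s : ℝ) (v w : E d) : 0 ≤ fw γ s v w := by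
  unfold fw; positivity

theorem PP_eq3 (hGAIN : S_GAIN3) {d : ℕ} (hd : 2 ≤ d) {γ : ℝ} {b : ℝ → ℝ}
    (hb : Measurable b) (ε : ℝ) {F : E d → ℝ} (hF : Measurable F) (hF0 : ∀ v, 0 ≤ F v) (v : E d) :
    PP γ b ε F v = ∫⁻ y : E d, WW γ F v y *
      (∫⁻ σ : Sd d, Bt d γ b ε (ip y σ / ‖y‖) * ENNReal.ofReal (F (vq v y σ)) ∂(mS d)) := by
  have h := (hGAIN d hd γ (fun z => ENNReal.ofReal (bt b ε z))
    (ENNReal.measurable_ofReal.comp (bt_meas hb ε))
    (fun p => ENNReal.ofReal (F p.1) * ENNReal.ofReal (F p.2))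
    ((ENNReal.measurable_ofReal.comp (hF.comp measurable_fst)).mul
      (ENNReal.measurable_ofReal.comp (hF.comp measurable_snd))) v).1
  unfold PP
  rw [h]
  refine lintegral_congr fun y => ?_
  rw [← lintegral_const_mul' (WW γ F v y) _ (by unfold WW; exact ENNReal.ofReal_ne_top)]
  refine lintegral_congr fun σ => ?_
  unfold WW Bt
  rcases eq_or_lt_of_le (norm_nonneg y) with hy | hy
  · have hy0 : y = 0 := norm_eq_zero.1 hy.symm
    subst hy0
    simp [ip]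
  · by_cases hc : 0 < ip y (σ : E d)
    · rw [if_pos hc, if_pos (div_pos hc hy), ENNReal.ofReal_mul (hF0 _)]
      ring
    · rw [if_neg hc, if_neg (fun h => hc ((div_pos_iff_of_pos_right hy).1 h))]
      simp

/-- Fast partners. -/
theorem far_bound3 {d : ℕ} {γ s Cc C2 : ℝ} (hs : 0 < s) (hCc : 0 ≤ Cc) (hC2 : 0 ≤ C2) (v y : E d) :
    ‖y‖ ^ γ * (Cc + C2 * (‖y‖ / √(1 + ‖v‖ ^ 2)) ^ (2 * s)) ≤ (Cc + C2) * fw γ s v (v - y) := by
  unfold fw
  rw [sub_sub_cancel]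
  have hr1 : 1 ≤ √(1 + ‖v‖ ^ 2) := one_le_br v
  have hr0 : 0 < √(1 + ‖v‖ ^ 2) := lt_of_lt_of_le one_pos hr1
  have hyw : ‖y‖ ≤ ‖v‖ + ‖v - y‖ := by
    have h := norm_sub_le v (v - y)
    rwa [sub_sub_cancel] at h
  have h1 : ‖y‖ / √(1 + ‖v‖ ^ 2) ≤ 1 + ‖v - y‖ / √(1 + ‖v‖ ^ 2) := by
    rw [div_le_iff₀ hr0, add_mul, one_mul, div_mul_cancel₀ _ hr0.ne']
    linarith [norm_le_br v]
  have hA : (1:ℝ) ≤ 1 + ‖v - y‖ / √(1 + ‖v‖ ^ 2) := by
    have : 0 ≤ ‖v - y‖ / √(1 + ‖v‖ ^ 2) := by positivity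
    linarith
  have h2 : (‖y‖ / √(1 + ‖v‖ ^ 2)) ^ (2 * s) ≤ (1 + ‖v - y‖ / √(1 + ‖v‖ ^ 2)) ^ (2 * s) :=
    Real.rpow_le_rpow (by positivity) h1 (by linarith)
  have h3 : 1 ≤ (1 + ‖v - y‖ / √(1 + ‖v‖ ^ 2)) ^ (2 * s) := Real.one_le_rpow hA (by linarith)
  have h4 : Cc + C2 * (‖y‖ / √(1 + ‖v‖ ^ 2)) ^ (2 * s) ≤
      (Cc + C2) * (1 + ‖v - y‖ / √(1 + ‖v‖ ^ 2)) ^ (2 * s) := by
    rw [add_mul]
    exact add_le_add (le_mul_of_one_le_right hCc h3) (mul_le_mul_of_nonneg_left h2 hC2)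
  calc _ ≤ ‖y‖ ^ γ * ((Cc + C2) * (1 + ‖v - y‖ / √(1 + ‖v‖ ^ 2)) ^ (2 * s)) :=
        mul_le_mul_of_nonneg_left h4 (Real.rpow_nonneg (norm_nonneg _) _)
    _ = _ := by ring

/-- Slow `v'`. -/
theorem slow_bound3 {d : ℕ} {γ s δ : ℝ} (hγ : γ ≤ 0) (hs : 0 < s) {F : E d → ℝ}
    (hF0 : ∀ v, 0 ≤ F v) (v u : E d) :
    ENNReal.ofReal (‖v‖ ^ γ) * (if ‖u‖ < ‖v‖ / 20 then ENNReal.ofReal (F u) else 0) ≤
      ENNReal.ofReal (2 ^ (-γ)) *
        (if ‖u‖ < δ * ‖v‖ then ENNReal.ofReal (F u * ‖v - u‖ ^ γ) else 0) +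
      ENNReal.ofReal (2 ^ (-γ)) *
        (if δ * ‖v‖ ≤ ‖u‖ then ENNReal.ofReal (F u * fw γ s v u) else 0) := by
  rcases lt_or_ge ‖u‖ (‖v‖ / 20) with h | h
  · have hvu0 : 0 < ‖v‖ := by
      have := norm_nonneg u
      linarith
    have hle : ‖v - u‖ ≤ 2 * ‖v‖ := by
      have := norm_sub_le v u
      linarith
    have hpos : 0 < ‖v - u‖ := by
      have := norm_sub_norm_le v u
      linarith
    have h4 : ‖v‖ ^ γ ≤ 2 ^ (-γ) * ‖v - u‖ ^ γ := by
      have h5 : (2 * ‖v‖) ^ γ ≤ ‖v - u‖ ^ γ := Real.rpow_le_rpow_of_nonpos hpos hle hγ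
      rw [Real.mul_rpow (by norm_num) (norm_nonneg _)] at h5
      calc ‖v‖ ^ γ = 2 ^ (-γ) * (2 ^ γ * ‖v‖ ^ γ) := by
            rw [← mul_assoc, ← Real.rpow_add (by norm_num)]; simp
        _ ≤ _ := mul_le_mul_of_nonneg_left h5 (by positivity)
    rw [if_pos h, ← ENNReal.ofReal_mul (by positivity)]
    rcases lt_or_ge ‖u‖ (δ * ‖v‖) with h1 | h1
    · rw [if_pos h1, ← ENNReal.ofReal_mul (by positivity)]
      refine le_trans (ENNReal.ofReal_le_ofReal ?_) le_self_add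
      calc ‖v‖ ^ γ * F u ≤ 2 ^ (-γ) * ‖v - u‖ ^ γ * F u := mul_le_mul_of_nonneg_right h4 (hF0 u)
        _ = _ := by ring
    · rw [if_neg (not_lt.2 h1), if_pos h1, mul_zero, zero_add, ← ENNReal.ofReal_mul (by positivity)]
      refine ENNReal.ofReal_le_ofReal ?_
      have h6 : ‖v - u‖ ^ γ ≤ fw γ s v u := by
        unfold fw
        refine le_mul_of_one_le_right (Real.rpow_nonneg (norm_nonneg _) _) ?_
        refine Real.one_le_rpow ?_ (by linarith)
        have : 0 ≤ ‖u‖ / √(1 + ‖v‖ ^ 2) := by positivity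
        linarith
      calc ‖v‖ ^ γ * F u ≤ 2 ^ (-γ) * ‖v - u‖ ^ γ * F u := mul_le_mul_of_nonneg_right h4 (hF0 u)
        _ ≤ 2 ^ (-γ) * fw γ s v u * F u :=
          mul_le_mul_of_nonneg_right (mul_le_mul_of_nonneg_left h6 (by positivity)) (hF0 u)
        _ = _ := by ring
  · rw [if_neg (not_lt.2 h), mul_zero]
    exact bot_le

/-- Integrability of the weighted function. -/
theorem fw_int (hRZ : S_RZ) {d : ℕ} (hd : 2 ≤ d) {γ s q m : ℝ} (hγd : -(d : ℝ) < γ) (hγ : γ ≤ 0)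
    (hs : 0 < s) (hs1 : s < 1) (hq : (d : ℝ) + 2 < q) {F : E d → ℝ} (hF : Continuous F)
    (hF0 : ∀ v, 0 ≤ F v) (hFm : ∀ v, F v ≤ m * ph q v) (v : E d) :
    Integrable (fun w : E d => F w * fw γ s v w) := by
  obtain ⟨C, -, hC⟩ := (hRZ d γ hd hγd hγ).1 (q - 2) (by linarith)
  have h1 := ((hC v).1).const_mul (4 * m)
  refine h1.mono' ?_ (Eventually.of_forall fun w => ?_)
  · refine (hF.measurable.mul ?_).aestronglyMeasurable
    unfold fw
    refine Measurable.mul ?_ ?_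
    · exact ((measurable_const.sub measurable_id).norm).pow_const _
    · exact ((measurable_norm.div_const _).const_add 1).pow_const _
  · have hw := fw_nonneg γ s v w
    rw [Real.norm_of_nonneg (mul_nonneg (hF0 w) hw)]
    have hr1 : 1 ≤ √(1 + ‖v‖ ^ 2) := one_le_br v
    have hb1 : 1 ≤ √(1 + ‖w‖ ^ 2) := one_le_br w
    have hbw := norm_le_br w
    have h2 : (1 + ‖w‖ / √(1 + ‖v‖ ^ 2)) ^ (2 * s) ≤ 4 * (1 + ‖w‖ ^ 2) := by
      have h3 : 1 + ‖w‖ / √(1 + ‖v‖ ^ 2) ≤ 2 * √(1 + ‖w‖ ^ 2) := by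
        have := div_le_self (norm_nonneg w) hr1
        linarith
      have h4 : (1:ℝ) ≤ 2 * √(1 + ‖w‖ ^ 2) := by linarith
      calc _ ≤ (2 * √(1 + ‖w‖ ^ 2)) ^ (2 * s) :=
            Real.rpow_le_rpow (by positivity) h3 (by linarith)
        _ ≤ (2 * √(1 + ‖w‖ ^ 2)) ^ (2:ℝ) := Real.rpow_le_rpow_of_exponent_le h4 (by linarith)
        _ = 4 * (1 + ‖w‖ ^ 2) := by
          rw [Real.rpow_two, mul_pow, Real.sq_sqrt (by positivity)]
          norm_num
    have hn : 0 ≤ ‖v - w‖ ^ γ := Real.rpow_nonneg (norm_nonneg _) _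
    have hm : 0 ≤ m * ph q w := (hF0 w).trans (hFm w)
    have h5 : ph q w * (1 + ‖w‖ ^ 2) = ph (q - 2) w := by
      unfold ph
      have hpos : (0:ℝ) < 1 + ‖w‖ ^ 2 := by positivity
      conv_lhs => rw [← Real.rpow_one (1 + ‖w‖ ^ 2)]
      rw [← Real.rpow_mul hpos.le, ← Real.rpow_add hpos]
      congr 1
      ring
    unfold fw
    calc F w * (‖v - w‖ ^ γ * (1 + ‖w‖ / √(1 + ‖v‖ ^ 2)) ^ (2 * s))
        ≤ (m * ph q w) * (‖v - w‖ ^ γ * (4 * (1 + ‖w‖ ^ 2))) := by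
          refine mul_le_mul (hFm w) (mul_le_mul_of_nonneg_left h2 hn) (by positivity) hm
      _ = 4 * m * ((ph q w * (1 + ‖w‖ ^ 2)) * ‖v - w‖ ^ γ) := by ring
      _ = _ := by rw [h5]

end E3

open E3 in
theorem t_EST3 (hISO : S_ISO) (hGAIN : S_GAIN3) (hBB : S_BB3) (hCAN : S_CAN3) (hGB : S_GB3)
    (hIN2 : S_IN23) (hIN1 : S_IN13) (hQPN : S_QPN3) (hRZ : S_RZ) : S_EST3 := by
  intro d hd s hs0 hs1 γ hγd hγ b c₁ c₂ hK
  obtain ⟨Cc, hCc, hcan⟩ := hCAN d hd s hs0 hs1 γ b c₁ c₂ hK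
  obtain ⟨CG, qG, hCG, hqG, hgb⟩ := hGB hGAIN d hd s hs0 hs1 γ b c₁ c₂ hK
  obtain ⟨q1, hq1, hin1⟩ := hIN1 hISO hBB d hd s hs0 hs1 γ b c₁ c₂ hK (Cc + CG * 2 ^ (-γ))
    (by positivity)
  have hγa : 0 ≤ |γ| := abs_nonneg γ
  refine ⟨max (max qG q1) ((d : ℝ) + |γ| + 4), ?_, fun q hq => ?_⟩
  · refine lt_of_lt_of_le ?_ (le_max_right _ _); linarith
  have hqG' : qG ≤ q := ((le_max_left _ _).trans (le_max_left _ _)).trans hq
  have hq1' : q1 ≤ q := ((le_max_right _ _).trans (le_max_left _ _)).trans hq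
  have hqd : (d : ℝ) + |γ| + 4 ≤ q := (le_max_right _ _).trans hq
  have hq0 : 0 < q := hqG.trans_le hqG'
  obtain ⟨δ, ε₀, hδ, hδ', hε₀, hε₀', hin1'⟩ := hin1 q hq1'
  obtain ⟨C2, hC2, hin2⟩ := hIN2 hISO hBB d hd s hs0 hs1 γ b c₁ c₂ hK q hq0
  set C3 := Cc + C2 with hC3
  have hC3p : 0 < C3 := by positivity
  refine ⟨C3 + CG * 2 ^ (-γ), δ, ε₀, by positivity, hδ, hε₀, ?_⟩
  intro ε hε hεε F m hF hF0 hm hFm v hFv
  have hε1 : ε < 1 := hεε.trans hε₀'
  have hFmeas := hF.measurable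
  have hmp : 0 < m * ph q v := mul_pos hm (ph_pos q v)
  set W : E d → ℝ≥0∞ := fun y => WW γ F v y with hW
  set a : E d → ℝ≥0∞ := fun y => ∫⁻ σ : Sd d, Bt d γ b ε (ip y σ / ‖y‖) *
    ENNReal.ofReal (F (vq v y σ)) ∂(mS d) with ha
  set lam : E d → ℝ≥0∞ := fun y => ∫⁻ σ : Sd d, Bt d γ b ε (ip y σ / ‖y‖) ∂(mS d) with hlam
  set l : E d → ℝ≥0∞ := fun y => ∫⁻ σ : Sd d, ENNReal.ofReal (bt b ε (ip y σ / ‖y‖)) ∂(mS d)
    with hl
  set g : E d → ℝ≥0∞ := fun y => ∫⁻ σ : Sd d, Bt d γ b ε (ip y σ / ‖y‖) *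
        (if 10 ≤ ‖v‖ ∧ ‖vq v y σ‖ < ‖v‖ / 20 then ENNReal.ofReal (F (vq v y σ)) else 0) ∂(mS d)
    with hg
  set J : E d → ℝ≥0∞ := fun w => (if ‖v‖ < 10 ∨ δ * ‖v‖ ≤ ‖w‖ then
    ENNReal.ofReal (F w * fw γ s v w) else 0) with hJ
  have hWne : ∀ y, W y ≠ ∞ := fun y => ENNReal.ofReal_ne_top
  have hip : ∀ y : E d, ∀ σ : Sd d, ip y σ / ‖y‖ = ip ((‖y‖)⁻¹ • y) (σ : E d) := by
    intro y σ
    unfold ip
    rw [real_inner_smul_left]
    ring
  have hlaml : ∀ y, y ≠ 0 → lam y ≤ l y + ENNReal.ofReal Cc := by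
    intro y hy
    have h := hcan ε hε hε1 ((‖y‖)⁻¹ • y) (by
      rw [norm_smul, norm_inv, norm_norm, inv_mul_cancel₀ (norm_ne_zero_iff.2 hy)])
    simp only [← hip] at h
    exact h
  have hfarJ : ∀ y, ¬ (10 ≤ ‖v‖ ∧ ‖v - y‖ < δ * ‖v‖) →
      J (v - y) = ENNReal.ofReal (F (v - y) * fw γ s v (v - y)) := by
    intro y hn
    have : ‖v‖ < 10 ∨ δ * ‖v‖ ≤ ‖v - y‖ := by
      by_contra hh
      push Not at hh
      exact hn hh
    simp only [hJ, this, if_true]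
  -- pointwise inequality
  have hpt : ∀ y, y ≠ 0 → W y * a y + (if 10 ≤ ‖v‖ ∧ ‖v - y‖ < δ * ‖v‖ then
      ENNReal.ofReal ((Cc + CG * 2 ^ (-γ)) * (m * ph q v)) * W y else 0) ≤
      (((if 10 ≤ ‖v‖ ∧ ‖v - y‖ < δ * ‖v‖ then ENNReal.ofReal (Cc * (m * ph q v)) * W y else 0) +
      ENNReal.ofReal (C3 * (m * ph q v)) * J (v - y)) + W y * g y) +
      ENNReal.ofReal (F v) * (W y * l y) := by
    intro y hy
    by_cases hn : 10 ≤ ‖v‖ ∧ ‖v - y‖ < δ * ‖v‖
    · rw [if_pos hn, if_pos hn]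
      have h1 := hin1' ε hε hεε F m hFmeas hF0 hm hFm v y hn.1 hn.2
      have h2 : W y * a y + ENNReal.ofReal ((Cc + CG * 2 ^ (-γ)) * (m * ph q v)) * W y ≤
          W y * (ENNReal.ofReal (m * ph q v) * (l y + ENNReal.ofReal Cc)) := by
        calc _ = W y * (a y + ENNReal.ofReal ((Cc + CG * 2 ^ (-γ)) * (m * ph q v))) := by ring
          _ ≤ W y * (ENNReal.ofReal (m * ph q v) * lam y) := mul_le_mul_right h1 _
          _ ≤ _ := mul_le_mul_right (mul_le_mul_right (hlaml y hy) _) _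
      refine h2.trans ?_
      have h3 : W y * (ENNReal.ofReal (m * ph q v) * (l y + ENNReal.ofReal Cc)) =
          ENNReal.ofReal (Cc * (m * ph q v)) * W y + ENNReal.ofReal (F v) * (W y * l y) := by
        rw [hFv, mul_comm Cc, ENNReal.ofReal_mul hmp.le]; ring
      rw [h3]
      refine add_le_add ?_ le_rfl
      rw [add_assoc]
      exact le_self_add
    · rw [if_neg hn, if_neg hn, add_zero, zero_add]
      have h1 := hin2 ε hε hε1 F m hFmeas hF0 hm hFm v y hy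
      have h2 : W y * a y ≤ W y * (ENNReal.ofReal (m * ph q v) * ((l y + ENNReal.ofReal Cc) +
          ENNReal.ofReal (C2 * (‖y‖ / √(1 + ‖v‖ ^ 2)) ^ (2 * s))) + g y) := by
        refine mul_le_mul_right (h1.trans ?_) _
        exact add_le_add (mul_le_mul_right (add_le_add (hlaml y hy) le_rfl) _) le_rfl
      refine h2.trans ?_
      have h3 : W y * (ENNReal.ofReal (m * ph q v) * ((l y + ENNReal.ofReal Cc) +
          ENNReal.ofReal (C2 * (‖y‖ / √(1 + ‖v‖ ^ 2)) ^ (2 * s))) + g y) =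
          (W y * (ENNReal.ofReal (m * ph q v) * (ENNReal.ofReal Cc +
            ENNReal.ofReal (C2 * (‖y‖ / √(1 + ‖v‖ ^ 2)) ^ (2 * s)))) + W y * g y) +
          ENNReal.ofReal (F v) * (W y * l y) := by
        rw [hFv]; ring
      rw [h3]
      refine add_le_add (add_le_add ?_ le_rfl) le_rfl
      rw [hfarJ y hn, ← ENNReal.ofReal_add hCc.le (by positivity), ← ENNReal.ofReal_mul hmp.le]
      simp only [hW, WW]
      rw [← ENNReal.ofReal_mul (mul_nonneg (hF0 _) (by positivity)), ← ENNReal.ofReal_mul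
        (by positivity)]
      refine ENNReal.ofReal_le_ofReal ?_
      have h4 := far_bound3 (d := d) (γ := γ) hs0 hCc.le hC2.le v y
      have h5 := mul_le_mul_of_nonneg_left h4 (mul_nonneg (hF0 (v - y)) hmp.le)
      calc F (v - y) * ‖y‖ ^ γ * (m * ph q v * (Cc + C2 * (‖y‖ / √(1 + ‖v‖ ^ 2)) ^ (2 * s)))
          = F (v - y) * (m * ph q v) *
            (‖y‖ ^ γ * (Cc + C2 * (‖y‖ / √(1 + ‖v‖ ^ 2)) ^ (2 * s))) := by ring
        _ ≤ _ := h5
        _ = _ := by rw [hC3]; ring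
  have hpt' : ∀ᵐ y : E d, W y * a y + (if 10 ≤ ‖v‖ ∧ ‖v - y‖ < δ * ‖v‖ then
      ENNReal.ofReal ((Cc + CG * 2 ^ (-γ)) * (m * ph q v)) * W y else 0) ≤
      (((if 10 ≤ ‖v‖ ∧ ‖v - y‖ < δ * ‖v‖ then ENNReal.ofReal (Cc * (m * ph q v)) * W y else 0) +
      ENNReal.ofReal (C3 * (m * ph q v)) * J (v - y)) + W y * g y) +
      ENNReal.ofReal (F v) * (W y * l y) := by
    have : Nontrivial (E d) := by
      have : 0 < d := by omega
      have : Nonempty (Fin d) := ⟨⟨0, this⟩⟩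
      infer_instance
    have h0 : ∀ᵐ y : E d, y ≠ 0 := by
      have : (volume : Measure (E d)) {0} = 0 := measure_singleton 0
      exact (measure_eq_zero_iff_ae_notMem.1 this)
    filter_upwards [h0] with y hy using hpt y hy
  -- measurability
  have hWm : Measurable W := by
    refine ENNReal.measurable_ofReal.comp ?_
    exact (hFmeas.comp (measurable_const.sub measurable_id)).mul (measurable_norm.pow_const _)
  have hnm : MeasurableSet {y : E d | 10 ≤ ‖v‖ ∧ ‖v - y‖ < δ * ‖v‖} := by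
    refine MeasurableSet.inter (MeasurableSet.const _) ?_
    exact measurableSet_lt (measurable_const.sub measurable_id).norm measurable_const
  have hfarm : MeasurableSet {w : E d | ‖v‖ < 10 ∨ δ * ‖v‖ ≤ ‖w‖} :=
    MeasurableSet.union (MeasurableSet.const _) (measurableSet_le measurable_const measurable_norm)
  have hlm : Measurable l := by
    have hm : Measurable (Function.uncurry fun (y : E d) (σ : Sd d) =>
        ENNReal.ofReal (bt b ε (ip y σ / ‖y‖))) := by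
      refine ENNReal.measurable_ofReal.comp ((bt_meas hK.meas ε).comp ?_)
      exact ip_meas.div (measurable_norm.comp measurable_fst)
    exact hm.lintegral_prod_right'
  have hfwm : Measurable (fun w : E d => F w * fw γ s v w) := by
    refine hFmeas.mul ?_
    unfold fw
    refine Measurable.mul ?_ ?_
    · exact ((measurable_const.sub measurable_id).norm).pow_const _
    · exact ((measurable_norm.div_const _).const_add 1).pow_const _
  have hJm : Measurable J :=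
    Measurable.ite hfarm (ENNReal.measurable_ofReal.comp hfwm) measurable_const
  have hX2 : Measurable fun y => (if 10 ≤ ‖v‖ ∧ ‖v - y‖ < δ * ‖v‖ then
      ENNReal.ofReal (Cc * (m * ph q v)) * W y else 0) :=
    Measurable.ite hnm (hWm.const_mul _) measurable_const
  have hX3 : Measurable fun y => ENNReal.ofReal (C3 * (m * ph q v)) * J (v - y) :=
    (hJm.comp (measurable_const.sub measurable_id)).const_mul _
  have hX4 : Measurable fun y => ENNReal.ofReal (F v) * (W y * l y) :=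
    (hWm.mul hlm).const_mul _
  -- the integrals
  set A1 : ℝ≥0∞ := ∫⁻ y, (if 10 ≤ ‖v‖ ∧ ‖v - y‖ < δ * ‖v‖ then W y else 0) with hA1
  set I0 : ℝ≥0∞ := ∫⁻ y, J y with hI0
  have hI0' : ∫⁻ y, J (v - y) = I0 := lintegral_sub_left_eq_self J v
  have hJint : Integrable (fun w : E d => F w * fw γ s v w) :=
    fw_int hRZ hd hγd hγ hs0 hs1 (by linarith) hF hF0 hFm v
  have hJ0 : ∀ w : E d, 0 ≤ F w * fw γ s v w := fun w => mul_nonneg (hF0 w) (fw_nonneg γ s v w)
  have hfull : ∫⁻ w : E d, ENNReal.ofReal (F w * fw γ s v w) ≠ ∞ :=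
    (hasFiniteIntegral_iff_ofReal (Eventually.of_forall hJ0)).1 hJint.2 |>.ne
  have hI0le : I0 ≤ ∫⁻ w : E d, ENNReal.ofReal (F w * fw γ s v w) := by
    refine lintegral_mono fun w => ?_
    simp only [hJ]
    split_ifs
    · exact le_rfl
    · exact bot_le
  have hI0ne : I0 ≠ ∞ := ne_top_of_le_ne_top hfull hI0le
  have hite : ∀ (r : ℝ) (y : E d), (if 10 ≤ ‖v‖ ∧ ‖v - y‖ < δ * ‖v‖ then
      ENNReal.ofReal r * W y else 0) = ENNReal.ofReal r *
      (if 10 ≤ ‖v‖ ∧ ‖v - y‖ < δ * ‖v‖ then W y else 0) := by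
    intro r y
    split_ifs <;> simp
  have hX23 : Measurable fun y => (if 10 ≤ ‖v‖ ∧ ‖v - y‖ < δ * ‖v‖ then
      ENNReal.ofReal (Cc * (m * ph q v)) * W y else 0) +
      ENNReal.ofReal (C3 * (m * ph q v)) * J (v - y) := hX2.add hX3
  have hint := lintegral_mono_ae hpt'
  rw [lintegral_add_right _ hX4, lintegral_add_left hX23, lintegral_add_left hX2] at hint
  have hPP : PP γ b ε F v = ∫⁻ y, W y * a y := PP_eq3 hGAIN hd hK.meas ε hFmeas hF0 v
  have hNN : NN γ b ε F v = ∫⁻ y, ENNReal.ofReal (F v) * (W y * l y) := NN_eq γ ε hF0 v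
  have hG : ∫⁻ y, W y * g y ≤ ENNReal.ofReal (CG * 2 ^ (-γ) * (m * ph q v)) * A1 +
      ENNReal.ofReal (CG * 2 ^ (-γ) * (m * ph q v)) * I0 := by
    rcases lt_or_ge ‖v‖ 10 with h10 | h10
    · have : ∀ y, W y * g y = 0 := by
        intro y
        have : g y = 0 := by
          rw [hg]
          simp only
          refine lintegral_eq_zero_of_ae_eq_zero (Eventually.of_forall fun σ => ?_)
          have hno : ¬ (10 ≤ ‖v‖ ∧ ‖vq v y (σ : E d)‖ < ‖v‖ / 20) :=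
            fun h => absurd h.1 (not_le.2 h10)
          simp [hno]
        rw [this, mul_zero]
      simp only [this, lintegral_zero]
      exact bot_le
    · have h1 := hgb q hqG' ε hε hε1 F m hFmeas hF0 hm hFm v h10
      have h2 : ∫⁻ y, W y * g y = ∫⁻ y : E d, ENNReal.ofReal (F (v - y) * ‖y‖ ^ γ) *
          (∫⁻ σ : Sd d, Bt d γ b ε (ip y σ / ‖y‖) *
          (if ‖vq v y σ‖ < ‖v‖ / 20 then ENNReal.ofReal (F (vq v y σ)) else 0) ∂(mS d)) := by
        refine lintegral_congr fun y => ?_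
        simp only [hW, WW, hg, h10, true_and]
      rw [h2]
      refine h1.trans ?_
      have h3 : ENNReal.ofReal (CG * m * ph q v * ‖v‖ ^ γ) * (∫⁻ u : E d,
          (if ‖u‖ < ‖v‖ / 20 then ENNReal.ofReal (F u) else 0)) =
          ENNReal.ofReal (CG * (m * ph q v)) * ∫⁻ u : E d, ENNReal.ofReal (‖v‖ ^ γ) *
          (if ‖u‖ < ‖v‖ / 20 then ENNReal.ofReal (F u) else 0) := by
        rw [lintegral_const_mul' _ _ ENNReal.ofReal_ne_top, ← mul_assoc,
          ← ENNReal.ofReal_mul (mul_nonneg hCG.le hmp.le)]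
        congr 2
        ring
      rw [h3]
      have h4 : ∫⁻ u : E d, ENNReal.ofReal (‖v‖ ^ γ) *
          (if ‖u‖ < ‖v‖ / 20 then ENNReal.ofReal (F u) else 0) ≤
          ENNReal.ofReal (2 ^ (-γ)) * A1 + ENNReal.ofReal (2 ^ (-γ)) * I0 := by
        refine (lintegral_mono fun u => slow_bound3 (s := s) (δ := δ) hγ hs0 hF0 v u).trans ?_
        have hm2 : Measurable fun u : E d => ENNReal.ofReal (2 ^ (-γ)) *
            (if δ * ‖v‖ ≤ ‖u‖ then ENNReal.ofReal (F u * fw γ s v u) else 0) :=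
          (Measurable.ite (measurableSet_le measurable_const measurable_norm)
            (ENNReal.measurable_ofReal.comp hfwm) measurable_const).const_mul _
        rw [lintegral_add_right _ hm2, lintegral_const_mul' _ _ ENNReal.ofReal_ne_top,
          lintegral_const_mul' _ _ ENNReal.ofReal_ne_top]
        refine add_le_add (mul_le_mul_right (le_of_eq ?_) _) (mul_le_mul_right (le_of_eq ?_) _)
        · rw [hA1, ← lintegral_sub_left_eq_self (fun u : E d => if ‖u‖ < δ * ‖v‖ then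
            ENNReal.ofReal (F u * ‖v - u‖ ^ γ) else 0) v]
          refine lintegral_congr fun y => ?_
          simp only [hW, WW, h10, true_and, sub_sub_cancel]
        · rw [hI0]
          refine lintegral_congr fun u => ?_
          simp only [hJ, not_lt.2 h10, false_or]
      refine (mul_le_mul_right h4 _).trans (le_of_eq ?_)
      have e1 : ENNReal.ofReal (CG * 2 ^ (-γ) * (m * ph q v)) =
          ENNReal.ofReal (CG * (m * ph q v)) * ENNReal.ofReal (2 ^ (-γ)) := by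
        rw [← ENNReal.ofReal_mul (mul_nonneg hCG.le hmp.le)]; congr 1; ring
      rw [e1]
      ring
  have hA1ne : A1 ≠ ∞ := by
    have h1 : A1 ≤ ∫⁻ w : E d, ENNReal.ofReal (F w * fw γ s v w) := by
      rw [hA1, ← lintegral_sub_left_eq_self (fun w : E d => ENNReal.ofReal (F w * fw γ s v w)) v]
      refine lintegral_mono fun y => ?_
      split_ifs with h
      · simp only [hW, WW]
        refine ENNReal.ofReal_le_ofReal (mul_le_mul_of_nonneg_left ?_ (hF0 _))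
        unfold fw
        rw [sub_sub_cancel]
        refine le_mul_of_one_le_right (Real.rpow_nonneg (norm_nonneg _) _) ?_
        refine Real.one_le_rpow ?_ (by linarith)
        have : 0 ≤ ‖v - y‖ / √(1 + ‖v‖ ^ 2) := by positivity
        linarith
      · exact bot_le
    exact ne_top_of_le_ne_top hfull h1
  have hfin : PP γ b ε F v ≤ NN γ b ε F v +
      ENNReal.ofReal ((C3 + CG * 2 ^ (-γ)) * (m * ph q v)) * I0 := by
    have h1 : PP γ b ε F v + ENNReal.ofReal ((Cc + CG * 2 ^ (-γ)) * (m * ph q v)) * A1 ≤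
        (NN γ b ε F v + ENNReal.ofReal ((C3 + CG * 2 ^ (-γ)) * (m * ph q v)) * I0) +
        ENNReal.ofReal ((Cc + CG * 2 ^ (-γ)) * (m * ph q v)) * A1 := by
      have e1 : ENNReal.ofReal ((Cc + CG * 2 ^ (-γ)) * (m * ph q v)) * A1 =
          ∫⁻ y, (if 10 ≤ ‖v‖ ∧ ‖v - y‖ < δ * ‖v‖ then
            ENNReal.ofReal ((Cc + CG * 2 ^ (-γ)) * (m * ph q v)) * W y else 0) := by
        rw [hA1, ← lintegral_const_mul' _ _ ENNReal.ofReal_ne_top]
        exact lintegral_congr fun y => (hite _ y).symm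
      have e2 : ∫⁻ y, (if 10 ≤ ‖v‖ ∧ ‖v - y‖ < δ * ‖v‖ then
            ENNReal.ofReal (Cc * (m * ph q v)) * W y else 0) =
            ENNReal.ofReal (Cc * (m * ph q v)) * A1 := by
        rw [hA1, ← lintegral_const_mul' _ _ ENNReal.ofReal_ne_top]
        exact lintegral_congr fun y => hite _ y
      have hA := (le_lintegral_add _ _).trans hint
      rw [← hPP, ← e1, e2, ← hNN, lintegral_const_mul' _ _ ENNReal.ofReal_ne_top, hI0'] at hA
      refine hA.trans ?_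
      have hP := hmp.le
      have f1 : ENNReal.ofReal ((Cc + CG * 2 ^ (-γ)) * (m * ph q v)) =
          ENNReal.ofReal (Cc * (m * ph q v)) + ENNReal.ofReal (CG * 2 ^ (-γ) * (m * ph q v)) := by
        rw [add_mul, ENNReal.ofReal_add (mul_nonneg hCc.le hP)
          (mul_nonneg (by positivity) hP)]
      have f2 : ENNReal.ofReal ((C3 + CG * 2 ^ (-γ)) * (m * ph q v)) =
          ENNReal.ofReal (C3 * (m * ph q v)) +
            ENNReal.ofReal (CG * 2 ^ (-γ) * (m * ph q v)) := by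
        rw [add_mul, ENNReal.ofReal_add (mul_nonneg hC3p.le hP)
          (mul_nonneg (by positivity) hP)]
      rw [f1, f2]
      calc _ ≤ ENNReal.ofReal (Cc * (m * ph q v)) * A1 + ENNReal.ofReal (C3 * (m * ph q v)) * I0 +
            (ENNReal.ofReal (CG * 2 ^ (-γ) * (m * ph q v)) * A1 +
            ENNReal.ofReal (CG * 2 ^ (-γ) * (m * ph q v)) * I0) + NN γ b ε F v :=
            add_le_add (add_le_add le_rfl hG) le_rfl
        _ = _ := by ring
    exact (ENNReal.add_le_add_iff_right (ENNReal.mul_ne_top ENNReal.ofReal_ne_top hA1ne)).1 h1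
  obtain ⟨hPne, hNne, hQ⟩ := hQPN hISO d hd s hs0 hs1 γ hγd b c₁ c₂ hK ε hε hε1 F m q hF hF0
    (by linarith) hFm v
  rw [hQ]
  have hI0r : I0.toReal = ∫ w in {w : E d | ‖v‖ < 10 ∨ δ * ‖v‖ ≤ ‖w‖},
      F w * (‖v - w‖ ^ γ * (1 + ‖w‖ / √(1 + ‖v‖ ^ 2)) ^ (2 * s)) := by
    change I0.toReal = ∫ w in {w : E d | ‖v‖ < 10 ∨ δ * ‖v‖ ≤ ‖w‖}, F w * fw γ s v w
    rw [integral_eq_lintegral_of_nonneg_ae (Eventually.of_forall hJ0) hJint.1.restrict, hI0,
      ← lintegral_indicator hfarm]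
    congr 1
    refine lintegral_congr fun w => ?_
    simp only [hJ, Set.indicator_apply, mem_setOf_eq]
  rw [← hI0r]
  have h2 := ENNReal.toReal_mono (ENNReal.add_ne_top.2 ⟨hNne,
    ENNReal.mul_ne_top ENNReal.ofReal_ne_top hI0ne⟩) hfin
  rw [ENNReal.toReal_add hNne (ENNReal.mul_ne_top ENNReal.ofReal_ne_top hI0ne),
    ENNReal.toReal_mul, ENNReal.toReal_ofReal (mul_nonneg (by positivity) hmp.le)] at h2
  linarith

end Pool.Agent.L7h99.BI
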