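import Pool.Agent.L7h99.BI.Est

set_option autoImplicit false

/-!
# Project BI: the theorem
-/

open MeasureTheory Set Filter Topology Real
open scoped ENNReal

namespace Pool.Agent.L7h99.BI

/-- Classical solutions on the torus with rapid decay in the velocity, locally uniformly in time. -/
structure Sol (d : ℕ) (γ : ℝ) (b : ℝ → ℝ) (T : ℝ) (f : ℝ → E d → E d → ℝ) : Prop where
  nonneg : ∀ t ∈ Ico 0 T, ∀ x v, 0 ≤ f t x v
  periodic : ∀ t ∈ Ico 0 T, ∀ x v, ∀ i : Fin d, f t (x + EuclideanSpace.single i 1) v = f t x v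
  cont : ContinuousOn (fun p : ℝ × E d × E d => f p.1 p.2.1 p.2.2) (Ico 0 T ×ˢ univ)
  decay : ∀ T' : ℝ, 0 ≤ T' → T' < T → ∀ q : ℝ, ∃ C : ℝ, ∀ t ∈ Icc 0 T', ∀ x v,
    f t x v ≤ C * ph q v
  eqn : ∀ t ∈ Ioo 0 T, ∀ x v, ∃ L : ℝ × E d →L[ℝ] ℝ,
    HasFDerivAt (fun p : ℝ × E d => f p.1 p.2 v) L (t, x) ∧
    Tendsto (fun ε => Qtr γ b ε (f t x) v) (𝓝[>] 0) (𝓝 (L (1, v)))

variable {d : ℕ} {γ : ℝ} {b : ℝ → ℝ} {T : ℝ} {f : ℝ → E d → E d → ℝ}

theorem Sol.cv (hf : Sol d γ b T f) {t : ℝ} (ht : t ∈ Ico 0 T) (x : E d) :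
    Continuous (f t x) := by
  have h : ContinuousOn (fun w : E d => ((t, x, w) : ℝ × E d × E d)) univ := by
    exact (continuous_const.prodMk (continuous_const.prodMk continuous_id)).continuousOn
  have h2 := hf.cont.comp h (fun w _ => ⟨ht, mem_univ _⟩)
  exact continuousOn_univ.1 h2

/-- The moment of order `κ`, supremum over the torus. -/
noncomputable def MM (κ : ℝ) (f : ℝ → E d → E d → ℝ) (t : ℝ) : ℝ :=
  ⨆ x, ∫ w : E d, f t x w * (1 + ‖w‖ ^ 2) ^ (κ / 2)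

theorem MM_nonneg (hf : Sol d γ b T f) (κ : ℝ) {t : ℝ} (ht : t ∈ Ico 0 T) : 0 ≤ MM κ f t := by
  refine Real.iSup_nonneg fun x => integral_nonneg fun w => mul_nonneg (hf.nonneg t ht x w) ?_
  positivity

theorem MC_app (hMC : S_MC) (hT : 0 < T) (hf : Sol d γ b T f) (κ : ℝ) :
    ContinuousOn (MM κ f) (Ico 0 T) ∧
    ∀ t ∈ Ico 0 T, BddAbove (range fun x => ∫ w : E d, f t x w * (1 + ‖w‖ ^ 2) ^ (κ / 2)) ∧
      ∀ x, Integrable (fun w : E d => f t x w * (1 + ‖w‖ ^ 2) ^ (κ / 2)) := by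
  refine hMC d T κ f hT hf.nonneg hf.periodic hf.cont fun T' h0 hT' => ?_
  obtain ⟨C, hC⟩ := hf.decay T' h0 hT' (d + κ + 1)
  exact ⟨C, d + κ + 1, by linarith, hC⟩

/-- The criterion. -/
theorem criterion (hEST : S_EST) (hMAX : S_MAX) (hMC : S_MC) (hd : 2 ≤ d) {s : ℝ} (hs0 : 0 < s)
    (hs1 : s < 1) (hγ : 0 ≤ γ) {c₁ c₂ : ℝ} (hK : Ker d s b c₁ c₂) (hT : 0 < T)
    (hf : Sol d γ b T f) (hint : IntegrableOn (MM (γ + 2 * s) f) (Ioo 0 T)) (q : ℝ) :
    ∃ C : ℝ, 0 < C ∧ ∀ t ∈ Ico 0 T, ∀ x v, f t x v ≤ C * ph q v := by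
  obtain ⟨q₀, hq₀, hest⟩ := hEST d hd s hs0 hs1 γ hγ b c₁ c₂ hK
  set κ := γ + 2 * s with hκ
  set p := max q₀ q with hp
  have hpq0 : q₀ ≤ p := le_max_left _ _
  have hpq : q ≤ p := le_max_right _ _
  have hp0 : 0 < p := by
    have : (0:ℝ) ≤ d := Nat.cast_nonneg d
    linarith
  obtain ⟨C₀, ε₀, hC₀, hε₀, hest'⟩ := hest p hpq0
  obtain ⟨A₀, hA₀⟩ := hf.decay 0 le_rfl hT p
  obtain ⟨hMcont, hMint⟩ := MC_app hMC hT hf κ
  have hMnn : ∀ t ∈ Ico 0 T, 0 ≤ MM κ f t := fun t ht => MM_nonneg hf κ ht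
  have hA : 0 < max A₀ 0 + 1 := by positivity
  have hmain := hMAX d T f p (max A₀ 0 + 1) (C₀ + 1) (MM κ f) hT hp0 hA (by positivity)
    hf.periodic hf.cont (fun T' h0 hT' => hf.decay T' h0 hT' (p + 1))
    (fun x v => by
      refine lt_of_le_of_lt (hA₀ 0 ⟨le_rfl, le_rfl⟩ x v) ?_
      refine mul_lt_mul_of_pos_right ?_ (ph_pos p v)
      exact lt_of_le_of_lt (le_max_left _ _) (lt_add_one _))
    hMcont hMnn
    (fun t ht x v m hm hle heq => by
      have ht' : t ∈ Ico 0 T := ⟨ht.1.le, ht.2⟩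
      obtain ⟨L, hL, hlim⟩ := hf.eqn t ht x v
      refine ⟨L, hL, ?_⟩
      have hcv := hf.cv ht' x
      have hI := (hMint t ht').2 x
      have hIle : ∫ w : E d, f t x w * (1 + ‖w‖ ^ 2) ^ (κ / 2) ≤ MM κ f t :=
        le_ciSup (hMint t ht').1 x
      have hmp : 0 < m * ph p v := mul_pos hm (ph_pos p v)
      have hnn : ∀ w : E d, 0 ≤ f t x w * (1 + ‖w‖ ^ 2) ^ (κ / 2) := fun w =>
        mul_nonneg (hf.nonneg t ht' x w) (by positivity)
      have hpos : 0 < ∫ w : E d, f t x w * (1 + ‖w‖ ^ 2) ^ (κ / 2) := by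
        rw [integral_pos_iff_support_of_nonneg hnn hI]
        have hcont : Continuous fun w : E d => f t x w * (1 + ‖w‖ ^ 2) ^ (κ / 2) := by
          refine hcv.mul ((continuous_const.add (continuous_norm.pow 2)).rpow_const
            (fun x => Or.inl ?_))
          have : (0:ℝ) < 1 + ‖x‖ ^ 2 := by positivity
          exact this.ne'
        refine (hcont.isOpen_support).measure_pos volume ⟨v, ?_⟩
        rw [Function.mem_support, heq]
        have : (0:ℝ) < (1 + ‖v‖ ^ 2) ^ (κ / 2) := by positivity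
        exact (mul_pos hmp this).ne'
      have hLle : L (1, v) ≤ C₀ * (m * ph p v) *
          ∫ w : E d, f t x w * (1 + ‖w‖ ^ 2) ^ (κ / 2) := by
        refine le_of_tendsto hlim ?_
        filter_upwards [Ioo_mem_nhdsGT hε₀] with ε hε
        exact hest' ε hε.1 hε.2 (f t x) m hcv (hf.nonneg t ht' x) hm (fun w => hle x w) v heq
      have hMpos : 0 < MM κ f t := lt_of_lt_of_le hpos hIle
      calc L (1, v) ≤ C₀ * (m * ph p v) * MM κ f t :=
            hLle.trans (mul_le_mul_of_nonneg_left hIle (by positivity))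
        _ < C₀ * (m * ph p v) * MM κ f t + MM κ f t * (m * ph p v) :=
            lt_add_of_pos_right _ (mul_pos hMpos hmp)
        _ = (C₀ + 1) * MM κ f t * (m * ph p v) := by ring)
  refine ⟨(max A₀ 0 + 1) * Real.exp ((C₀ + 1) * ∫ r in Ioo 0 T, MM κ f r), by positivity, ?_⟩
  intro t ht x v
  have h1 := (hmain t ht x v).le
  have h2 : ∫ r in (0:ℝ)..t, MM κ f r ≤ ∫ r in Ioo 0 T, MM κ f r := by
    rw [intervalIntegral.integral_of_le ht.1]
    refine setIntegral_mono_set hint ?_ ?_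
    · refine (ae_restrict_iff' measurableSet_Ioo).2 (Eventually.of_forall fun r hr => ?_)
      exact hMnn r ⟨hr.1.le, hr.2⟩
    · refine HasSubset.Subset.eventuallyLE ?_
      intro r hr
      exact ⟨hr.1, lt_of_le_of_lt hr.2 ht.2⟩
  refine h1.trans ?_
  have h3 : ph p v ≤ ph q v := by
    unfold ph
    refine Real.rpow_le_rpow_of_exponent_le ?_ (by linarith)
    nlinarith [sq_nonneg ‖v‖]
  refine mul_le_mul ?_ h3 (ph_pos p v).le (by positivity)
  refine mul_le_mul_of_nonneg_left (Real.exp_le_exp.2 ?_) (by positivity)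
  exact mul_le_mul_of_nonneg_left h2 (by positivity)

/-- Bounded densities. -/
theorem dens_bdd (hf : Sol d γ b T f) (h : ∀ q : ℝ, ∃ C : ℝ, 0 < C ∧ ∀ t ∈ Ico 0 T, ∀ x v,
    f t x v ≤ C * ph q v) : ∃ C : ℝ, 0 < C ∧ ∀ t ∈ Ico 0 T, ∀ x,
    (∫ v, f t x v) ≤ C ∧ (∫ v, f t x v * ‖v‖ ^ 2) ≤ C := by
  obtain ⟨C, hC, hC'⟩ := h (d + 3)
  have h1 : Integrable (fun w : E d => (1 + ‖w‖ ^ 2) ^ (-((d:ℝ) + 1) / 2)) := by
    refine integrable_rpow_neg_one_add_norm_sq ?_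
    simp only [finrank_euclideanSpace, Fintype.card_fin]
    linarith
  have hb : ∀ w : E d, ph ((d:ℝ) + 3) w * (1 + ‖w‖ ^ 2) = (1 + ‖w‖ ^ 2) ^ (-((d:ℝ) + 1) / 2) := by
    intro w
    unfold ph
    have hpos : (0:ℝ) < 1 + ‖w‖ ^ 2 := by positivity
    conv_lhs => rw [← Real.rpow_one (1 + ‖w‖ ^ 2)]
    rw [← Real.rpow_mul hpos.le, ← Real.rpow_add hpos]
    congr 1
    ring
  set K := C * ∫ w : E d, (1 + ‖w‖ ^ 2) ^ (-((d:ℝ) + 1) / 2) with hK
  have hK0 : 0 ≤ K := mul_nonneg hC.le (integral_nonneg fun w => by positivity)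
  refine ⟨K + 1, by positivity, fun t ht x => ?_⟩
  have hnn := hf.nonneg t ht x
  have key : ∀ w : E d, f t x w * (1 + ‖w‖ ^ 2) ≤ C * (1 + ‖w‖ ^ 2) ^ (-((d:ℝ) + 1) / 2) := by
    intro w
    rw [← hb w, ← mul_assoc]
    exact mul_le_mul_of_nonneg_right (hC' t ht x w) (by positivity)
  constructor
  · refine le_trans ?_ (le_add_of_nonneg_right zero_le_one)
    rw [hK, ← integral_const_mul]
    refine integral_mono_of_nonneg (Eventually.of_forall hnn) (h1.const_mul _)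
      (Eventually.of_forall fun w => ?_)
    refine le_trans ?_ (key w)
    refine le_mul_of_one_le_right (hnn w) ?_
    nlinarith [sq_nonneg ‖w‖]
  · refine le_trans ?_ (le_add_of_nonneg_right zero_le_one)
    rw [hK, ← integral_const_mul]
    refine integral_mono_of_nonneg (Eventually.of_forall fun w => mul_nonneg (hnn w)
      (by positivity)) (h1.const_mul _) (Eventually.of_forall fun w => ?_)
    refine le_trans ?_ (key w)
    refine mul_le_mul_of_nonneg_left ?_ (hnn w)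
    linarith

/-- Domination of the moment of order `κ ≤ 2` by the mass and the energy. -/
theorem MM_le (hMC : S_MC) (hT : 0 < T) (hf : Sol d γ b T f) {κ : ℝ} (hκ : κ ≤ 2)
    {t : ℝ} (ht : t ∈ Ico 0 T) (x : E d) (μ : ℝ) (hμ : 0 < μ) (hκ0 : 0 ≤ κ) :
    ∫ w : E d, f t x w * (1 + ‖w‖ ^ 2) ^ (κ / 2) ≤
      μ ^ κ * ((1 - κ / 2) * (∫ v, f t x v) +
        κ / 2 * (((∫ v, f t x v) + ∫ v, f t x v * ‖v‖ ^ 2) / μ ^ 2)) := by
  have hnn := hf.nonneg t ht x
  have hI0 : Integrable (fun w : E d => f t x w) := by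
    have := ((MC_app hMC hT hf 0).2 t ht).2 x
    simpa using this
  have hI2 : Integrable (fun w : E d => f t x w * (1 + ‖w‖ ^ 2)) := by
    have := ((MC_app hMC hT hf 2).2 t ht).2 x
    simpa using this
  have hIn : Integrable (fun w : E d => f t x w * ‖w‖ ^ 2) := by
    have h3 := hI2.sub hI0
    refine h3.congr (Eventually.of_forall fun w => ?_)
    simp only [Pi.sub_apply]
    ring
  have hpt : ∀ w : E d, f t x w * (1 + ‖w‖ ^ 2) ^ (κ / 2) ≤
      μ ^ κ * ((1 - κ / 2) * f t x w + κ / 2 * ((f t x w + f t x w * ‖w‖ ^ 2) / μ ^ 2)) := by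
    intro w
    have hpos : (0:ℝ) < (1 + ‖w‖ ^ 2) / μ ^ 2 := by positivity
    have h1 : ((1 + ‖w‖ ^ 2) / μ ^ 2) ^ (κ / 2) ≤ (1 - κ / 2) + κ / 2 * ((1 + ‖w‖ ^ 2) / μ ^ 2) := by
      have := Real.geom_mean_le_arith_mean2_weighted (w₁ := 1 - κ / 2) (w₂ := κ / 2)
        (p₁ := 1) (p₂ := (1 + ‖w‖ ^ 2) / μ ^ 2) (by linarith) (by linarith) zero_le_one hpos.le
        (by ring)
      simpa using this
    have h2 : (1 + ‖w‖ ^ 2) ^ (κ / 2) = μ ^ κ * ((1 + ‖w‖ ^ 2) / μ ^ 2) ^ (κ / 2) := by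
      rw [Real.div_rpow (by positivity) (by positivity), ← Real.rpow_natCast μ 2,
        ← Real.rpow_mul hμ.le]
      have : ((2:ℕ):ℝ) * (κ / 2) = κ := by push_cast; ring
      rw [this]
      field_simp
    rw [h2]
    calc f t x w * (μ ^ κ * ((1 + ‖w‖ ^ 2) / μ ^ 2) ^ (κ / 2))
        = μ ^ κ * f t x w * ((1 + ‖w‖ ^ 2) / μ ^ 2) ^ (κ / 2) := by ring
      _ ≤ μ ^ κ * f t x w * ((1 - κ / 2) + κ / 2 * ((1 + ‖w‖ ^ 2) / μ ^ 2)) :=
          mul_le_mul_of_nonneg_left h1 (mul_nonneg (by positivity) (hnn w))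
      _ = _ := by ring
  have hS : Integrable (fun w : E d => κ / 2 * ((f t x w + f t x w * ‖w‖ ^ 2) / μ ^ 2)) :=
    ((hI0.add hIn).div_const _).const_mul _
  have hR : Integrable (fun w : E d => μ ^ κ * ((1 - κ / 2) * f t x w +
      κ / 2 * ((f t x w + f t x w * ‖w‖ ^ 2) / μ ^ 2))) :=
    ((hI0.const_mul _).add hS).const_mul _
  refine (integral_mono (((MC_app hMC hT hf κ).2 t ht).2 x) hR hpt).trans (le_of_eq ?_)
  rw [integral_const_mul, integral_add (hI0.const_mul _) hS, integral_const_mul,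
    integral_const_mul, integral_div, integral_add hI0 hIn]

/-- Integrability of the moment under power rates. -/
theorem rates_int (hMC : S_MC) (hT : 0 < T) (hf : Sol d γ b T f) {κ : ℝ} (hκ0 : 0 ≤ κ)
    (hκ : κ ≤ 2) {a e C : ℝ} (hae : a ≤ e) (hlt : (1 - κ / 2) * a + κ / 2 * e < 1)
    (hC : 0 ≤ C) (hr : ∀ t ∈ Ico 0 T, ∀ x, (∫ v, f t x v) ≤ C * (T - t) ^ (-a) ∧
      (∫ v, f t x v * ‖v‖ ^ 2) ≤ C * (T - t) ^ (-e)) :
    IntegrableOn (MM κ f) (Ioo 0 T) := by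
  set p := (1 - κ / 2) * a + κ / 2 * e with hp
  set C' := C * (T ^ (e - a) + 2) with hC'
  have hbd : ∀ t ∈ Ico 0 T, MM κ f t ≤ C' * (T - t) ^ (-p) := by
    intro t ht
    have hτ : 0 < T - t := by linarith [ht.2]
    refine ciSup_le fun x => ?_
    have hρ0 : 0 ≤ ∫ v, f t x v := integral_nonneg fun v => hf.nonneg t ht x v
    have hE0 : 0 ≤ ∫ v, f t x v * ‖v‖ ^ 2 := integral_nonneg fun v =>
      mul_nonneg (hf.nonneg t ht x v) (by positivity)
    obtain ⟨h1, h2⟩ := hr t ht x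
    have hμ : 0 < (T - t) ^ (-(e - a) / 2) := by positivity
    refine (MM_le hMC hT hf hκ ht x _ hμ hκ0).trans ?_
    have e1 : ((T - t) ^ (-(e - a) / 2)) ^ κ = (T - t) ^ (-(κ / 2 * (e - a))) := by
      rw [← Real.rpow_mul hτ.le]; congr 1; ring
    have e2 : ((T - t) ^ (-(e - a) / 2)) ^ 2 = (T - t) ^ (-(e - a)) := by
      rw [← Real.rpow_natCast, ← Real.rpow_mul hτ.le]; congr 1; push_cast; ring
    rw [e1, e2]
    have e3 : ((∫ v, f t x v) + ∫ v, f t x v * ‖v‖ ^ 2) / (T - t) ^ (-(e - a)) =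
        ((∫ v, f t x v) + ∫ v, f t x v * ‖v‖ ^ 2) * (T - t) ^ (e - a) := by
      rw [Real.rpow_neg hτ.le, div_inv_eq_mul]
    rw [e3]
    have hTT : (T - t) ^ (e - a) ≤ T ^ (e - a) :=
      Real.rpow_le_rpow hτ.le (by linarith [ht.1]) (by linarith)
    have h3 : ((∫ v, f t x v) + ∫ v, f t x v * ‖v‖ ^ 2) * (T - t) ^ (e - a) ≤
        C * (T ^ (e - a) + 1) * (T - t) ^ (-a) := by
      have h4 : (∫ v, f t x v) * (T - t) ^ (e - a) ≤ C * (T - t) ^ (-a) * T ^ (e - a) :=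
        mul_le_mul h1 hTT (by positivity) (by positivity)
      have h5 : (∫ v, f t x v * ‖v‖ ^ 2) * (T - t) ^ (e - a) ≤ C * (T - t) ^ (-a) := by
        refine (mul_le_mul_of_nonneg_right h2 (by positivity)).trans (le_of_eq ?_)
        rw [mul_assoc, ← Real.rpow_add hτ]
        congr 2
        ring
      calc _ = (∫ v, f t x v) * (T - t) ^ (e - a) +
            (∫ v, f t x v * ‖v‖ ^ 2) * (T - t) ^ (e - a) := by ring
        _ ≤ C * (T - t) ^ (-a) * T ^ (e - a) + C * (T - t) ^ (-a) := add_le_add h4 h5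
        _ = _ := by ring
    have h6 : (1 - κ / 2) * (∫ v, f t x v) + κ / 2 *
        (((∫ v, f t x v) + ∫ v, f t x v * ‖v‖ ^ 2) * (T - t) ^ (e - a)) ≤
        C' * (T - t) ^ (-a) := by
      have h7 : (1 - κ / 2) * (∫ v, f t x v) ≤ 1 * (C * (T - t) ^ (-a)) :=
        mul_le_mul (by linarith) h1 hρ0 zero_le_one
      have h8 : κ / 2 * (((∫ v, f t x v) + ∫ v, f t x v * ‖v‖ ^ 2) * (T - t) ^ (e - a)) ≤
          1 * (C * (T ^ (e - a) + 1) * (T - t) ^ (-a)) :=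
        mul_le_mul (by linarith) h3 (mul_nonneg (add_nonneg hρ0 hE0) (by positivity)) zero_le_one
      calc _ ≤ 1 * (C * (T - t) ^ (-a)) + 1 * (C * (T ^ (e - a) + 1) * (T - t) ^ (-a)) :=
            add_le_add h7 h8
        _ = _ := by rw [hC']; ring
    refine (mul_le_mul_of_nonneg_left h6 (by positivity)).trans (le_of_eq ?_)
    rw [mul_left_comm, ← Real.rpow_add hτ]
    congr 2
    rw [hp]
    ring
  have hcont := (MC_app hMC hT hf κ).1
  have hI : IntegrableOn (fun t => C' * (T - t) ^ (-p)) (Ioo 0 T) := by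
    have h1 : IntervalIntegrable (fun t : ℝ => t ^ (-p)) volume 0 T :=
      intervalIntegral.intervalIntegrable_rpow' (by linarith)
    have h2 := (h1.comp_sub_left T).symm
    simp only [sub_zero, sub_self] at h2
    have h3 := (intervalIntegrable_iff_integrableOn_Ioo_of_le hT.le).1 h2
    exact h3.const_mul C'
  refine hI.mono' ?_ ?_
  · exact (hcont.mono (fun t ht => ⟨ht.1.le, ht.2⟩)).aestronglyMeasurable measurableSet_Ioo
  · refine (ae_restrict_iff' measurableSet_Ioo).2 (Eventually.of_forall fun t ht => ?_)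
    rw [Real.norm_of_nonneg (MM_nonneg hf κ ⟨ht.1.le, ht.2⟩)]
    exact hbd t ⟨ht.1.le, ht.2⟩

/-- The moment is dominated by the supremum of mass plus energy. -/
theorem MM_le_sum (hMC : S_MC) (hT : 0 < T) (hf : Sol d γ b T f) {κ : ℝ} (hκ : κ ≤ 2)
    (hi : IntegrableOn (fun t => ⨆ x, ((∫ v, f t x v) + ∫ v, f t x v * ‖v‖ ^ 2)) (Ioo 0 T)) :
    IntegrableOn (MM κ f) (Ioo 0 T) := by
  have hcont := (MC_app hMC hT hf κ).1
  refine hi.mono' ?_ ?_
  · exact (hcont.mono (fun t ht => ⟨ht.1.le, ht.2⟩)).aestronglyMeasurable measurableSet_Ioo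
  · refine (ae_restrict_iff' measurableSet_Ioo).2 (Eventually.of_forall fun t ht => ?_)
    have ht' : t ∈ Ico 0 T := ⟨ht.1.le, ht.2⟩
    rw [Real.norm_of_nonneg (MM_nonneg hf κ ht')]
    have hI0 : ∀ x, Integrable (fun w : E d => f t x w) := by
      intro x
      have := ((MC_app hMC hT hf 0).2 t ht').2 x
      simpa using this
    have hI2 : ∀ x, Integrable (fun w : E d => f t x w * (1 + ‖w‖ ^ 2)) := by
      intro x
      have := ((MC_app hMC hT hf 2).2 t ht').2 x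
      simpa using this
    have e : ∀ x, ∫ w : E d, f t x w * (1 + ‖w‖ ^ 2) =
        (∫ v, f t x v) + ∫ v, f t x v * ‖v‖ ^ 2 := by
      intro x
      have hIn : Integrable (fun w : E d => f t x w * ‖w‖ ^ 2) := by
        refine ((hI2 x).sub (hI0 x)).congr (Eventually.of_forall fun w => ?_)
        simp only [Pi.sub_apply]
        ring
      rw [← integral_add (hI0 x) hIn]
      refine integral_congr_ae (Eventually.of_forall fun w => ?_)
      simp only
      ring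
    have hB := ((MC_app hMC hT hf 2).2 t ht').1
    have hB' : BddAbove (range fun x => ((∫ v, f t x v) + ∫ v, f t x v * ‖v‖ ^ 2)) := by
      refine (congrArg BddAbove (congrArg range (funext fun x => ?_))).mp hB
      rw [← e x]
      simp
    refine ciSup_le fun x => ?_
    refine le_trans ?_ (le_ciSup hB' x)
    rw [← e x]
    refine integral_mono (((MC_app hMC hT hf κ).2 t ht').2 x) (hI2 x) fun w => ?_
    refine mul_le_mul_of_nonneg_left ?_ (hf.nonneg t ht' x w)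
    have h1 : (1:ℝ) ≤ 1 + ‖w‖ ^ 2 := by nlinarith [sq_nonneg ‖w‖]
    calc (1 + ‖w‖ ^ 2) ^ (κ / 2) ≤ (1 + ‖w‖ ^ 2) ^ (1:ℝ) :=
          Real.rpow_le_rpow_of_exponent_le h1 (by linarith)
      _ = 1 + ‖w‖ ^ 2 := Real.rpow_one _

end Pool.Agent.L7h99.BI
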