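import Pool.Agent.L7h99.BI.Stm2

set_option autoImplicit false

/-!
# Project BI2: assembly
-/

open MeasureTheory Set Filter Topology Real

namespace Pool.Agent.L7h99.BI

/-- The choice of the exponent of the scale. -/
theorem exists_l {γ a e : ℝ} (hγ : 0 ≤ γ) (hγ2 : γ < 2) (hae : a ≤ e)
    (hlt : (1 - γ / 2) * a + γ / 2 * e < 1) :
    ∃ l : ℝ, 0 ≤ l ∧ a + γ * l < 1 ∧ e - (2 - γ) * l < 1 := by
  have ha : a < 1 := by nlinarith
  have h2 : 0 < 2 - γ := by linarith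
  set l₀ := max (e - 1) 0 / (2 - γ) with hl₀
  have hl0 : 0 ≤ l₀ := div_nonneg (le_max_right _ _) h2.le
  have hle : e - 1 ≤ (2 - γ) * l₀ := by
    rw [hl₀, mul_div_cancel₀ _ h2.ne']
    exact le_max_left _ _
  have hg : γ * l₀ < 1 - a := by
    rw [hl₀, ← mul_div_assoc, div_lt_iff₀ h2]
    rcases le_total (e - 1) 0 with h | h
    · rw [max_eq_right h, mul_zero]
      exact mul_pos (by linarith) h2
    · rw [max_eq_left h]
      nlinarith
  set η := (1 - a - γ * l₀) / (2 * (γ + 1)) with hη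
  have hη0 : 0 < η := div_pos (by linarith) (by positivity)
  have hη1 : γ * η < 1 - a - γ * l₀ := by
    rw [hη, ← mul_div_assoc, div_lt_iff₀ (by positivity)]
    nlinarith
  refine ⟨l₀ + η, by positivity, by linarith [mul_add γ l₀ η], ?_⟩
  have : 0 < (2 - γ) * η := mul_pos h2 hη0
  linarith [mul_add (2 - γ) l₀ η]

/-- The rates of the Euler implosions. -/
theorem euler_rate {γ : ℝ} {d : ℕ} (hγ : 0 ≤ γ) (hγ2 : γ < 2) (hdd : d = 2 ∨ (d = 3 ∧ γ < √3))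
    {r : ℝ} (hr1 : 1 < r) (hr2 : r < 2 * d / (d + √d)) :
    ((d : ℝ) + γ) * ((r - 1) / r) < 1 := by
  have hr0 : 0 < r := by linarith
  rw [← mul_div_assoc, div_lt_one hr0]
  rcases hdd with h | ⟨h, hγ3⟩
  · subst h
    have hx : √(2:ℝ) ^ 2 = 2 := Real.sq_sqrt (by norm_num)
    have hx0 : 0 ≤ √(2:ℝ) := Real.sqrt_nonneg _
    have hx1 : (1.4:ℝ) < √2 := by
      refine Real.lt_sqrt_of_sq_lt ?_
      norm_num
    push_cast at hr2 ⊢
    have h2 : r < 1.2 := by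
      refine hr2.trans ?_
      rw [div_lt_iff₀ (by positivity)]
      linarith
    nlinarith
  · subst h
    have hx : √(3:ℝ) ^ 2 = 3 := Real.sq_sqrt (by norm_num)
    have hx0 : 0 ≤ √(3:ℝ) := Real.sqrt_nonneg _
    push_cast at hr2 ⊢
    have h2 : r < 3 - √3 := by
      refine hr2.trans_le ?_
      rw [div_le_iff₀ (by positivity)]
      nlinarith
    have h3 : √(3:ℝ) < 2 := by
      rw [Real.sqrt_lt' (by norm_num)]
      norm_num
    have h4 : (r - 1) * (3 + γ) < (2 - √3) * (3 + √3) := by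
      refine mul_lt_mul'' (by linarith) (by linarith) (by linarith) (by linarith)
    nlinarith

/-- Boundedness under the rates. -/
theorem freq_bdd (hST1 : S_ST1) (hST2 : S_ST2) (hEST : S_EST) (hEST2 : S_EST2) (hSC : S_SCALE)
    (hES : S_ESTS) (hMAX : S_MAX2) (hMC : S_MC) {d : ℕ} {γ s c₁ c₂ T : ℝ} {b : ℝ → ℝ}
    {f : ℝ → E d → E d → ℝ} (hd : 2 ≤ d) (hs : 0 < s) (hs1 : s < 1) (hγ : 0 ≤ γ)
    (hκ : γ + 2 * s ≤ 2) (hK : Ker d s b c₁ c₂) (hT : 0 < T) (hS : Sol d γ b T f) {a e C : ℝ}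
    (hae : a ≤ e) (hC : 0 ≤ C) (hlt : (1 - γ / 2) * a + γ / 2 * e < 1)
    (hr : ∀ t ∈ Ico 0 T, ∀ x, (∫ v, f t x v) ≤ C * (T - t) ^ (-a) ∧
      (∫ v, f t x v * ‖v‖ ^ 2) ≤ C * (T - t) ^ (-e)) :
    ∀ q : ℝ, ∃ A : ℝ, 0 < A ∧ ∀ t ∈ Ico 0 T, ∀ x v, f t x v ≤ A * ph q v := by
  obtain ⟨l, hl, h1, h2⟩ := exists_l hγ (by linarith) hae hlt
  have hA := hST1 hEST hSC hES hMAX hMC d s γ b c₁ c₂ T f hd hs hs1 hγ hκ hK hT hS a e l C hl hC
    h1 h2 hr
  exact hST2 hEST2 hMAX hMC d s γ b c₁ c₂ T f hd hs hs1 hγ hκ hK hT hS a l C hl hC h1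
    (fun t ht x => (hr t ht x).1) hA

end Pool.Agent.L7h99.BI
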