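import Pool.Agent.L7h99.BI.Stm3

set_option autoImplicit false

/-!
# Project BI3: assembly
-/

open MeasureTheory Set Filter Topology Real
open scoped ENNReal

namespace Pool.Agent.L7h99.BI

/-- The Euler rates for soft potentials in dimension at most four. -/
theorem euler_rate_soft {γ : ℝ} {d : ℕ} (hd : 2 ≤ d) (hd4 : d ≤ 4) (hγ : γ < 0) {r : ℝ}
    (hr1 : 1 < r) (hr2 : r < 2 * d / (d + √d)) :
    (1 + γ / d) * (d * ((r - 1) / r)) < 1 := by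
  have hd0 : (0:ℝ) < d := by
    have : 0 < d := by omega
    exact_mod_cast this
  have hr0 : 0 < r := by linarith
  have hrr : 0 < (r - 1) / r := div_pos (by linarith) hr0
  have e1 : (1 + γ / d) * (d * ((r - 1) / r)) = (d + γ) * ((r - 1) / r) := by
    field_simp
  rw [e1]
  set x := √(d:ℝ) with hx
  have hx0 : 0 < x := Real.sqrt_pos.2 hd0
  have hxx : x * x = d := Real.mul_self_sqrt hd0.le
  have hx2 : x ≤ 2 := by
    rw [hx, Real.sqrt_le_left (by norm_num)]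
    have : (d:ℝ) ≤ 4 := by exact_mod_cast hd4
    linarith
  have h1 : r * (d + x) < 2 * d := by
    rwa [lt_div_iff₀ (by positivity)] at hr2
  have h2 : r * (x + 1) < 2 * x := by
    have h3 : r * (d + x) = (r * (x + 1)) * x := by rw [← hxx]; ring
    have h4 : (2:ℝ) * d = (2 * x) * x := by rw [← hxx]; ring
    rw [h3, h4] at h1
    exact lt_of_mul_lt_mul_right h1 hx0.le
  have h5 : (d:ℝ) * ((r - 1) / r) < 1 ∨ (d:ℝ) * ((r - 1) / r) ≤ 1 := by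
    right
    rw [← mul_div_assoc, div_le_one hr0, ← hxx]
    -- x² (r-1) ≤ r
    nlinarith [mul_nonneg hx0.le (sub_nonneg.2 hx2), mul_pos hx0 hx0]
  have h6 : (d:ℝ) * ((r - 1) / r) ≤ 1 := h5.elim le_of_lt id
  have h7 : γ * ((r - 1) / r) < 0 := mul_neg_of_neg_of_pos hγ hrr
  calc ((d:ℝ) + γ) * ((r - 1) / r) = d * ((r - 1) / r) + γ * ((r - 1) / r) := by ring
    _ < 1 := by linarith

/-- The collision frequency of a bounded solution. -/
theorem bounded_freq (hRZ : S_RZ) (hMC : S_MC) {d : ℕ} {γ T : ℝ} {b : ℝ → ℝ}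
    {f : ℝ → E d → E d → ℝ} (hd : 2 ≤ d) (hγd : -(d : ℝ) < γ) (hγ : γ ≤ 0) (hT : 0 < T)
    (hS : Sol d γ b T f) {M a C : ℝ} (hM : ∀ t ∈ Ico 0 T, ∀ x v, f t x v ≤ M) (hC : 0 ≤ C)
    (hr : ∀ t ∈ Ico 0 T, ∀ x, (∫ v, f t x v) ≤ C * (T - t) ^ (-a)) :
    ∃ C₁ : ℝ, 0 < C₁ ∧ C ≤ C₁ ∧ ∀ t ∈ Ico 0 T, ∀ x v,
      (∫ w, f t x w * ‖v - w‖ ^ γ) ≤ C₁ * (T - t) ^ (-((1 + γ / d) * a)) := by
  obtain ⟨K, hK, hRZ2⟩ := (hRZ d γ hd hγd hγ).2
  have hd0 : (0:ℝ) < d := by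
    have : 0 < d := by omega
    exact_mod_cast this
  have hp : 0 < 1 + γ / d := by
    have : -1 < γ / d := by rw [lt_div_iff₀ hd0]; linarith
    linarith
  set M' := max M 1 with hM'
  have hM'0 : 0 < M' := lt_of_lt_of_le one_pos (le_max_right _ _)
  refine ⟨max C 1 + K * M' ^ (-γ / d) * C ^ (1 + γ / d), by positivity, ?_, fun t ht x v => ?_⟩
  · have h1 : 0 ≤ K * M' ^ (-γ / d) * C ^ (1 + γ / d) := by positivity
    linarith [le_max_left C 1]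
  · have hτ : 0 < T - t := by linarith [ht.2]
    have hI : Integrable (fun w : E d => f t x w) := by
      have := ((MC_app hMC hT hS 0).2 t ht).2 x
      simpa using this
    have h1 := (hRZ2 (f t x) M' hM'0 (hS.nonneg t ht x)
      (fun w => (hM t ht x w).trans (le_max_left _ _)) hI v).2
    have h0 : 0 ≤ ∫ w, f t x w := integral_nonneg (hS.nonneg t ht x)
    have h2 : (∫ w, f t x w) ^ (1 + γ / d) ≤ C ^ (1 + γ / d) * (T - t) ^ (-((1 + γ / d) * a)) := by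
      calc (∫ w, f t x w) ^ (1 + γ / d) ≤ (C * (T - t) ^ (-a)) ^ (1 + γ / d) :=
            Real.rpow_le_rpow h0 (hr t ht x) hp.le
        _ = _ := by
            rw [Real.mul_rpow hC (by positivity), ← Real.rpow_mul hτ.le]
            congr 2
            ring
    have h3 : 0 ≤ (T - t) ^ (-((1 + γ / d) * a)) := by positivity
    calc (∫ w, f t x w * ‖v - w‖ ^ γ) ≤ K * M' ^ (-γ / d) * (∫ w, f t x w) ^ (1 + γ / d) := h1
      _ ≤ K * M' ^ (-γ / d) * (C ^ (1 + γ / d) * (T - t) ^ (-((1 + γ / d) * a))) :=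
          mul_le_mul_of_nonneg_left h2 (by positivity)
      _ ≤ _ := by
          have : 0 ≤ max C 1 := le_trans zero_le_one (le_max_right _ _)
          nlinarith [mul_nonneg this h3]

/-- Soft potentials: propagation of decay. -/
theorem soft_bdd (hST1 : S_ST13) (hST2 : S_ST23) (hEST : S_EST3) (hSC : S_SCALE)
    (hES : S_ESTS3) (hMAX : S_MAX2) (hMC : S_MC) (hRZ : S_RZ) (hMC3 : S_MC3) {d : ℕ}
    {γ s c₁ c₂ T : ℝ} {b : ℝ → ℝ} {f : ℝ → E d → E d → ℝ} (hd : 2 ≤ d) (hs : 0 < s) (hs1 : s < 1)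
    (hγd : -(d : ℝ) < γ) (hγ : γ ≤ 0) (hK : Ker d s b c₁ c₂) (hT : 0 < T) (hS : Sol d γ b T f)
    {a e C : ℝ} (hC : 0 ≤ C) (ha : a < 1)
    (hν : ∀ t ∈ Ico 0 T, ∀ x v, (∫ w, f t x w * ‖v - w‖ ^ γ) ≤ C * (T - t) ^ (-a))
    (hE : ∀ t ∈ Ico 0 T, ∀ x, (∫ v, f t x v * ‖v‖ ^ 2) ≤ C * (T - t) ^ (-e)) :
    ∀ q : ℝ, ∃ A : ℝ, 0 < A ∧ ∀ t ∈ Ico 0 T, ∀ x v, f t x v ≤ A * ph q v := by
  set l := |e| with hl
  have hl0 : 0 ≤ l := abs_nonneg e
  have h2 : e - (2 - γ) * l < 1 := by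
    have h3 : e ≤ l := le_abs_self e
    nlinarith [mul_nonneg hl0 (neg_nonneg.2 hγ)]
  have hA := hST1 hEST hSC hES hMAX hMC hRZ hMC3 d s γ b c₁ c₂ T f hd hs hs1 hγd hγ hK hT hS a e l C
    hl0 hC ha h2 hν hE
  exact hST2 hEST hMAX hMC hRZ hMC3 d s γ b c₁ c₂ T f hd hs hs1 hγd hγ hK hT hS a l C hl0 hC ha hν hA

end Pool.Agent.L7h99.BI
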