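import Pool.Agent.L7h99.BI.Stm2

set_option autoImplicit false

/-!
# Project BI2: scaling
-/

open MeasureTheory Set Filter Topology Real
open scoped ENNReal

namespace Pool.Agent.L7h99.BI

theorem t_SCALE : S_SCALE := by
  intro d γ b ε F l hl u
  unfold Qtr
  have hvp : ∀ z σ : E d, vp (l • u) (l • z) σ = l • vp u z σ := by
    intro z σ
    unfold vp
    have : ‖l • u - l • z‖ = l * ‖u - z‖ := by
      rw [← smul_sub, norm_smul, Real.norm_of_nonneg hl.le]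
    rw [this]
    module
  have hvps : ∀ z σ : E d, vps (l • u) (l • z) σ = l • vps u z σ := by
    intro z σ
    unfold vps
    have : ‖l • u - l • z‖ = l * ‖u - z‖ := by
      rw [← smul_sub, norm_smul, Real.norm_of_nonneg hl.le]
    rw [this]
    module
  have hc : ∀ z σ : E d, ip (l • u - l • z) σ / ‖l • u - l • z‖ = ip (u - z) σ / ‖u - z‖ := by
    intro z σ
    unfold ip
    rw [← smul_sub, norm_smul, Real.norm_of_nonneg hl.le, real_inner_smul_left,
      mul_div_mul_left _ _ hl.ne']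
  set Φ : E d → ℝ := fun w => ∫ σ : Sd d, (if ip (l • u - w) σ / ‖l • u - w‖ < 1 - ε then
    (F (vps (l • u) w σ) * F (vp (l • u) w σ) - F w * F (l • u)) *
      (‖l • u - w‖ ^ γ * b (ip (l • u - w) σ / ‖l • u - w‖)) else 0) ∂(mS d) with hΦ
  have h1 : ∫ w, Φ w = l ^ (d:ℝ) * ∫ z, Φ (l • z) := by
    rw [Measure.integral_comp_smul_of_nonneg volume Φ l (hR := hl.le)]
    simp only [finrank_euclideanSpace, Fintype.card_fin, smul_eq_mul]
    rw [← mul_assoc, Real.rpow_natCast, mul_inv_cancel₀ (pow_pos hl d).ne', one_mul]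
  change ∫ w, Φ w = _
  rw [h1, Real.rpow_add hl, mul_assoc]
  congr 1
  rw [← integral_const_mul]
  refine integral_congr_ae (Eventually.of_forall fun z => ?_)
  simp only [hΦ]
  rw [← integral_const_mul]
  refine integral_congr_ae (Eventually.of_forall fun σ => ?_)
  simp only [hc, hvp, hvps]
  have hn : ‖l • u - l • z‖ ^ γ = l ^ γ * ‖u - z‖ ^ γ := by
    rw [← smul_sub, norm_smul, Real.norm_of_nonneg hl.le, Real.mul_rpow hl.le (norm_nonneg _)]
  rw [hn]
  split_ifs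
  · ring
  · simp

theorem t_ESTS : S_ESTS := by
  intro hEST hSC d hd s hs0 hs1 γ hγ b c₁ c₂ hK
  obtain ⟨q₀, hq₀, h⟩ := hEST d hd s hs0 hs1 γ hγ b c₁ c₂ hK
  refine ⟨q₀, hq₀, fun q hq => ?_⟩
  obtain ⟨C, ε₀, hC, hε₀, h'⟩ := h q hq
  refine ⟨C, ε₀, hC, hε₀, fun ε hε hεε F m l hF hF0 hm hl hle v hv => ?_⟩
  have hn : ∀ z : E d, 1 + ‖l • z‖ ^ 2 / l ^ 2 = 1 + ‖z‖ ^ 2 := by
    intro z
    rw [norm_smul, Real.norm_of_nonneg hl.le, mul_pow, mul_div_cancel_left₀ _ (pow_pos hl 2).ne']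
  have hvl : l • (l⁻¹ • v) = v := by
    rw [smul_smul, mul_inv_cancel₀ hl.ne', one_smul]
  have h1 := h' ε hε hεε (fun z => F (l • z)) m (hF.comp (continuous_const_smul l))
    (fun z => hF0 _) hm (fun z => by
      refine (hle (l • z)).trans (le_of_eq ?_)
      rw [hn]; rfl) (l⁻¹ • v) (by
      change F (l • (l⁻¹ • v)) = _
      have h2 := hv
      conv_rhs at h2 => rw [← hvl]
      rw [hn] at h2
      rw [hvl]
      exact h2)
  have h2 := hSC d γ b ε F l hl (l⁻¹ • v)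
  rw [hvl] at h2
  rw [h2]
  have h3 : ph q (l⁻¹ • v) = (1 + ‖v‖ ^ 2 / l ^ 2) ^ (-(q / 2)) := by
    have := hn (l⁻¹ • v)
    rw [hvl] at this
    unfold ph
    rw [← this]
  rw [h3, ← hv] at h1
  have h4 : ∫ w : E d, F w * (1 + ‖w‖ ^ 2 / l ^ 2) ^ ((γ + 2 * s) / 2) =
      l ^ (d:ℝ) * ∫ z : E d, F (l • z) * (1 + ‖z‖ ^ 2) ^ ((γ + 2 * s) / 2) := by
    have h5 := Measure.integral_comp_smul_of_nonneg (volume : Measure (E d))
      (fun w => F w * (1 + ‖w‖ ^ 2 / l ^ 2) ^ ((γ + 2 * s) / 2)) l (hR := hl.le)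
    simp only [finrank_euclideanSpace, Fintype.card_fin, smul_eq_mul, hn] at h5
    rw [h5, ← mul_assoc, Real.rpow_natCast, mul_inv_cancel₀ (pow_pos hl d).ne', one_mul]
  rw [h4]
  calc l ^ ((d:ℝ) + γ) * Qtr γ b ε (fun z => F (l • z)) (l⁻¹ • v)
      ≤ l ^ ((d:ℝ) + γ) * (C * F v *
        ∫ z : E d, F (l • z) * (1 + ‖z‖ ^ 2) ^ ((γ + 2 * s) / 2)) :=
        mul_le_mul_of_nonneg_left h1 (by positivity)
    _ = _ := by
        rw [Real.rpow_add hl]; ring

end Pool.Agent.L7h99.BI
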