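import Pool.Agent.L7h99.BI.Est3

set_option autoImplicit false

/-!
# Project BI3: the scaled pointwise estimate
-/

open MeasureTheory Set Filter Topology Real
open scoped ENNReal

namespace Pool.Agent.L7h99.BI

open E3 in
theorem t_ESTS3 : S_ESTS3 := by
  intro hEST hSC hRZ d hd s hs0 hs1 γ hγd hγ b c₁ c₂ hK
  obtain ⟨q₀, hq₀, h⟩ := hEST d hd s hs0 hs1 γ hγd hγ b c₁ c₂ hK
  refine ⟨q₀, hq₀, fun q hq => ?_⟩
  obtain ⟨C, δ, ε₀, hC, hδ, hε₀, h'⟩ := h q hq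
  refine ⟨C, ε₀, hC, hε₀, fun ε hε hεε F m l hF hF0 hm hl hle v hv => ?_⟩
  have hn : ∀ z : E d, 1 + ‖l • z‖ ^ 2 / l ^ 2 = 1 + ‖z‖ ^ 2 := by
    intro z
    rw [norm_smul, Real.norm_of_nonneg hl.le, mul_pow, mul_div_cancel_left₀ _ (pow_pos hl 2).ne']
  set u := l⁻¹ • v with hu
  have hvl : l • u = v := by
    rw [hu, smul_smul, mul_inv_cancel₀ hl.ne', one_smul]
  have hFl : Continuous (fun z => F (l • z)) := hF.comp (continuous_const_smul l)
  have hFl0 : ∀ z, 0 ≤ F (l • z) := fun z => hF0 _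
  have hFlm : ∀ z, F (l • z) ≤ m * ph q z := by
    intro z
    refine (hle (l • z)).trans (le_of_eq ?_)
    rw [hn]; rfl
  have h1 := h' ε hε hεε (fun z => F (l • z)) m hFl hFl0 hm hFlm u (by
      change F (l • u) = _
      have h2 := hv
      conv_rhs at h2 => rw [← hvl]
      rw [hn] at h2
      rw [hvl]
      exact h2)
  have h2 := hSC d γ b ε F l hl u
  rw [hvl] at h2
  rw [h2]
  have h3 : ph q u = (1 + ‖v‖ ^ 2 / l ^ 2) ^ (-(q / 2)) := by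
    have := hn u
    rw [hvl] at this
    unfold ph
    rw [← this]
  rw [h3, ← hv] at h1
  have hqd : (d:ℝ) + 2 < q := by
    have := abs_nonneg γ
    linarith
  have hint : Integrable (fun z : E d => F (l • z) * fw γ s u z) :=
    fw_int hRZ hd hγd hγ hs0 hs1 hqd hFl hFl0 hFlm u
  have h4 : ∫ z in {w : E d | ‖u‖ < 10 ∨ δ * ‖u‖ ≤ ‖w‖},
      F (l • z) * (‖u - z‖ ^ γ * (1 + ‖z‖ / √(1 + ‖u‖ ^ 2)) ^ (2 * s)) ≤
      ∫ z, F (l • z) * fw γ s u z :=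
    setIntegral_le_integral hint (Eventually.of_forall fun z =>
      mul_nonneg (hFl0 z) (fw_nonneg γ s u z))
  have hsq : √(l ^ 2 + ‖v‖ ^ 2) = l * √(1 + ‖u‖ ^ 2) := by
    have : l ^ 2 + ‖v‖ ^ 2 = l ^ 2 * (1 + ‖u‖ ^ 2) := by
      rw [← hvl, norm_smul, Real.norm_of_nonneg hl.le]
      ring
    rw [this, Real.sqrt_mul (by positivity), Real.sqrt_sq hl.le]
  have h5 : ∫ w : E d, F w * (‖v - w‖ ^ γ * (1 + ‖w‖ / √(l ^ 2 + ‖v‖ ^ 2)) ^ (2 * s)) =
      l ^ ((d:ℝ) + γ) * ∫ z : E d, F (l • z) * fw γ s u z := by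
    have h6 := Measure.integral_comp_smul_of_nonneg (volume : Measure (E d))
      (fun w => F w * (‖v - w‖ ^ γ * (1 + ‖w‖ / √(l ^ 2 + ‖v‖ ^ 2)) ^ (2 * s))) l (hR := hl.le)
    simp only [finrank_euclideanSpace, Fintype.card_fin, smul_eq_mul] at h6
    have h7 : ∀ z : E d, F (l • z) * (‖v - l • z‖ ^ γ *
        (1 + ‖l • z‖ / √(l ^ 2 + ‖v‖ ^ 2)) ^ (2 * s)) = l ^ γ * (F (l • z) * fw γ s u z) := by
      intro z
      unfold fw
      have e1 : ‖v - l • z‖ = l * ‖u - z‖ := by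
        rw [← hvl, ← smul_sub, norm_smul, Real.norm_of_nonneg hl.le]
      have e2 : ‖l • z‖ / √(l ^ 2 + ‖v‖ ^ 2) = ‖z‖ / √(1 + ‖u‖ ^ 2) := by
        rw [hsq, norm_smul, Real.norm_of_nonneg hl.le, mul_div_mul_left _ _ hl.ne']
      rw [e1, e2, Real.mul_rpow hl.le (norm_nonneg _)]
      ring
    simp only [h7] at h6
    rw [integral_const_mul] at h6
    rw [Real.rpow_add hl, mul_assoc, h6, ← mul_assoc, Real.rpow_natCast,
      mul_inv_cancel₀ (pow_pos hl d).ne', one_mul]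
  rw [h5]
  have hFv : 0 ≤ F v := hF0 v
  calc l ^ ((d:ℝ) + γ) * Qtr γ b ε (fun z => F (l • z)) u
      ≤ l ^ ((d:ℝ) + γ) * (C * F v * ∫ z, F (l • z) * fw γ s u z) :=
        mul_le_mul_of_nonneg_left (h1.trans (mul_le_mul_of_nonneg_left h4 (by positivity)))
          (by positivity)
    _ = _ := by ring

end Pool.Agent.L7h99.BI
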