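import Pool.Agent.L7h99.BI.Stm2

set_option autoImplicit false

/-!
# Project BI2: Step 1, the barrier with the moving scale
-/

open MeasureTheory Set Filter Topology Real
open scoped ENNReal

namespace Pool.Agent.L7h99.BI

namespace St1

/-- primitive of `(T-t)^(-P)`. -/
theorem hasDerivAt_prim {T t P : ℝ} (ht : t < T) (hP : P < 1) :
    HasDerivAt (fun r : ℝ => -((T - r) ^ (1 - P) / (1 - P))) ((T - t) ^ (-P)) t := by
  have h1 : HasDerivAt (fun r : ℝ => T - r) (-1) t := by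
    simpa using (hasDerivAt_id t).const_sub T
  have hne : T - t ≠ 0 := by
    intro h
    linarith
  have h2 := h1.rpow_const (p := 1 - P) (Or.inl hne)
  have h3 := (h2.div_const (1 - P)).neg
  refine h3.congr_deriv ?_
  have hP' : (1 - P) ≠ 0 := by
    intro h
    linarith
  have e : 1 - P - 1 = -P := by ring
  rw [e]
  field_simp

/-- The function `N` and its derivative. -/
noncomputable def NN1 (T c₁ c₂ P R : ℝ) (t : ℝ) : ℝ :=
  c₁ * (-((T - t) ^ (1 - P) / (1 - P))) + c₂ * (-((T - t) ^ (1 - R) / (1 - R))) + t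

noncomputable def HH1 (T c₁ c₂ P R : ℝ) (t : ℝ) : ℝ :=
  c₁ * (T - t) ^ (-P) + c₂ * (T - t) ^ (-R) + 1

theorem NN1_deriv {T c₁ c₂ P R t : ℝ} (ht : t < T) (hP : P < 1) (hR : R < 1) :
    HasDerivAt (NN1 T c₁ c₂ P R) (HH1 T c₁ c₂ P R t) t := by
  have := (((hasDerivAt_prim ht hP).const_mul c₁).add ((hasDerivAt_prim ht hR).const_mul c₂)).add
    (hasDerivAt_id t)
  exact this

theorem HH1_ge {T c₁ c₂ P R t : ℝ} (ht : t < T) (h1 : 0 ≤ c₁) (h2 : 0 ≤ c₂) :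
    1 ≤ HH1 T c₁ c₂ P R t := by
  have hτ : 0 < T - t := by linarith
  have := mul_nonneg h1 (Real.rpow_nonneg hτ.le (-P))
  have := mul_nonneg h2 (Real.rpow_nonneg hτ.le (-R))
  unfold HH1
  linarith

theorem NN1_le {T c₁ c₂ P R t : ℝ} (ht : t < T) (hP : P < 1) (hR : R < 1) (h1 : 0 ≤ c₁)
    (h2 : 0 ≤ c₂) : NN1 T c₁ c₂ P R t ≤ T := by
  have hτ : 0 < T - t := by linarith
  have a1 : 0 ≤ (T - t) ^ (1 - P) / (1 - P) :=
    div_nonneg (Real.rpow_nonneg hτ.le _) (by linarith)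
  have a2 : 0 ≤ (T - t) ^ (1 - R) / (1 - R) :=
    div_nonneg (Real.rpow_nonneg hτ.le _) (by linarith)
  have := mul_nonneg h1 a1
  have := mul_nonneg h2 a2
  unfold NN1
  linarith

theorem NN1_ge {T c₁ c₂ P R t : ℝ} (h0 : 0 ≤ t) (ht : t < T) (hP : P < 1) (hR : R < 1)
    (h1 : 0 ≤ c₁) (h2 : 0 ≤ c₂) : NN1 T c₁ c₂ P R 0 ≤ NN1 T c₁ c₂ P R t := by
  have hτ : 0 < T - t := by linarith
  have a1 : (T - t) ^ (1 - P) / (1 - P) ≤ (T - 0) ^ (1 - P) / (1 - P) :=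
    div_le_div_of_nonneg_right (Real.rpow_le_rpow hτ.le (by linarith) (by linarith)) (by linarith)
  have a2 : (T - t) ^ (1 - R) / (1 - R) ≤ (T - 0) ^ (1 - R) / (1 - R) :=
    div_le_div_of_nonneg_right (Real.rpow_le_rpow hτ.le (by linarith) (by linarith)) (by linarith)
  have := mul_le_mul_of_nonneg_left a1 h1
  have := mul_le_mul_of_nonneg_left a2 h2
  unfold NN1
  linarith

/-- `1/λ²`. -/
noncomputable def gg (T l t : ℝ) : ℝ := ((T - t) / T) ^ (2 * l)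

theorem gg_deriv {T l t : ℝ} (hT : 0 < T) (ht : t < T) :
    HasDerivAt (gg T l) (-(2 * l / T * ((T - t) / T) ^ (2 * l - 1))) t := by
  have h1 : HasDerivAt (fun r : ℝ => (T - r) / T) (-1 / T) t := by
    simpa using ((hasDerivAt_id t).const_sub T).div_const T
  have hne : (T - t) / T ≠ 0 := by
    have : 0 < (T - t) / T := div_pos (by linarith) hT
    exact this.ne'
  have h2 := h1.rpow_const (p := 2 * l) (Or.inl hne)
  refine h2.congr_deriv ?_
  field_simp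

theorem gg_le_one {T l t : ℝ} (hT : 0 < T) (h0 : 0 ≤ t) (ht : t < T) (hl : 0 ≤ l) :
    gg T l t ≤ 1 := by
  unfold gg
  refine Real.rpow_le_one (div_nonneg (by linarith) hT.le) ?_ (by linarith)
  rw [div_le_one hT]
  linarith

theorem gg_nonneg {T l t : ℝ} (hT : 0 < T) (ht : t < T) : 0 ≤ gg T l t := by
  unfold gg
  exact Real.rpow_nonneg (div_nonneg (by linarith) hT.le) _

theorem gg_pos {T l t : ℝ} (hT : 0 < T) (ht : t < T) : 0 < gg T l t := by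
  unfold gg
  exact Real.rpow_pos_of_pos (div_pos (by linarith) hT) _

/-- the barrier -/
noncomputable def BBar (d : ℕ) (A₀ K p T c₁ c₂ P R l : ℝ) (t : ℝ) (v : E d) : ℝ :=
  A₀ * Real.exp (K * NN1 T c₁ c₂ P R t) * (1 + ‖v‖ ^ 2 * gg T l t) ^ (-(p / 2))

noncomputable def BBar' (d : ℕ) (A₀ K p T c₁ c₂ P R l : ℝ) (t : ℝ) (v : E d) : ℝ :=
  A₀ * (Real.exp (K * NN1 T c₁ c₂ P R t) * (K * HH1 T c₁ c₂ P R t)) *
    (1 + ‖v‖ ^ 2 * gg T l t) ^ (-(p / 2)) +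
  A₀ * Real.exp (K * NN1 T c₁ c₂ P R t) *
    (‖v‖ ^ 2 * (-(2 * l / T * ((T - t) / T) ^ (2 * l - 1))) * (-(p / 2)) *
      (1 + ‖v‖ ^ 2 * gg T l t) ^ (-(p / 2) - 1))

theorem BBar_deriv {d : ℕ} {A₀ K p T c₁ c₂ P R l t : ℝ} (hT : 0 < T) (ht : t < T) (hP : P < 1)
    (hR : R < 1) (v : E d) :
    HasDerivAt (fun r => BBar d A₀ K p T c₁ c₂ P R l r v) (BBar' d A₀ K p T c₁ c₂ P R l t v) t := by
  have h1 := (((NN1_deriv (c₁ := c₁) (c₂ := c₂) ht hP hR).const_mul K).exp).const_mul A₀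
  have h2 : HasDerivAt (fun r => 1 + ‖v‖ ^ 2 * gg T l r)
      (‖v‖ ^ 2 * (-(2 * l / T * ((T - t) / T) ^ (2 * l - 1)))) t :=
    ((gg_deriv hT ht).const_mul (‖v‖ ^ 2)).const_add 1
  have hne : 1 + ‖v‖ ^ 2 * gg T l t ≠ 0 := by
    have : 0 ≤ ‖v‖ ^ 2 * gg T l t := mul_nonneg (by positivity) (gg_nonneg hT ht)
    have : 0 < 1 + ‖v‖ ^ 2 * gg T l t := by linarith
    exact this.ne'
  have h3 := h2.rpow_const (p := -(p / 2)) (Or.inl hne)
  have h4 := h1.mul h3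
  exact h4

theorem BBar'_ge {d : ℕ} {A₀ K p T c₁ c₂ P R l t : ℝ} (hT : 0 < T) (ht : t < T) (hA : 0 ≤ A₀)
    (hp : 0 ≤ p) (hl : 0 ≤ l) (v : E d) :
    K * HH1 T c₁ c₂ P R t * BBar d A₀ K p T c₁ c₂ P R l t v ≤
      BBar' d A₀ K p T c₁ c₂ P R l t v := by
  unfold BBar' BBar
  have hτ : 0 < (T - t) / T := div_pos (by linarith) hT
  have h0 : 0 ≤ ‖v‖ ^ 2 * gg T l t := mul_nonneg (by positivity) (gg_nonneg hT ht)
  have h1 : 0 ≤ A₀ * Real.exp (K * NN1 T c₁ c₂ P R t) *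
    (‖v‖ ^ 2 * (-(2 * l / T * ((T - t) / T) ^ (2 * l - 1))) * (-(p / 2)) *
      (1 + ‖v‖ ^ 2 * gg T l t) ^ (-(p / 2) - 1)) := by
    have e : ‖v‖ ^ 2 * (-(2 * l / T * ((T - t) / T) ^ (2 * l - 1))) * (-(p / 2)) *
      (1 + ‖v‖ ^ 2 * gg T l t) ^ (-(p / 2) - 1) =
      ‖v‖ ^ 2 * (2 * l / T * ((T - t) / T) ^ (2 * l - 1)) * (p / 2) *
      (1 + ‖v‖ ^ 2 * gg T l t) ^ (-(p / 2) - 1) := by ring
    rw [e]
    have h5 : 0 ≤ (1 + ‖v‖ ^ 2 * gg T l t) ^ (-(p / 2) - 1) := Real.rpow_nonneg (by linarith) _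
    have h6 : 0 ≤ 2 * l / T * ((T - t) / T) ^ (2 * l - 1) :=
      mul_nonneg (by positivity) (Real.rpow_nonneg hτ.le _)
    have h7 : 0 ≤ p / 2 := by linarith
    positivity
  have e : K * HH1 T c₁ c₂ P R t * (A₀ * Real.exp (K * NN1 T c₁ c₂ P R t) *
      (1 + ‖v‖ ^ 2 * gg T l t) ^ (-(p / 2))) =
      A₀ * (Real.exp (K * NN1 T c₁ c₂ P R t) * (K * HH1 T c₁ c₂ P R t)) *
    (1 + ‖v‖ ^ 2 * gg T l t) ^ (-(p / 2)) := by ring
  rw [e]
  linarith

theorem BBar_pos {d : ℕ} {A₀ K p T c₁ c₂ P R l t : ℝ} (hT : 0 < T) (ht : t < T) (hA : 0 < A₀)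
    (v : E d) : 0 < BBar d A₀ K p T c₁ c₂ P R l t v := by
  unfold BBar
  have h0 : 0 ≤ ‖v‖ ^ 2 * gg T l t := mul_nonneg (by positivity) (gg_nonneg hT ht)
  have : 0 < 1 + ‖v‖ ^ 2 * gg T l t := by linarith
  positivity

theorem BBar_cont {d : ℕ} {A₀ K p T c₁ c₂ P R l : ℝ} (hT : 0 < T) (hP : P < 1) (hR : R < 1) :
    ContinuousOn (fun z : ℝ × E d => BBar d A₀ K p T c₁ c₂ P R l z.1 z.2) (Ico 0 T ×ˢ univ) := by
  intro z hz
  have ht : z.1 < T := hz.1.2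
  refine ContinuousAt.continuousWithinAt ?_
  have h1 : ContinuousAt (fun z : ℝ × E d => NN1 T c₁ c₂ P R z.1) z :=
    ContinuousAt.comp (f := fun z : ℝ × E d => z.1) (g := NN1 T c₁ c₂ P R)
      (NN1_deriv ht hP hR).continuousAt continuousAt_fst
  have h2 : ContinuousAt (fun z : ℝ × E d => gg T l z.1) z :=
    ContinuousAt.comp (f := fun z : ℝ × E d => z.1) (g := gg T l)
      (gg_deriv hT ht).continuousAt continuousAt_fst
  have h3 : ContinuousAt (fun z : ℝ × E d => 1 + ‖z.2‖ ^ 2 * gg T l z.1) z :=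
    continuousAt_const.add ((continuousAt_snd.norm.pow 2).mul h2)
  have h0 : 0 ≤ ‖z.2‖ ^ 2 * gg T l z.1 := mul_nonneg (by positivity) (gg_nonneg hT ht)
  have hne : 1 + ‖z.2‖ ^ 2 * gg T l z.1 ≠ 0 := by
    have : 0 < 1 + ‖z.2‖ ^ 2 * gg T l z.1 := by linarith
    exact this.ne'
  unfold BBar
  exact (continuousAt_const.mul ((continuousAt_const.mul h1).rexp)).mul
    (h3.rpow_const (Or.inl hne))

/-- The moment at scale `λ` under the rates. -/
theorem moment_le {d : ℕ} {γ : ℝ} {b : ℝ → ℝ} {T : ℝ} {f : ℝ → E d → E d → ℝ} (hMC : S_MC)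
    (hT : 0 < T) (hf : Sol d γ b T f) {s : ℝ} (hs0 : 0 < s) (hγ : 0 ≤ γ) (hκ : γ + 2 * s ≤ 2)
    {a e l C : ℝ}
    (hr : ∀ t ∈ Ico 0 T, ∀ x, (∫ v, f t x v) ≤ C * (T - t) ^ (-a) ∧
      (∫ v, f t x v * ‖v‖ ^ 2) ≤ C * (T - t) ^ (-e)) {t : ℝ} (ht : t ∈ Ico 0 T) (x : E d) :
    (((T - t) / T) ^ (-l)) ^ γ *
      (∫ w : E d, f t x w * (1 + ‖w‖ ^ 2 / (((T - t) / T) ^ (-l)) ^ 2) ^ ((γ + 2 * s) / 2)) ≤
      HH1 T (C * T ^ (l * γ)) (C * T ^ (-(l * (2 - γ)))) (a + γ * l) (e - (2 - γ) * l) t - 1 := by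
  have hτ : 0 < T - t := by linarith [ht.2]
  have hτT : 0 < (T - t) / T := div_pos hτ hT
  set lam := ((T - t) / T) ^ (-l) with hlam
  have hlam0 : 0 < lam := Real.rpow_pos_of_pos hτT _
  have hnn := hf.nonneg t ht x
  have hI0 : Integrable (fun w : E d => f t x w) := by
    have := ((MC_app hMC hT hf 0).2 t ht).2 x
    simpa using this
  have hI2 : Integrable (fun w : E d => f t x w * (1 + ‖w‖ ^ 2)) := by
    have := ((MC_app hMC hT hf 2).2 t ht).2 x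
    simpa using this
  have hIn : Integrable (fun w : E d => f t x w * ‖w‖ ^ 2) := by
    have h3 := hI2.sub hI0
    refine h3.congr (Eventually.of_forall fun w => ?_)
    simp only [Pi.sub_apply]
    ring
  have hR : Integrable (fun w : E d => f t x w + f t x w * ‖w‖ ^ 2 / lam ^ 2) :=
    hI0.add (hIn.div_const _)
  have h1 : ∫ w : E d, f t x w * (1 + ‖w‖ ^ 2 / lam ^ 2) ^ ((γ + 2 * s) / 2) ≤
      (∫ w, f t x w) + (∫ w, f t x w * ‖w‖ ^ 2) / lam ^ 2 := by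
    rw [← integral_div, ← integral_add hI0 (hIn.div_const _)]
    refine integral_mono_of_nonneg (Eventually.of_forall fun w =>
      mul_nonneg (hnn w) (by positivity)) hR (Eventually.of_forall fun w => ?_)
    have h2 : (1 + ‖w‖ ^ 2 / lam ^ 2) ^ ((γ + 2 * s) / 2) ≤ 1 + ‖w‖ ^ 2 / lam ^ 2 := by
      have h3 : (1:ℝ) ≤ 1 + ‖w‖ ^ 2 / lam ^ 2 := by
        have : 0 ≤ ‖w‖ ^ 2 / lam ^ 2 := by positivity
        linarith
      calc (1 + ‖w‖ ^ 2 / lam ^ 2) ^ ((γ + 2 * s) / 2) ≤ (1 + ‖w‖ ^ 2 / lam ^ 2) ^ (1:ℝ) :=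
            Real.rpow_le_rpow_of_exponent_le h3 (by linarith)
        _ = _ := Real.rpow_one _
    calc f t x w * (1 + ‖w‖ ^ 2 / lam ^ 2) ^ ((γ + 2 * s) / 2) ≤
          f t x w * (1 + ‖w‖ ^ 2 / lam ^ 2) := mul_le_mul_of_nonneg_left h2 (hnn w)
      _ = _ := by ring
  obtain ⟨hρ, hE⟩ := hr t ht x
  have h4 : lam ^ γ * ((∫ w, f t x w) + (∫ w, f t x w * ‖w‖ ^ 2) / lam ^ 2) ≤
      lam ^ γ * (C * (T - t) ^ (-a) + C * (T - t) ^ (-e) / lam ^ 2) := by
    gcongr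
  refine (mul_le_mul_of_nonneg_left h1 (by positivity)).trans (h4.trans (le_of_eq ?_))
  unfold HH1
  have e1 : lam ^ γ = T ^ (l * γ) * (T - t) ^ (-(γ * l)) := by
    rw [hlam, ← Real.rpow_mul hτT.le, Real.div_rpow hτ.le hT.le, div_eq_mul_inv,
      ← Real.rpow_neg hT.le]
    rw [mul_comm]
    congr 2 <;> ring
  have e2 : lam ^ γ / lam ^ 2 = T ^ (-(l * (2 - γ))) * (T - t) ^ ((2 - γ) * l) := by
    rw [← Real.rpow_natCast lam 2, ← Real.rpow_sub hlam0, hlam, ← Real.rpow_mul hτT.le,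
      Real.div_rpow hτ.le hT.le, div_eq_mul_inv, ← Real.rpow_neg hT.le]
    rw [mul_comm]
    congr 2 <;> push_cast <;> ring
  have e3 : (T - t) ^ (-(a + γ * l)) = (T - t) ^ (-(γ * l)) * (T - t) ^ (-a) := by
    rw [← Real.rpow_add hτ]; congr 1; ring
  have e4 : (T - t) ^ (-(e - (2 - γ) * l)) = (T - t) ^ ((2 - γ) * l) * (T - t) ^ (-e) := by
    rw [← Real.rpow_add hτ]; congr 1; ring
  rw [e3, e4]
  calc lam ^ γ * (C * (T - t) ^ (-a) + C * (T - t) ^ (-e) / lam ^ 2)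
      = lam ^ γ * (C * (T - t) ^ (-a)) + (lam ^ γ / lam ^ 2) * (C * (T - t) ^ (-e)) := by ring
    _ = _ := by rw [e2, e1]; ring

end St1

open St1 in
theorem t_ST1 : S_ST1 := by
  intro hEST hSC hES hMAX hMC d s γ b c₁ c₂ T f hd hs0 hs1 hγ hκ hK hT hf a e l C hl hC hP hR hr q
  obtain ⟨q₀, hq₀, hest⟩ := hES hEST hSC d hd s hs0 hs1 γ hγ b c₁ c₂ hK
  set p := max q₀ q with hp
  have hpq0 : q₀ ≤ p := le_max_left _ _
  have hpq : q ≤ p := le_max_right _ _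
  have hp0 : 0 < p := by
    have : (0:ℝ) ≤ d := Nat.cast_nonneg d
    linarith
  obtain ⟨C₀, ε₀, hC₀, hε₀, hest'⟩ := hest p hpq0
  obtain ⟨A₁, hA₁⟩ := hf.decay 0 le_rfl hT p
  set k₁ := C * T ^ (l * γ) with hk₁
  set k₂ := C * T ^ (-(l * (2 - γ))) with hk₂
  have hk₁0 : 0 ≤ k₁ := mul_nonneg hC (Real.rpow_nonneg hT.le _)
  have hk₂0 : 0 ≤ k₂ := mul_nonneg hC (Real.rpow_nonneg hT.le _)
  set K := C₀ + 1 with hKdef
  set P := a + γ * l with hPdef
  set R := e - (2 - γ) * l with hRdef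
  set A₀ := (max A₁ 0 + 1) * Real.exp (-(K * NN1 T k₁ k₂ P R 0)) with hA₀
  have hA₀0 : 0 < A₀ := by positivity
  have hK0 : 0 ≤ K := by linarith
  have h0T : (0:ℝ) ∈ Ico 0 T := ⟨le_rfl, hT⟩
  have hmain := hMAX d 0 T f (BBar d A₀ K p T k₁ k₂ P R l) (BBar' d A₀ K p T k₁ k₂ P R l) hT
    hf.periodic hf.cont (BBar_cont hT hP hR) (fun t ht v => BBar_deriv hT ht.2 hP hR v)
    (fun T' hT' => by
      obtain ⟨C', hC'⟩ := hf.decay T' hT'.1 hT'.2 (p + 1)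
      set c := A₀ * Real.exp (K * NN1 T k₁ k₂ P R 0) with hc
      have hc0 : 0 < c := by positivity
      refine ⟨(|C'| + 1) / c, fun t ht x v hv => ?_⟩
      have htT : t < T := lt_of_le_of_lt ht.2 hT'.2
      have hv0 : 0 < ‖v‖ := lt_of_lt_of_le (by positivity) hv
      have hx0 : (0:ℝ) < 1 + ‖v‖ ^ 2 := by positivity
      have h1 : c * ph p v ≤ BBar d A₀ K p T k₁ k₂ P R l t v := by
        unfold BBar ph
        have h2 : c ≤ A₀ * Real.exp (K * NN1 T k₁ k₂ P R t) := by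
          refine mul_le_mul_of_nonneg_left (Real.exp_le_exp.2 ?_) hA₀0.le
          exact mul_le_mul_of_nonneg_left (NN1_ge ht.1 htT hP hR hk₁0 hk₂0) hK0
        have h0 : 0 ≤ ‖v‖ ^ 2 * gg T l t := mul_nonneg (by positivity) (gg_nonneg hT htT)
        have h3 : (1 + ‖v‖ ^ 2) ^ (-(p / 2)) ≤ (1 + ‖v‖ ^ 2 * gg T l t) ^ (-(p / 2)) := by
          refine Real.rpow_le_rpow_of_nonpos (by linarith) ?_ (by linarith)
          have := mul_le_mul_of_nonneg_left (gg_le_one hT ht.1 htT hl) (sq_nonneg ‖v‖)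
          linarith
        exact mul_le_mul h2 h3 (Real.rpow_nonneg hx0.le _) (by positivity)
      refine lt_of_lt_of_le (lt_of_le_of_lt (hC' t ht x v) ?_) h1
      have h4 : ph (p + 1) v = ph p v * (1 + ‖v‖ ^ 2) ^ (-(1 / 2 : ℝ)) := by
        unfold ph
        rw [← Real.rpow_add hx0]
        congr 1
        ring
      rw [h4]
      have h5 : (1 + ‖v‖ ^ 2) ^ (-(1 / 2 : ℝ)) ≤ ‖v‖⁻¹ := by
        rw [Real.rpow_neg hx0.le, ← Real.sqrt_eq_rpow]
        refine inv_anti₀ hv0 ?_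
        refine Real.le_sqrt_of_sq_le ?_
        linarith
      have h6 : |C'| < c * ‖v‖ := by
        rw [div_le_iff₀ hc0] at hv
        linarith
      have hph := ph_pos p v
      calc C' * (ph p v * (1 + ‖v‖ ^ 2) ^ (-(1 / 2 : ℝ)))
          ≤ |C'| * (ph p v * ‖v‖⁻¹) := by
            refine mul_le_mul (le_abs_self _) (mul_le_mul_of_nonneg_left h5 hph.le)
              (mul_nonneg hph.le (Real.rpow_nonneg hx0.le _)) (abs_nonneg _)
        _ < (c * ‖v‖) * (ph p v * ‖v‖⁻¹) := mul_lt_mul_of_pos_right h6 (by positivity)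
        _ = c * ph p v := by field_simp)
    (fun x v => by
      refine lt_of_le_of_lt (hA₁ 0 ⟨le_rfl, le_rfl⟩ x v) ?_
      have hg : gg T l 0 = 1 := by
        unfold gg
        rw [sub_zero, div_self hT.ne', Real.one_rpow]
      unfold BBar
      rw [hg, mul_one, hA₀, mul_assoc, mul_assoc, ← mul_assoc (Real.exp _), ← Real.exp_add,
        neg_add_cancel, Real.exp_zero, one_mul]
      refine mul_lt_mul_of_pos_right ?_ (ph_pos p v)
      exact lt_of_le_of_lt (le_max_left _ _) (lt_add_one _))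
    (fun t ht x v hle heq => by
      have ht' : t ∈ Ico 0 T := ⟨ht.1.le, ht.2⟩
      obtain ⟨L, hL, hlim⟩ := hf.eqn t ht x v
      refine ⟨L, hL, ?_⟩
      have hτ : 0 < T - t := by linarith [ht.2]
      have hτT : 0 < (T - t) / T := div_pos hτ hT
      have hcv := hf.cv ht' x
      set lam := ((T - t) / T) ^ (-l) with hlam
      have hlam0 : 0 < lam := Real.rpow_pos_of_pos hτT _
      have hg : ∀ w : E d, ‖w‖ ^ 2 * gg T l t = ‖w‖ ^ 2 / lam ^ 2 := by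
        intro w
        rw [div_eq_mul_inv]
        congr 1
        unfold gg
        rw [hlam, ← Real.rpow_natCast, ← Real.rpow_mul hτT.le, ← Real.rpow_neg hτT.le]
        congr 1
        push_cast
        ring
      set m := A₀ * Real.exp (K * NN1 T k₁ k₂ P R t) with hm
      have hm0 : 0 < m := by positivity
      have hB : ∀ w : E d, BBar d A₀ K p T k₁ k₂ P R l t w =
          m * (1 + ‖w‖ ^ 2 / lam ^ 2) ^ (-(p / 2)) := by
        intro w
        unfold BBar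
        rw [hg w]
      have hLle : L (1, v) ≤ C₀ * f t x v * (lam ^ γ *
          ∫ w : E d, f t x w * (1 + ‖w‖ ^ 2 / lam ^ 2) ^ ((γ + 2 * s) / 2)) := by
        refine le_of_tendsto hlim ?_
        filter_upwards [Ioo_mem_nhdsGT hε₀] with ε hε
        exact hest' ε hε.1 hε.2 (f t x) m lam hcv (hf.nonneg t ht' x) hm0 hlam0
          (fun w => (hle x w).trans (le_of_eq (hB w))) v (heq.trans (hB v))
      have hM := moment_le hMC hT hf hs0 hγ hκ (l := l) hr ht' x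
      have hfp : 0 < f t x v := by
        rw [heq]
        exact BBar_pos hT ht.2 hA₀0 v
      have hH : 1 ≤ HH1 T k₁ k₂ P R t := HH1_ge ht.2 hk₁0 hk₂0
      have h5 := BBar'_ge (d := d) (K := K) (c₁ := k₁) (c₂ := k₂) (P := P) (R := R) hT ht.2 hA₀0.le
        hp0.le hl v
      refine lt_of_lt_of_le (lt_of_le_of_lt (hLle.trans
        (mul_le_mul_of_nonneg_left hM (by positivity))) ?_) h5
      rw [← heq]
      have h6 : C₀ * f t x v * (HH1 T k₁ k₂ P R t - 1) < K * HH1 T k₁ k₂ P R t * f t x v := by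
        have h7 : K * HH1 T k₁ k₂ P R t * f t x v - C₀ * f t x v * (HH1 T k₁ k₂ P R t - 1) =
            f t x v * (HH1 T k₁ k₂ P R t + C₀) := by rw [hKdef]; ring
        have h8 : 0 < f t x v * (HH1 T k₁ k₂ P R t + C₀) := by
          refine mul_pos hfp ?_
          linarith
        linarith
      exact h6)
  refine ⟨A₀ * Real.exp (K * T), by positivity, fun t ht x v => ?_⟩
  refine (hmain t ht x v).le.trans ?_
  unfold BBar
  have h0 : 0 ≤ ‖v‖ ^ 2 * gg T l t := mul_nonneg (by positivity) (gg_nonneg hT ht.2)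
  refine mul_le_mul ?_ ?_ (Real.rpow_nonneg (by linarith) _) (by positivity)
  · refine mul_le_mul_of_nonneg_left (Real.exp_le_exp.2 ?_) hA₀0.le
    exact mul_le_mul_of_nonneg_left (NN1_le ht.2 hP hR hk₁0 hk₂0) hK0
  · exact Real.rpow_le_rpow_of_exponent_le (by linarith) (by linarith)

end Pool.Agent.L7h99.BI
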