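import Pool.Agent.L7h99.BI.Stm3
import Pool.Agent.L7h99.BI.St1

set_option autoImplicit false

/-!
# Project BI3: Step 1, the barrier with the moving scale
-/

open MeasureTheory Set Filter Topology Real
open scoped ENNReal

namespace Pool.Agent.L7h99.BI

namespace St13

open St1

/-- Integrability of the collision frequency. -/
theorem riesz_int (hRZ : S_RZ) {d : ℕ} {γ γ' : ℝ} {b : ℝ → ℝ} {T : ℝ} {f : ℝ → E d → E d → ℝ}
    (hd : 2 ≤ d) (hγd : -(d : ℝ) < γ) (hγ : γ ≤ 0) (hf : Sol d γ' b T f) {t : ℝ}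
    (ht : t ∈ Ico 0 T) (x v : E d) : Integrable (fun w : E d => f t x w * ‖v - w‖ ^ γ) := by
  obtain ⟨C', -, hC'⟩ := (hRZ d γ hd hγd hγ).1 (d + 1) (by linarith)
  obtain ⟨C, hC⟩ := hf.decay t ht.1 ht.2 (d + 1)
  refine (((hC' v).1).const_mul C).mono' ?_ (Eventually.of_forall fun w => ?_)
  · refine ((hf.cv ht x).measurable.mul ?_).aestronglyMeasurable
    exact ((measurable_const.sub measurable_id).norm).pow_const _
  · have hn : 0 ≤ ‖v - w‖ ^ γ := Real.rpow_nonneg (norm_nonneg _) _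
    rw [Real.norm_of_nonneg (mul_nonneg (hf.nonneg t ht x w) hn), ← mul_assoc]
    exact mul_le_mul_of_nonneg_right (hC t ⟨ht.1, le_rfl⟩ x w) hn

/-- The pointwise split. -/
theorem pt_split {d : ℕ} {γ s lam : ℝ} (hγ : γ ≤ 0) (hs : 0 < s) (hs1 : s < 1) (hlam : 0 < lam)
    (v w : E d) :
    ‖v - w‖ ^ γ * (1 + ‖w‖ / √(lam ^ 2 + ‖v‖ ^ 2)) ^ (2 * s) ≤
      9 * ‖v - w‖ ^ γ + 2 ^ (2 - γ) * (lam ^ γ / lam ^ 2) * ‖w‖ ^ 2 := by
  set R := √(lam ^ 2 + ‖v‖ ^ 2) with hR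
  have hRl : lam ≤ R := Real.le_sqrt_of_sq_le (by nlinarith [sq_nonneg ‖v‖])
  have hRv : ‖v‖ ≤ R := Real.le_sqrt_of_sq_le (by nlinarith [sq_nonneg lam])
  have hR0 : 0 < R := lt_of_lt_of_le hlam hRl
  have hn : 0 ≤ ‖v - w‖ ^ γ := Real.rpow_nonneg (norm_nonneg _) _
  rcases le_or_gt ‖w‖ (2 * R) with h | h
  · have h1 : 1 + ‖w‖ / R ≤ 3 := by
      have : ‖w‖ / R ≤ 2 := by rwa [div_le_iff₀ hR0]
      linarith
    have h2 : (1 + ‖w‖ / R) ^ (2 * s) ≤ 9 := by
      calc (1 + ‖w‖ / R) ^ (2 * s) ≤ 3 ^ (2 * s) :=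
            Real.rpow_le_rpow (by positivity) h1 (by linarith)
        _ ≤ (3:ℝ) ^ (2:ℝ) := Real.rpow_le_rpow_of_exponent_le (by norm_num) (by linarith)
        _ = 9 := by norm_num
    have h3 : 0 ≤ 2 ^ (2 - γ) * (lam ^ γ / lam ^ 2) * ‖w‖ ^ 2 := by positivity
    nlinarith [mul_le_mul_of_nonneg_left h2 hn]
  · have hw0 : 0 < ‖w‖ := by linarith
    have h1 : ‖w‖ / 2 ≤ ‖v - w‖ := by
      have := norm_sub_norm_le w v
      rw [norm_sub_rev] at this
      linarith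
    have h2 : ‖v - w‖ ^ γ ≤ (‖w‖ / 2) ^ γ := Real.rpow_le_rpow_of_nonpos (by positivity) h1 hγ
    set X := ‖w‖ / lam with hX
    have hX1 : 1 ≤ X := by
      rw [hX, le_div_iff₀ hlam]
      linarith
    have hX0 : 0 < X := by linarith
    have hwX : ‖w‖ = lam * X := by rw [hX]; field_simp
    have h3 : (1 + ‖w‖ / R) ^ (2 * s) ≤ 4 * X ^ (2 * s) := by
      have h4 : 1 + ‖w‖ / R ≤ 2 * X := by
        have : ‖w‖ / R ≤ X := div_le_div_of_nonneg_left hw0.le hlam hRl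
        linarith
      calc (1 + ‖w‖ / R) ^ (2 * s) ≤ (2 * X) ^ (2 * s) :=
            Real.rpow_le_rpow (by positivity) h4 (by linarith)
        _ = 2 ^ (2 * s) * X ^ (2 * s) := Real.mul_rpow (by norm_num) hX0.le
        _ ≤ 4 * X ^ (2 * s) := by
            refine mul_le_mul_of_nonneg_right ?_ (by positivity)
            calc (2:ℝ) ^ (2 * s) ≤ 2 ^ (2:ℝ) :=
                  Real.rpow_le_rpow_of_exponent_le (by norm_num) (by linarith)
              _ = 4 := by norm_num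
    have h5 : (‖w‖ / 2) ^ γ = 2 ^ (-γ) * (lam ^ γ * X ^ γ) := by
      rw [hwX, Real.div_rpow (by positivity) (by norm_num), Real.mul_rpow hlam.le hX0.le,
        Real.rpow_neg (by norm_num)]
      field_simp
    have h6 : X ^ γ * X ^ (2 * s) ≤ X ^ 2 := by
      rw [← Real.rpow_add hX0]
      calc X ^ (γ + 2 * s) ≤ X ^ (2:ℝ) := Real.rpow_le_rpow_of_exponent_le hX1 (by linarith)
        _ = X ^ 2 := Real.rpow_two X
    have h7 : (2:ℝ) ^ (2 - γ) = 4 * 2 ^ (-γ) := by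
      rw [sub_eq_add_neg, Real.rpow_add (by norm_num)]
      norm_num
    calc ‖v - w‖ ^ γ * (1 + ‖w‖ / R) ^ (2 * s) ≤ (‖w‖ / 2) ^ γ * (4 * X ^ (2 * s)) :=
          mul_le_mul h2 h3 (by positivity) (by positivity)
      _ = 4 * 2 ^ (-γ) * lam ^ γ * (X ^ γ * X ^ (2 * s)) := by rw [h5]; ring
      _ ≤ 4 * 2 ^ (-γ) * lam ^ γ * X ^ 2 := mul_le_mul_of_nonneg_left h6 (by positivity)
      _ = 2 ^ (2 - γ) * (lam ^ γ / lam ^ 2) * ‖w‖ ^ 2 := by
          rw [h7, hX]; field_simp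
      _ ≤ _ := by linarith

/-- The weighted integral under the rates. -/
theorem moment_le3 {d : ℕ} {γ : ℝ} {b : ℝ → ℝ} {T : ℝ} {f : ℝ → E d → E d → ℝ} (hMC : S_MC)
    (hRZ : S_RZ) (hd : 2 ≤ d) (hT : 0 < T) (hf : Sol d γ b T f) {s : ℝ} (hs0 : 0 < s) (hs1 : s < 1)
    (hγd : -(d : ℝ) < γ) (hγ : γ ≤ 0) {a e l C : ℝ}
    (hν : ∀ t ∈ Ico 0 T, ∀ x v, (∫ w, f t x w * ‖v - w‖ ^ γ) ≤ C * (T - t) ^ (-a))
    (hE : ∀ t ∈ Ico 0 T, ∀ x, (∫ v, f t x v * ‖v‖ ^ 2) ≤ C * (T - t) ^ (-e))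
    {t : ℝ} (ht : t ∈ Ico 0 T) (x v : E d) :
    (∫ w : E d, f t x w * (‖v - w‖ ^ γ *
      (1 + ‖w‖ / √((((T - t) / T) ^ (-l)) ^ 2 + ‖v‖ ^ 2)) ^ (2 * s))) ≤
      HH1 T (9 * C) (2 ^ (2 - γ) * C * T ^ (-(l * (2 - γ)))) a (e - (2 - γ) * l) t - 1 := by
  have hτ : 0 < T - t := by linarith [ht.2]
  have hτT : 0 < (T - t) / T := div_pos hτ hT
  set lam := ((T - t) / T) ^ (-l) with hlam
  have hlam0 : 0 < lam := Real.rpow_pos_of_pos hτT _
  have hnn := hf.nonneg t ht x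
  have hI0 : Integrable (fun w : E d => f t x w) := by
    have := ((MC_app hMC hT hf 0).2 t ht).2 x
    simpa using this
  have hI2 : Integrable (fun w : E d => f t x w * (1 + ‖w‖ ^ 2)) := by
    have := ((MC_app hMC hT hf 2).2 t ht).2 x
    simpa using this
  have hIn : Integrable (fun w : E d => f t x w * ‖w‖ ^ 2) := by
    refine (hI2.sub hI0).congr (Eventually.of_forall fun w => ?_)
    simp only [Pi.sub_apply]
    ring
  have hIr := riesz_int hRZ hd hγd hγ hf ht x v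
  set K := (2:ℝ) ^ (2 - γ) * (lam ^ γ / lam ^ 2) with hK
  have hK0 : 0 ≤ K := by positivity
  have h1 : (∫ w : E d, f t x w * (‖v - w‖ ^ γ * (1 + ‖w‖ / √(lam ^ 2 + ‖v‖ ^ 2)) ^ (2 * s))) ≤
      9 * (∫ w, f t x w * ‖v - w‖ ^ γ) + K * (∫ w, f t x w * ‖w‖ ^ 2) := by
    rw [← integral_const_mul, ← integral_const_mul, ← integral_add (hIr.const_mul _)
      (hIn.const_mul _)]
    refine integral_mono_of_nonneg (Eventually.of_forall fun w =>
      mul_nonneg (hnn w) (by positivity)) ((hIr.const_mul _).add (hIn.const_mul _))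
      (Eventually.of_forall fun w => ?_)
    refine (mul_le_mul_of_nonneg_left (pt_split hγ hs0 hs1 hlam0 v w) (hnn w)).trans
      (le_of_eq ?_)
    rw [hK]; ring
  have h2 := hν t ht x v
  have h3 := hE t ht x
  have h4 : lam ^ γ / lam ^ 2 = T ^ (-(l * (2 - γ))) * (T - t) ^ ((2 - γ) * l) := by
    rw [← Real.rpow_natCast lam 2, ← Real.rpow_sub hlam0, hlam, ← Real.rpow_mul hτT.le,
      Real.div_rpow hτ.le hT.le, div_eq_mul_inv, ← Real.rpow_neg hT.le]
    rw [mul_comm]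
    congr 2 <;> push_cast <;> ring
  have h5 : (T - t) ^ (-(e - (2 - γ) * l)) = (T - t) ^ ((2 - γ) * l) * (T - t) ^ (-e) := by
    rw [← Real.rpow_add hτ]; congr 1; ring
  refine h1.trans ((add_le_add (mul_le_mul_of_nonneg_left h2 (by norm_num))
    (mul_le_mul_of_nonneg_left h3 hK0)).trans (le_of_eq ?_))
  unfold HH1
  rw [hK, h4, h5]
  ring

end St13

open St1 St13 in
theorem t_ST13 : S_ST13 := by
  intro hEST hSC hES hMAX hMC hRZ _ d s γ b c₁ c₂ T f hd hs0 hs1 hγd hγ hK hT hf a e l C hl hC hP hR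
    hν hE q
  obtain ⟨q₀, hq₀, hest⟩ := hES hEST hSC hRZ d hd s hs0 hs1 γ hγd hγ b c₁ c₂ hK
  set p := max q₀ q with hp
  have hpq0 : q₀ ≤ p := le_max_left _ _
  have hpq : q ≤ p := le_max_right _ _
  have hp0 : 0 < p := by
    have : (0:ℝ) ≤ d := Nat.cast_nonneg d
    have := abs_nonneg γ
    linarith
  obtain ⟨C₀, ε₀, hC₀, hε₀, hest'⟩ := hest p hpq0
  obtain ⟨A₁, hA₁⟩ := hf.decay 0 le_rfl hT p
  set k₁ := 9 * C with hk₁
  set k₂ := 2 ^ (2 - γ) * C * T ^ (-(l * (2 - γ))) with hk₂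
  have hk₁0 : 0 ≤ k₁ := by positivity
  have hk₂0 : 0 ≤ k₂ := by positivity
  set K := C₀ + 1 with hKdef
  set P := a with hPdef
  set R := e - (2 - γ) * l with hRdef
  set A₀ := (max A₁ 0 + 1) * Real.exp (-(K * NN1 T k₁ k₂ P R 0)) with hA₀
  have hA₀0 : 0 < A₀ := by positivity
  have hK0 : 0 ≤ K := by linarith
  have h0T : (0:ℝ) ∈ Ico 0 T := ⟨le_rfl, hT⟩
  have hmain := hMAX d 0 T f (BBar d A₀ K p T k₁ k₂ P R l) (BBar' d A₀ K p T k₁ k₂ P R l) hT
    hf.periodic hf.cont (BBar_cont hT hP hR) (fun t ht v => BBar_deriv hT ht.2 hP hR v)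
    (fun T' hT' => by
      obtain ⟨C', hC'⟩ := hf.decay T' hT'.1 hT'.2 (p + 1)
      set c := A₀ * Real.exp (K * NN1 T k₁ k₂ P R 0) with hc
      have hc0 : 0 < c := by positivity
      refine ⟨(|C'| + 1) / c, fun t ht x v hv => ?_⟩
      have htT : t < T := lt_of_le_of_lt ht.2 hT'.2
      have hv0 : 0 < ‖v‖ := lt_of_lt_of_le (by positivity) hv
      have hx0 : (0:ℝ) < 1 + ‖v‖ ^ 2 := by positivity
      have h1 : c * ph p v ≤ BBar d A₀ K p T k₁ k₂ P R l t v := by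
        unfold BBar ph
        have h2 : c ≤ A₀ * Real.exp (K * NN1 T k₁ k₂ P R t) := by
          refine mul_le_mul_of_nonneg_left (Real.exp_le_exp.2 ?_) hA₀0.le
          exact mul_le_mul_of_nonneg_left (NN1_ge ht.1 htT hP hR hk₁0 hk₂0) hK0
        have h0 : 0 ≤ ‖v‖ ^ 2 * gg T l t := mul_nonneg (by positivity) (gg_nonneg hT htT)
        have h3 : (1 + ‖v‖ ^ 2) ^ (-(p / 2)) ≤ (1 + ‖v‖ ^ 2 * gg T l t) ^ (-(p / 2)) := by
          refine Real.rpow_le_rpow_of_nonpos (by linarith) ?_ (by linarith)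
          have := mul_le_mul_of_nonneg_left (gg_le_one hT ht.1 htT hl) (sq_nonneg ‖v‖)
          linarith
        exact mul_le_mul h2 h3 (Real.rpow_nonneg hx0.le _) (by positivity)
      refine lt_of_lt_of_le (lt_of_le_of_lt (hC' t ht x v) ?_) h1
      have h4 : ph (p + 1) v = ph p v * (1 + ‖v‖ ^ 2) ^ (-(1 / 2 : ℝ)) := by
        unfold ph
        rw [← Real.rpow_add hx0]
        congr 1
        ring
      rw [h4]
      have h5 : (1 + ‖v‖ ^ 2) ^ (-(1 / 2 : ℝ)) ≤ ‖v‖⁻¹ := by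
        rw [Real.rpow_neg hx0.le, ← Real.sqrt_eq_rpow]
        refine inv_anti₀ hv0 ?_
        refine Real.le_sqrt_of_sq_le ?_
        linarith
      have h6 : |C'| < c * ‖v‖ := by
        rw [div_le_iff₀ hc0] at hv
        linarith
      have hph := ph_pos p v
      calc C' * (ph p v * (1 + ‖v‖ ^ 2) ^ (-(1 / 2 : ℝ)))
          ≤ |C'| * (ph p v * ‖v‖⁻¹) := by
            refine mul_le_mul (le_abs_self _) (mul_le_mul_of_nonneg_left h5 hph.le)
              (mul_nonneg hph.le (Real.rpow_nonneg hx0.le _)) (abs_nonneg _)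
        _ < (c * ‖v‖) * (ph p v * ‖v‖⁻¹) := mul_lt_mul_of_pos_right h6 (by positivity)
        _ = c * ph p v := by field_simp)
    (fun x v => by
      refine lt_of_le_of_lt (hA₁ 0 ⟨le_rfl, le_rfl⟩ x v) ?_
      have hg : gg T l 0 = 1 := by
        unfold gg
        rw [sub_zero, div_self hT.ne', Real.one_rpow]
      unfold BBar
      rw [hg, mul_one, hA₀, mul_assoc, mul_assoc, ← mul_assoc (Real.exp _), ← Real.exp_add,
        neg_add_cancel, Real.exp_zero, one_mul]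
      refine mul_lt_mul_of_pos_right ?_ (ph_pos p v)
      exact lt_of_le_of_lt (le_max_left _ _) (lt_add_one _))
    (fun t ht x v hle heq => by
      have ht' : t ∈ Ico 0 T := ⟨ht.1.le, ht.2⟩
      obtain ⟨L, hL, hlim⟩ := hf.eqn t ht x v
      refine ⟨L, hL, ?_⟩
      have hτ : 0 < T - t := by linarith [ht.2]
      have hτT : 0 < (T - t) / T := div_pos hτ hT
      have hcv := hf.cv ht' x
      set lam := ((T - t) / T) ^ (-l) with hlam
      have hlam0 : 0 < lam := Real.rpow_pos_of_pos hτT _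
      have hg : ∀ w : E d, ‖w‖ ^ 2 * gg T l t = ‖w‖ ^ 2 / lam ^ 2 := by
        intro w
        rw [div_eq_mul_inv]
        congr 1
        unfold gg
        rw [hlam, ← Real.rpow_natCast, ← Real.rpow_mul hτT.le, ← Real.rpow_neg hτT.le]
        congr 1
        push_cast
        ring
      set m := A₀ * Real.exp (K * NN1 T k₁ k₂ P R t) with hm
      have hm0 : 0 < m := by positivity
      have hB : ∀ w : E d, BBar d A₀ K p T k₁ k₂ P R l t w =
          m * (1 + ‖w‖ ^ 2 / lam ^ 2) ^ (-(p / 2)) := by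
        intro w
        unfold BBar
        rw [hg w]
      have hLle : L (1, v) ≤ C₀ * f t x v *
          ∫ w : E d, f t x w * (‖v - w‖ ^ γ * (1 + ‖w‖ / √(lam ^ 2 + ‖v‖ ^ 2)) ^ (2 * s)) := by
        refine le_of_tendsto hlim ?_
        filter_upwards [Ioo_mem_nhdsGT hε₀] with ε hε
        exact hest' ε hε.1 hε.2 (f t x) m lam hcv (hf.nonneg t ht' x) hm0 hlam0
          (fun w => (hle x w).trans (le_of_eq (hB w))) v (heq.trans (hB v))
      have hM := moment_le3 hMC hRZ hd hT hf hs0 hs1 hγd hγ (l := l) hν hE ht' x v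
      have hfp : 0 < f t x v := by
        rw [heq]
        exact BBar_pos hT ht.2 hA₀0 v
      have hH : 1 ≤ HH1 T k₁ k₂ P R t := HH1_ge ht.2 hk₁0 hk₂0
      have h5 := BBar'_ge (d := d) (K := K) (c₁ := k₁) (c₂ := k₂) (P := P) (R := R) hT ht.2 hA₀0.le
        hp0.le hl v
      refine lt_of_lt_of_le (lt_of_le_of_lt (hLle.trans
        (mul_le_mul_of_nonneg_left hM (by positivity))) ?_) h5
      rw [← heq]
      have h7 : K * HH1 T k₁ k₂ P R t * f t x v - C₀ * f t x v * (HH1 T k₁ k₂ P R t - 1) =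
          f t x v * (HH1 T k₁ k₂ P R t + C₀) := by rw [hKdef]; ring
      have h8 : 0 < f t x v * (HH1 T k₁ k₂ P R t + C₀) := by
        refine mul_pos hfp ?_
        linarith
      linarith)
  refine ⟨A₀ * Real.exp (K * T), by positivity, fun t ht x v => ?_⟩
  refine (hmain t ht x v).le.trans ?_
  unfold BBar
  have h0 : 0 ≤ ‖v‖ ^ 2 * gg T l t := mul_nonneg (by positivity) (gg_nonneg hT ht.2)
  refine mul_le_mul ?_ ?_ (Real.rpow_nonneg (by linarith) _) (by positivity)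
  · refine mul_le_mul_of_nonneg_left (Real.exp_le_exp.2 ?_) hA₀0.le
    exact mul_le_mul_of_nonneg_left (NN1_le ht.2 hP hR hk₁0 hk₂0) hK0
  · exact Real.rpow_le_rpow_of_exponent_le (by linarith) (by linarith)

end Pool.Agent.L7h99.BI
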