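import Pool.Agent.L7h99.BI.Fin

set_option autoImplicit false

/-!
# Project BI2: no implosion if the collision frequency is integrable (power rates)

Second hand-in on MP_187b32_an: for `γ ≥ 0`, `0 < s < 1`, `γ + 2s ≤ 2`, a classical solution with
`ρ ≤ C (T-t)^(-a)`, `E ≤ C (T-t)^(-e)`, `a ≤ e`, `(1-γ/2) a + (γ/2) e < 1` (the collision frequency
`ρ θ^(γ/2)` is integrable in time) does not implode. For the rates of the smooth Euler implosions of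
a monatomic gas this covers all `γ < √3` in `d = 3` and all kernels in `d = 2` (in project BI the
exponent was `γ + 2s` instead of `γ`).

Step 1 [ST1]: barrier `A exp(..) (1 + |v|²/λ(t)²)^(-q/2)`, `λ = ((T-t)/T)^(-l)`, with
`a + γ l < 1`, `e - (2-γ) l < 1`. Step 2 [ST2]: barrier `m(t) (1+|v|²)^(-q/2)` on `[t₁, T)`; by Step
1 it is touched only at `|v| ≥ c λ(t₁)`, where only partners `|w| ≥ δ|v|` matter ([EST2]).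
-/

open MeasureTheory Set Filter Topology Real
open scoped ENNReal

namespace Pool.Agent.L7h99.BI

/-- [MAX2] Maximum principle with a general barrier (same proof as [MAX]). -/
def S_MAX2 : Prop := ∀ (d : ℕ) (T₀ T : ℝ) (f : ℝ → E d → E d → ℝ) (B B' : ℝ → E d → ℝ),
  T₀ < T →
  (∀ t ∈ Ico T₀ T, ∀ x v, ∀ i : Fin d, f t (x + EuclideanSpace.single i 1) v = f t x v) →
  ContinuousOn (fun p : ℝ × E d × E d => f p.1 p.2.1 p.2.2) (Ico T₀ T ×ˢ univ) →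
  ContinuousOn (fun p : ℝ × E d => B p.1 p.2) (Ico T₀ T ×ˢ univ) →
  (∀ t ∈ Ioo T₀ T, ∀ v, HasDerivAt (fun r => B r v) (B' t v) t) →
  (∀ T' ∈ Ico T₀ T, ∃ R : ℝ, ∀ t ∈ Icc T₀ T', ∀ x v, R ≤ ‖v‖ → f t x v < B t v) →
  (∀ x v, f T₀ x v < B T₀ v) →
  (∀ t ∈ Ioo T₀ T, ∀ x v, (∀ x' v', f t x' v' ≤ B t v') → f t x v = B t v →
    ∃ L : ℝ × E d →L[ℝ] ℝ, HasFDerivAt (fun p : ℝ × E d => f p.1 p.2 v) L (t, x) ∧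
      L (1, v) < B' t v) →
  ∀ t ∈ Ico T₀ T, ∀ x v, f t x v < B t v

/-- [SCALE] `w = l z` in the outer integral (`vps (l u) (l z) σ = l vps u z σ`, same cosine). -/
def S_SCALE : Prop := ∀ (d : ℕ) (γ : ℝ) (b : ℝ → ℝ) (ε : ℝ) (F : E d → ℝ) (l : ℝ), 0 < l →
  ∀ u : E d, Qtr γ b ε F (l • u) = l ^ ((d : ℝ) + γ) * Qtr γ b ε (fun z => F (l • z)) u

/-- [ESTS] [EST] for `F(l ·)`, rescaled by [SCALE]; `C` does not depend on `l`. -/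
def S_ESTS : Prop := S_EST → S_SCALE → ∀ d : ℕ, 2 ≤ d → ∀ s : ℝ, 0 < s → s < 1 → ∀ γ : ℝ, 0 ≤ γ →
  ∀ (b : ℝ → ℝ) (c₁ c₂ : ℝ), Ker d s b c₁ c₂ → ∃ q₀ : ℝ, (d : ℝ) + γ + 2 < q₀ ∧
  ∀ q : ℝ, q₀ ≤ q → ∃ C ε₀ : ℝ, 0 < C ∧ 0 < ε₀ ∧ ∀ ε : ℝ, 0 < ε → ε < ε₀ →
  ∀ (F : E d → ℝ) (m l : ℝ), Continuous F → (∀ v, 0 ≤ F v) → 0 < m → 0 < l →
  (∀ v, F v ≤ m * (1 + ‖v‖ ^ 2 / l ^ 2) ^ (-(q / 2))) →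
  ∀ v : E d, F v = m * (1 + ‖v‖ ^ 2 / l ^ 2) ^ (-(q / 2)) →
    Qtr γ b ε F v ≤ C * F v * (l ^ γ *
      ∫ w : E d, F w * (1 + ‖w‖ ^ 2 / l ^ 2) ^ ((γ + 2 * s) / 2))

/-- [EST2] (helper99) Refined estimate for large `v`: only fast partners count. -/
def S_EST2 : Prop := ∀ d : ℕ, 2 ≤ d → ∀ s : ℝ, 0 < s → s < 1 → ∀ γ : ℝ, 0 ≤ γ →
  ∀ (b : ℝ → ℝ) (c₁ c₂ : ℝ), Ker d s b c₁ c₂ → ∃ q₀ : ℝ, (d : ℝ) + γ + 2 < q₀ ∧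
  ∀ q : ℝ, q₀ ≤ q → ∃ C δ ε₀ : ℝ, 0 < C ∧ 0 < δ ∧ 0 < ε₀ ∧ ∀ ε : ℝ, 0 < ε → ε < ε₀ →
  ∀ (F : E d → ℝ) (m : ℝ), Continuous F → (∀ v, 0 ≤ F v) → 0 < m → (∀ v, F v ≤ m * ph q v) →
  ∀ v : E d, 10 ≤ ‖v‖ → F v = m * ph q v →
    Qtr γ b ε F v ≤ C * (m * ph q v) *
      ∫ w in {w : E d | δ * ‖v‖ ≤ ‖w‖}, F w * (‖w‖ ^ γ * (‖w‖ / ‖v‖) ^ (2 * s))

/-- [ST1] `p = max q₀ q`, `λ(t) = ((T-t)/T)^(-l) ≥ 1` nondecreasing, barrier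
`B = A₀ exp((C₀+1) N(t)) (1 + |v|²/λ²)^(-p/2)`, `N' = c ((T-t)^(-(a+γl)) + (T-t)^(-(e-(2-γ)l))) + 1`
(explicit primitive, bounded on `[0,T)` as both exponents are `< 1`), `λ^γ ∫ f (1+|w|²/λ²)^(κ/2) ≤
λ^γ (ρ + E/λ²) ≤ N' - 1` as `κ ≤ 2`; the derivative of the second factor of `B` in `t` is `≥ 0`. At
`t = 0`: `λ = 1`, [Sol.decay]. For `R` in [MAX2] use `decay` with exponent `p + 1`. -/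
def S_ST1 : Prop := S_EST → S_SCALE → S_ESTS → S_MAX2 → S_MC →
  ∀ (d : ℕ) (s γ : ℝ) (b : ℝ → ℝ) (c₁ c₂ T : ℝ) (f : ℝ → E d → E d → ℝ), 2 ≤ d → 0 < s → s < 1 →
  0 ≤ γ → γ + 2 * s ≤ 2 → Ker d s b c₁ c₂ → 0 < T → Sol d γ b T f →
  ∀ a e l C : ℝ, 0 ≤ l → 0 ≤ C → a + γ * l < 1 → e - (2 - γ) * l < 1 →
  (∀ t ∈ Ico 0 T, ∀ x, (∫ v, f t x v) ≤ C * (T - t) ^ (-a) ∧
    (∫ v, f t x v * ‖v‖ ^ 2) ≤ C * (T - t) ^ (-e)) →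
  ∀ q : ℝ, ∃ A : ℝ, 0 < A ∧ ∀ t ∈ Ico 0 T, ∀ x v,
    f t x v ≤ A * (1 + ‖v‖ ^ 2 * ((T - t) / T) ^ (2 * l)) ^ (-(q / 2))

/-- [ST2] `l = 0`: nothing to prove. `l > 0`: `κ = γ+2s`, `ν = (d+γ)/(q-d-κ)`, `γ' = γ + νκ`, `q` so
large that `l γ' + a < 1`; `A ≥ 1` from the hypothesis for this `q`; `λ(t) = ((T-t)/T)^(-l)`;
`m₁ = 2 A λ(t₁)^q`, `V₁ = (m₁/A)^(1/q)`; barrier `B = m₁ exp(∫_{t₁}^t H) φ_q(v)` on `[t₁,T)`,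
`H = 4(C₀+1)((2V₁)^γ' C (T-t)^(-a) + C_d A + 1)` (explicit primitive), `t₁` so close to `T` that
`λ(t₁) ≥ 11` and `∫_{t₁}^T H ≤ q log 2` (possible: `V₁^γ' (T-t₁)^(1-a) → 0`). At a touching point
`m ⟨v⟩^(-q) = f ≤ A`, so `⟨v⟩ ≥ V = (m/A)^(1/q) ∈ [V₁, 2V₁]`, `|v| ≥ V/2`, `|v| ≥ 10`, and [EST2]:
`∫_{|w| ≥ δ|v|} F |w|^γ (|w|/|v|)^(2s) ≤ (2/V)^(2s) ∫ F |w|^κ`, split at `|w| = V^(1+ν)`: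
`≤ V^((1+ν)κ) ρ + m ∫_{|w| ≥ V^(1+ν)} |w|^(κ-q) = V^((1+ν)κ) ρ + C_d A V^(q + (1+ν)(d+κ-q))`, and
`q + (1+ν)(d+κ-q) - 2s = 0`. On `[0,t₁]` use `decay`. -/
def S_ST2 : Prop := S_EST2 → S_MAX2 → S_MC →
  ∀ (d : ℕ) (s γ : ℝ) (b : ℝ → ℝ) (c₁ c₂ T : ℝ) (f : ℝ → E d → E d → ℝ), 2 ≤ d → 0 < s → s < 1 →
  0 ≤ γ → γ + 2 * s ≤ 2 → Ker d s b c₁ c₂ → 0 < T → Sol d γ b T f →
  ∀ a l C : ℝ, 0 ≤ l → 0 ≤ C → a + γ * l < 1 →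
  (∀ t ∈ Ico 0 T, ∀ x, (∫ v, f t x v) ≤ C * (T - t) ^ (-a)) →
  (∀ q : ℝ, ∃ A : ℝ, 0 < A ∧ ∀ t ∈ Ico 0 T, ∀ x v,
    f t x v ≤ A * (1 + ‖v‖ ^ 2 * ((T - t) / T) ^ (2 * l)) ^ (-(q / 2))) →
  ∀ q : ℝ, ∃ A : ℝ, 0 < A ∧ ∀ t ∈ Ico 0 T, ∀ x v, f t x v ≤ A * ph q v

end Pool.Agent.L7h99.BI
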